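import Pool.Agent.MCG.Defs

/-!
# Row R7-I : the finite contradiction in case I

Types (`i < j`): `X_ij = (i, j, 0)`, `Y_ij = (j, i, 1)`, `Z_ij = (j, i, 2)`; `f ≤ g` means not
strictly after, `¬ L g f`.  Homogeneous constants of a voter (each true for two of three voters):
`a : X_jk < Y_ij`, `b : Y_ij < Z_ij`, `c : Z_ij < X_jk`, `s1 : X_ij ≤ Y_ij`, `s2 : Z_ij ≤ X_ij`,
`s3 : Y_jk ≤ Z_ij`, `s4 : Y_ik ≤ X_jl`.
-/

set_option autoImplicit false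

namespace MCG

/-- strict then strict -/
theorem ci61_ss {T : Type} {A : T → T → Prop} (tr : ∀ f g h, A f g → A g h → A f h)
    (ntr : ∀ f g h, ¬ A f g → ¬ A g h → ¬ A f h) {f g h : T} (h1 : L A f g) (h2 : L A g h) :
    L A f h :=
  ⟨tr _ _ _ h1.1 h2.1, ntr _ _ _ h2.2 h1.2⟩

/-- weak then weak -/
theorem ci61_ww {T : Type} {A : T → T → Prop} (tr : ∀ f g h, A f g → A g h → A f h)
    (ntr : ∀ f g h, ¬ A f g → ¬ A g h → ¬ A f h) {f g h : T} (h1 : ¬ L A g f) (h2 : ¬ L A h g) :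
    ¬ L A h f := by
  rintro ⟨h3, h4⟩
  by_cases hgh : A g h
  · -- `A g h`, `A h f` give `A g f`, hence `A f g`, hence `A f h`
    have e1 : A g f := tr _ _ _ hgh h3
    have e2 : A f g := by
      by_contra hc
      exact h1 ⟨e1, hc⟩
    exact h4 (tr _ _ _ e2 hgh)
  · -- `¬ A g h`, hence `¬ A h g`
    have e1 : ¬ A h g := fun hc => h2 ⟨hc, hgh⟩
    by_cases hfg : A f g
    · exact e1 (tr _ _ _ h3 hfg)
    · -- `¬ A f g`, hence `¬ A g f`, hence `¬ A h f`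
      have e2 : ¬ A g f := fun hc => h1 ⟨hc, hfg⟩
      exact ntr _ _ _ e1 e2 h3

theorem ci61_asymm {T : Type} {A : T → T → Prop} {f g : T} (h : L A f g) : ¬ L A g f :=
  fun h' => h.2 h'.1

/-- The counting. -/
theorem ci61_count (a b c s1 s2 s3 s4 : Fin 3 → Prop)
    (ha : two a) (hb : two b) (hc : two c) (h1 : two s1) (h2 : two s2) (h3 : two s3)
    (h4 : two s4) (k1 : ∀ v, a v → b v → c v → False) (k2 : ∀ v, s1 v → s4 v → a v → False)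
    (k3 : ∀ v, b v → s1 v → s2 v → False) (k4 : ∀ v, c v → s1 v → s3 v → False) : False := by
  have p0 := k1 0
  have p1 := k1 1
  have p2 := k1 2
  have q0 := k2 0
  have q1 := k2 1
  have q2 := k2 2
  have r0 := k3 0
  have r1 := k3 1
  have r2 := k3 2
  have t0 := k4 0
  have t1 := k4 1
  have t2 := k4 2
  clear k1 k2 k3 k4
  obtain ⟨a01, a12, a02⟩ := ha
  obtain ⟨b01, b12, b02⟩ := hb
  obtain ⟨c01, c12, c02⟩ := hc
  obtain ⟨x01, x12, x02⟩ := h1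
  obtain ⟨y01, y12, y02⟩ := h2
  obtain ⟨z01, z12, z02⟩ := h3
  obtain ⟨w01, w12, w02⟩ := h4
  grind

theorem caseI (A : Fin 3 → Fin 6 × Fin 6 × ZMod 3 → Fin 6 × Fin 6 × ZMod 3 → Prop) (H : HS 6 A)
    (hI : ∀ i j : Fin 6, i < j → two (fun v => ¬ L (A v) (j, i, 1) (i, j, 0))) : False := by
  -- homogeneity of `L`
  have hL : ∀ x y : Fin 4 → Fin 6, (∀ s t, x s < x t ↔ y s < y t) → ∀ v a b,
      L (A v) (x 0, x 1, a) (x 2, x 3, b) → L (A v) (y 0, y 1, a) (y 2, y 3, b) := by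
    intro x y hxy v a b h
    refine ⟨(H.hom x y hxy v a b).1 h.1, fun hc => h.2 ?_⟩
    have hxy' : ∀ s t : Fin 4, (![y 2, y 3, y 0, y 1] : Fin 4 → Fin 6) s <
        (![y 2, y 3, y 0, y 1] : Fin 4 → Fin 6) t ↔
        (![x 2, x 3, x 0, x 1] : Fin 4 → Fin 6) s < (![x 2, x 3, x 0, x 1] : Fin 4 → Fin 6) t := by
      intro s t
      fin_cases s <;> fin_cases t <;> simp [hxy]
    exact (H.hom _ _ hxy' v b a).1 hc
  -- strict from `A` in the same class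
  have hstr : ∀ v f g, f.1 = g.1 → f.2.2 ≠ g.2.2 → A v f g → L (A v) f g :=
    fun v f g h1 h2 h3 => ⟨h3, (H.sep v f g h1 h2).1 h3⟩
  have mono2 : ∀ p q : Fin 3 → Prop, (∀ v, p v → q v) → two p → two q := by
    rintro p q h ⟨h1, h2, h3⟩
    exact ⟨h1.imp (h _) (h _), h2.imp (h _) (h _), h3.imp (h _) (h _)⟩
  have ha : two (fun v => L (A v) (1, 2, 0) (1, 0, 1)) :=
    mono2 _ _ (fun v => hstr v (1, 2, 0) (1, 0, 1) rfl (by decide)) (H.arcf _ _ rfl (by decide))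
  have hb : two (fun v => L (A v) (1, 0, 1) (1, 0, 2)) :=
    mono2 _ _ (fun v => hstr v (1, 0, 1) (1, 0, 2) rfl (by decide)) (H.arcf _ _ rfl (by decide))
  have hc : two (fun v => L (A v) (1, 0, 2) (1, 2, 0)) :=
    mono2 _ _ (fun v => hstr v (1, 0, 2) (1, 2, 0) rfl (by decide)) (H.arcf _ _ rfl (by decide))
  have h1 : two (fun v => ¬ L (A v) (1, 0, 1) (0, 1, 0)) := hI 0 1 (by decide)
  have h2 : two (fun v => ¬ L (A v) (0, 1, 0) (1, 0, 2)) :=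
    mono2 _ _ (fun v h hc => hc.2 h) (H.c32 (0, 1, 0) (1, 0, 2) (by decide))
  have h3 : two (fun v => ¬ L (A v) (1, 0, 2) (2, 1, 1)) :=
    mono2 _ _ (fun v h hc => hc.2 h) (H.c32 (1, 0, 2) (2, 1, 1) (by decide))
  have h4 : two (fun v => ¬ L (A v) (1, 3, 0) (2, 0, 1)) :=
    mono2 _ _ (fun v h hc => hc.2 h) (H.c32 (1, 3, 0) (2, 0, 1) (by decide))
  refine ci61_count _ _ _ _ _ _ _ ha hb hc h1 h2 h3 h4 ?_ ?_ ?_ ?_
  · intro v ka kb kc
    exact ci61_asymm (ci61_ss (H.tr v) (H.ntr v) ka kb) kc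
  · intro v k1 k4 ka
    -- `Y02 ≤ X13 ≤ Y13 ≤ X24 < Y02`
    have e1 : ¬ L (A v) (3, 1, 1) (1, 3, 0) := fun h =>
      k1 (hL ![3, 1, 1, 3] ![1, 0, 0, 1] (by decide) v 1 0 h)
    have e2 : ¬ L (A v) (2, 4, 0) (3, 1, 1) := fun h =>
      k4 (hL ![2, 4, 3, 1] ![1, 3, 2, 0] (by decide) v 0 1 h)
    have e3 : L (A v) (2, 4, 0) (2, 0, 1) :=
      hL ![1, 2, 1, 0] ![2, 4, 2, 0] (by decide) v 0 1 ka
    exact ci61_ww (H.tr v) (H.ntr v) (ci61_ww (H.tr v) (H.ntr v) k4 e1) e2 e3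
  · intro v kb k1 k2
    exact ci61_ww (H.tr v) (H.ntr v) k2 k1 kb
  · intro v kc k1 k3
    have e1 : ¬ L (A v) (2, 1, 1) (1, 2, 0) := fun h =>
      k1 (hL ![2, 1, 1, 2] ![1, 0, 0, 1] (by decide) v 1 0 h)
    exact ci61_ww (H.tr v) (H.ntr v) e1 k3 kc

end MCG
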