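import Pool.Agent.MCG.Defs

/-!
# MCG, row R7: the finite contradiction, case II (helper91)

One tight voter is a relation `P f g` (generic early `f` before generic late `g`), which is
transitive together with its complement.  `le91 P f g` is f is not strictly after g,
`lt91 P f g` (`= L P f g`) is f is strictly before g.  The types used are
`z j i = (j,i,2)`, `w j i = (j,i,1)`, `o i j = (i,j,0)` for `i < j`.
-/

set_option autoImplicit false

namespace MCG.CaseTwo91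

/-- `P` and its complement are transitive. -/
structure BiTr {T : Type*} (P : T → T → Prop) : Prop where
  tr : ∀ f g h, P f g → P g h → P f h
  ntr : ∀ f g h, ¬ P f g → ¬ P g h → ¬ P f h

/-- strictly before -/
def lt91 {T : Type*} (P : T → T → Prop) (f g : T) : Prop := P f g ∧ ¬ P g f

/-- not strictly after -/
def le91 {T : Type*} (P : T → T → Prop) (f g : T) : Prop := ¬ lt91 P g f

section
variable {T : Type*} {P : T → T → Prop}

theorem le_of_P (f g : T) (h : P f g) : le91 P f g := fun h' => h'.2 h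

theorem lt_or_le (f g : T) : lt91 P f g ∨ le91 P g f := by
  unfold le91; exact em _

theorem not_lt_of_le {f g : T} (h : le91 P f g) : ¬ lt91 P g f := h

theorem le_of_lt {f g : T} (h : lt91 P f g) : le91 P f g := fun h' => h'.2 h.1

theorem lt_of_lt_of_le (hP : BiTr P) {f g h : T} (h1 : lt91 P f g) (h2 : le91 P g h) :
    lt91 P f h := by
  have h3 : P h g → P g h := fun e => by
    by_contra n
    exact h2 ⟨e, n⟩
  refine ⟨?_, ?_⟩
  · by_contra n
    have n1 : ¬ P g h := fun e => n (hP.tr _ _ _ h1.1 e)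
    have n2 : ¬ P h g := fun e => n1 (h3 e)
    exact hP.ntr _ _ _ n n2 h1.1
  · intro e
    exact h1.2 (hP.tr _ _ _ (h3 (hP.tr _ _ _ e h1.1)) e)

theorem lt_of_le_of_lt (hP : BiTr P) {f g h : T} (h1 : le91 P f g) (h2 : lt91 P g h) :
    lt91 P f h := by
  have h3 : P g f → P f g := fun e => by
    by_contra n
    exact h1 ⟨e, n⟩
  refine ⟨?_, ?_⟩
  · by_contra n
    have n1 : ¬ P f g := fun e => n (hP.tr _ _ _ e h2.1)
    have n2 : ¬ P g f := fun e => n1 (h3 e)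
    exact hP.ntr _ _ _ n2 n h2.1
  · intro e
    exact h2.2 (hP.tr _ _ _ e (h3 (hP.tr _ _ _ h2.1 e)))

theorem le_trans (hP : BiTr P) {f g h : T} (h1 : le91 P f g) (h2 : le91 P g h) :
    le91 P f h := by
  intro h3
  exact h1 (lt_of_le_of_lt hP h2 h3)

theorem lt_trans (hP : BiTr P) {f g h : T} (h1 : lt91 P f g) (h2 : lt91 P g h) :
    lt91 P f h := lt_of_lt_of_le hP h1 (le_of_lt h2)

theorem lt_irrefl (f : T) : ¬ lt91 P f f := fun h => h.2 h.1

end

/-- The data of one tight voter in case II, on the types `z j i = (j;i)_0`, `w j i = (j;i)_2`,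
`o i j = (i;j)_1` for `i < j`: transitivity, the case hypothesis `(j;i)_0 ≤ (i;j)_1`, and the
cyclic order of the three residues inside one class. -/
structure V91 {T : Type*} (P : T → T → Prop) (z w o : Fin 6 → Fin 6 → T) : Prop where
  bi : BiTr P
  two : ∀ i j, i < j → le91 P (z j i) (o i j)
  rot : (∀ i j k l, i < k → j < k → k < l →
            lt91 P (z k i) (o k l) ∧ lt91 P (o k l) (w k j)) ∨
        (∀ i j k l, i < k → j < k → k < l →
            lt91 P (w k j) (z k i) ∧ lt91 P (z k i) (o k l)) ∨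
        (∀ i j k l, i < k → j < k → k < l →
            lt91 P (o k l) (w k j) ∧ lt91 P (w k j) (z k i))

section
variable {T : Type*} {P : T → T → Prop} {z w o : Fin 6 → Fin 6 → T}

/-- class order `0 < 1 < 2` -/
def R0 (P : T → T → Prop) (z w o : Fin 6 → Fin 6 → T) : Prop :=
  ∀ i j k l, i < k → j < k → k < l → lt91 P (z k i) (o k l) ∧ lt91 P (o k l) (w k j)
/-- class order `2 < 0 < 1` -/
def R2 (P : T → T → Prop) (z w o : Fin 6 → Fin 6 → T) : Prop :=
  ∀ i j k l, i < k → j < k → k < l → lt91 P (w k j) (z k i) ∧ lt91 P (z k i) (o k l)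
/-- class order `1 < 2 < 0` -/
def R1 (P : T → T → Prop) (z w o : Fin 6 → Fin 6 → T) : Prop :=
  ∀ i j k l, i < k → j < k → k < l → lt91 P (o k l) (w k j) ∧ lt91 P (w k j) (z k i)

def A1 (P : T → T → Prop) (z _w o : Fin 6 → Fin 6 → T) : Prop :=
  ∀ i j k, i < j → j < k → le91 P (o i k) (z j i)
def A2 (P : T → T → Prop) (_z w o : Fin 6 → Fin 6 → T) : Prop :=
  ∀ i j k, i < j → j < k → le91 P (o i k) (w k j)
def A3 (P : T → T → Prop) (z w _o : Fin 6 → Fin 6 → T) : Prop :=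
  ∀ i j k, i < j → j < k → le91 P (w j i) (z k j)
def A4 (P : T → T → Prop) (z _w o : Fin 6 → Fin 6 → T) : Prop :=
  ∀ i j k l, i < j → j < k → k < l → le91 P (o j k) (z l i)
def B1 (P : T → T → Prop) (_z w o : Fin 6 → Fin 6 → T) : Prop :=
  ∀ i j k, i < j → j < k → le91 P (w j i) (o i k)
def B2 (P : T → T → Prop) (z w _o : Fin 6 → Fin 6 → T) : Prop :=
  ∀ i j k l, i < j → j < k → k < l → le91 P (z l i) (w k j)
def B3 (P : T → T → Prop) (z _w _o : Fin 6 → Fin 6 → T) : Prop :=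
  ∀ i j k l, i < j → j < k → k < l → le91 P (z l k) (z j i)

theorem rot_cases (h : V91 P z w o) : R0 P z w o ∨ R2 P z w o ∨ R1 P z w o := h.rot

theorem L1 (h : V91 P z w o) (a2 : A2 P z w o) : R0 P z w o := by
  have e : le91 P (z 2 0) (w 2 1) :=
    le_trans h.bi (h.two 0 2 (by decide)) (a2 0 1 2 (by decide) (by decide))
  rcases rot_cases h with r | r | r
  · exact r
  · exact absurd (r 0 1 2 3 (by decide) (by decide) (by decide)).1 e
  · exact absurd (r 0 1 2 3 (by decide) (by decide) (by decide)).2 e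

theorem L2 (h : V91 P z w o) (a3 : A3 P z w o) : R2 P z w o := by
  have e : le91 P (w 1 0) (o 1 2) :=
    le_trans h.bi (a3 0 1 2 (by decide) (by decide)) (h.two 1 2 (by decide))
  rcases rot_cases h with r | r | r
  · exact absurd (r 0 0 1 2 (by decide) (by decide) (by decide)).2 e
  · exact r
  · exact absurd (r 0 0 1 2 (by decide) (by decide) (by decide)).1 e

theorem L3 (h : V91 P z w o) (a2 : A2 P z w o) (a3 : A3 P z w o) : False := by
  have r0 := L1 h a2 0 0 1 2 (by decide) (by decide) (by decide)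
  have r2 := L2 h a3 0 0 1 2 (by decide) (by decide) (by decide)
  have e := lt_trans h.bi r0.1 r0.2
  exact lt_irrefl _ (lt_trans h.bi e r2.1)

theorem L4 (h : V91 P z w o) (a2 : A2 P z w o) (b1 : B1 P z w o) : False := by
  have e1 : le91 P (w 1 0) (o 0 2) := b1 0 1 2 (by decide) (by decide)
  have e2 : le91 P (o 0 2) (w 2 1) := by
    exact a2 0 1 2 (by decide) (by decide)
  have e3 : le91 P (w 2 1) (o 1 3) := b1 1 2 3 (by decide) (by decide)
  have e4 := (L1 h a2 0 0 1 3 (by decide) (by decide) (by decide)).2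
  exact le_trans h.bi e1 (le_trans h.bi e2 e3) e4

theorem L5 (h : V91 P z w o) (a3 : A3 P z w o) (b2 : B2 P z w o) : False := by
  have e1 := (L2 h a3 0 3 4 5 (by decide) (by decide) (by decide)).1
  have e2 : le91 P (z 4 0) (w 2 1) := b2 0 1 2 4 (by decide) (by decide) (by decide)
  have e3 : le91 P (w 2 1) (z 5 2) := a3 1 2 5 (by decide) (by decide)
  have e4 : le91 P (z 5 2) (w 4 3) := b2 2 3 4 5 (by decide) (by decide) (by decide)
  exact le_trans h.bi e2 (le_trans h.bi e3 e4) e1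

/-- residue 0 before residue 1 in the class -/
def Z1 (P : T → T → Prop) (z _w o : Fin 6 → Fin 6 → T) : Prop :=
  ∀ i k l, i < k → k < l → lt91 P (z k i) (o k l)

theorem Z1_of_R0 (r : R0 P z w o) : Z1 P z w o :=
  fun i k l hik hkl => (r i i k l hik hik hkl).1

theorem Z1_of_R2 (r : R2 P z w o) : Z1 P z w o :=
  fun i k l hik hkl => (r i i k l hik hik hkl).2

theorem L6 (h : V91 P z w o) (a1 : A1 P z w o) (a4 : A4 P z w o) (r : Z1 P z w o) : False := by
  have e1 : le91 P (o 1 2) (z 3 0) := a4 0 1 2 3 (by decide) (by decide) (by decide)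
  have e2 : le91 P (z 3 0) (o 0 3) := h.two 0 3 (by decide)
  have e3 : le91 P (o 0 3) (z 1 0) := a1 0 1 3 (by decide) (by decide)
  have e4 := r 0 1 2 (by decide) (by decide)
  exact le_trans h.bi e1 (le_trans h.bi e2 e3) e4

theorem L7 (h : V91 P z w o) (a1 : A1 P z w o) (b3 : B3 P z w o) (r : Z1 P z w o) : False := by
  have e1 := r 0 1 3 (by decide) (by decide)
  have e2 : le91 P (o 1 3) (z 2 1) := a1 1 2 3 (by decide) (by decide)
  have e3 := r 1 2 4 (by decide) (by decide)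
  have e4 : le91 P (o 2 4) (z 3 2) := a1 2 3 4 (by decide) (by decide)
  have e5 : le91 P (z 3 2) (z 1 0) := b3 0 1 2 3 (by decide) (by decide) (by decide)
  exact e5 (lt_of_lt_of_le h.bi (lt_of_lt_of_le h.bi e1 e2)
    (le_trans h.bi (le_of_lt e3) e4))

theorem L8 (h : V91 P z w o) (a4 : A4 P z w o) (b3 : B3 P z w o) (r : Z1 P z w o) : False := by
  have e1 := r 0 3 4 (by decide) (by decide)
  have e2 : le91 P (o 3 4) (z 5 2) := a4 2 3 4 5 (by decide) (by decide) (by decide)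
  have e3 : le91 P (z 5 2) (z 1 0) := b3 0 1 2 5 (by decide) (by decide) (by decide)
  have e4 := r 0 1 2 (by decide) (by decide)
  have e5 : le91 P (o 1 2) (z 3 0) := a4 0 1 2 3 (by decide) (by decide) (by decide)
  exact le_trans h.bi (le_of_lt e4) e5
    (lt_of_lt_of_le h.bi e1 (le_trans h.bi e2 e3))

theorem L9 (h : V91 P z w o) (a4 : A4 P z w o) (b2 : B2 P z w o) : R0 P z w o := by
  rcases rot_cases h with r | r | r
  · exact r
  · -- 1 ≤ 2 at class 2
    have e1 : le91 P (o 2 3) (z 4 0) := a4 0 2 3 4 (by decide) (by decide) (by decide)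
    have e2 : le91 P (z 4 0) (w 2 1) := b2 0 1 2 4 (by decide) (by decide) (by decide)
    have e3 := r 0 1 2 3 (by decide) (by decide) (by decide)
    exact absurd (lt_trans h.bi e3.1 e3.2) (le_trans h.bi e1 e2)
  · have e1 : le91 P (z 2 1) (o 1 2) := h.two 1 2 (by decide)
    have e2 : le91 P (o 1 2) (z 3 0) := a4 0 1 2 3 (by decide) (by decide) (by decide)
    have e3 : le91 P (z 3 0) (w 2 1) := b2 0 1 2 3 (by decide) (by decide) (by decide)
    have e4 := (r 1 1 2 3 (by decide) (by decide) (by decide)).2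
    exact absurd e4 (le_trans h.bi e1 (le_trans h.bi e2 e3))

theorem L12 (h : V91 P z w o) (a4 : A4 P z w o) (b1 : B1 P z w o) (b2 : B2 P z w o) :
    False := by
  have r := L9 h a4 b2
  have e1 : le91 P (o 1 4) (z 5 0) := a4 0 1 4 5 (by decide) (by decide) (by decide)
  have e2 : le91 P (z 5 0) (w 3 2) := b2 0 2 3 5 (by decide) (by decide) (by decide)
  have e3 : le91 P (w 3 2) (o 2 4) := b1 2 3 4 (by decide) (by decide)
  have e4 := (r 1 1 2 4 (by decide) (by decide) (by decide)).2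
  have e5 : le91 P (w 2 1) (o 1 4) := b1 1 2 4 (by decide) (by decide)
  exact le_trans h.bi e5 (le_trans h.bi e1 (le_trans h.bi e2 e3)) e4

theorem L13 (h : V91 P z w o) (a1 : A1 P z w o) (b1 : B1 P z w o) (b2 : B2 P z w o)
    (hw : le91 P (w 1 0) (w 3 2) → le91 P (w 2 1) (w 4 3)) : False := by
  rcases rot_cases h with r | r | r
  · have e1 : le91 P (w 1 0) (o 0 2) := b1 0 1 2 (by decide) (by decide)
    have e2 : le91 P (o 0 2) (z 1 0) := a1 0 1 2 (by decide) (by decide)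
    have e3 := r 0 0 1 2 (by decide) (by decide) (by decide)
    exact le_trans h.bi e1 e2 (lt_trans h.bi e3.1 e3.2)
  · have e1 := (r 0 3 4 5 (by decide) (by decide) (by decide)).1
    have e2 : le91 P (z 4 0) (w 2 1) := b2 0 1 2 4 (by decide) (by decide) (by decide)
    have e3' := r 0 0 1 5 (by decide) (by decide) (by decide)
    have e3 := lt_trans h.bi e3'.1 e3'.2
    have e4 : le91 P (o 1 5) (z 4 1) := a1 1 4 5 (by decide) (by decide)
    have e5 : le91 P (z 4 1) (w 3 2) := b2 1 2 3 4 (by decide) (by decide) (by decide)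
    exact hw (le_trans h.bi (le_of_lt e3) (le_trans h.bi e4 e5))
      (lt_of_lt_of_le h.bi e1 e2)
  · have e1 : le91 P (o 0 4) (z 3 0) := a1 0 3 4 (by decide) (by decide)
    have e2 : le91 P (z 3 0) (w 2 1) := b2 0 1 2 3 (by decide) (by decide) (by decide)
    have e3 : le91 P (w 2 1) (o 1 4) := b1 1 2 4 (by decide) (by decide)
    have e4 := (r 0 0 1 4 (by decide) (by decide) (by decide)).1
    have e5 : le91 P (w 1 0) (o 0 4) := b1 0 1 4 (by decide) (by decide)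
    exact le_trans h.bi e5 (le_trans h.bi e1 (le_trans h.bi e2 e3)) e4

end

/-- The exclusions in one voter. -/
structure Excl91 (a1 a2 a3 a4 b1 b2 b3 : Prop) : Prop where
  x1 : ¬ (a2 ∧ a3)
  x2 : ¬ (a2 ∧ b1)
  x3 : ¬ (a3 ∧ b2)
  x4 : ¬ (a1 ∧ a2 ∧ a4)
  x5 : ¬ (a1 ∧ a2 ∧ b3)
  x6 : ¬ (a1 ∧ a3 ∧ a4)
  x7 : ¬ (a1 ∧ a3 ∧ b3)
  x8 : ¬ (a1 ∧ a4 ∧ b2)
  x9 : ¬ (a1 ∧ b1 ∧ b2)
  x10 : ¬ (a2 ∧ a4 ∧ b3)
  x11 : ¬ (a3 ∧ a4 ∧ b3)
  x12 : ¬ (a4 ∧ b1 ∧ b2)
  x13 : ¬ (a4 ∧ b2 ∧ b3)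

theorem excl_of_V91 {T : Type*} {P : T → T → Prop} {z w o : Fin 6 → Fin 6 → T} (h : V91 P z w o)
    (hw : le91 P (w 1 0) (w 3 2) → le91 P (w 2 1) (w 4 3)) :
    Excl91 (A1 P z w o) (A2 P z w o) (A3 P z w o) (A4 P z w o) (B1 P z w o) (B2 P z w o)
      (B3 P z w o) where
  x1 := fun e => L3 h e.1 e.2
  x2 := fun e => L4 h e.1 e.2
  x3 := fun e => L5 h e.1 e.2
  x4 := fun e => L6 h e.1 e.2.2 (Z1_of_R0 (L1 h e.2.1))
  x5 := fun e => L7 h e.1 e.2.2 (Z1_of_R0 (L1 h e.2.1))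
  x6 := fun e => L6 h e.1 e.2.2 (Z1_of_R2 (L2 h e.2.1))
  x7 := fun e => L7 h e.1 e.2.2 (Z1_of_R2 (L2 h e.2.1))
  x8 := fun e => L6 h e.1 e.2.1 (Z1_of_R0 (L9 h e.2.1 e.2.2))
  x9 := fun e => L13 h e.1 e.2.1 e.2.2 hw
  x10 := fun e => L8 h e.2.1 e.2.2 (Z1_of_R0 (L1 h e.1))
  x11 := fun e => L8 h e.2.1 e.2.2 (Z1_of_R2 (L2 h e.1))
  x12 := fun e => L12 h e.1 e.2.1 e.2.2
  x13 := fun e => L8 h e.1 e.2.2 (Z1_of_R0 (L9 h e.1 e.2.1))

theorem count91 (a1 a2 a3 a4 b1 b2 b3 : Fin 3 → Prop)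
    (h : ∀ t, Excl91 (a1 t) (a2 t) (a3 t) (a4 t) (b1 t) (b2 t) (b3 t))
    (c1 : one a1) (c2 : one a2) (c3 : one a3) (c4 : one a4)
    (d1 : two b1) (d2 : two b2) (d3 : two b3) : False := by
  obtain ⟨x1, x2, x3, x4, x5, x6, x7, x8, x9, x10, x11, x12, x13⟩ := h 0
  obtain ⟨y1, y2, y3, y4, y5, y6, y7, y8, y9, y10, y11, y12, y13⟩ := h 1
  obtain ⟨z1, z2, z3, z4, z5, z6, z7, z8, z9, z10, z11, z12, z13⟩ := h 2
  unfold one at c1 c2 c3 c4
  unfold two at d1 d2 d3
  grind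

/-! ## The homogeneous structure -/

section
variable {A : Fin 3 → Fin 6 × Fin 6 × ZMod 3 → Fin 6 × Fin 6 × ZMod 3 → Prop}

/-- the type `(j,i,2)` -/
def zz (j i : Fin 6) : Fin 6 × Fin 6 × ZMod 3 := (j, i, 2)
/-- the type `(j,i,1)` -/
def ww (j i : Fin 6) : Fin 6 × Fin 6 × ZMod 3 := (j, i, 1)
/-- the type `(i,j,0)` -/
def oo (i j : Fin 6) : Fin 6 × Fin 6 × ZMod 3 := (i, j, 0)

theorem hom4 (H : HS 6 A) (v : Fin 3) (a b : ZMod 3) (x0 x1 x2 x3 y0 y1 y2 y3 : Fin 6)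
    (h : ∀ s t, (![x0, x1, x2, x3] : Fin 4 → Fin 6) s < ![x0, x1, x2, x3] t ↔
      (![y0, y1, y2, y3] : Fin 4 → Fin 6) s < ![y0, y1, y2, y3] t) :
    A v (x0, x1, a) (x2, x3, b) ↔ A v (y0, y1, a) (y2, y3, b) := by
  have := H.hom ![x0, x1, x2, x3] ![y0, y1, y2, y3] h v a b
  simpa using this

/-- In every tight voter every mixture is a rotation: exactly one arc is backward. -/
theorem mix (H : HS 6 A) (k p0 p1 p2 : Fin 6) (v : Fin 3) :
    (A v (k, p0, 0) (k, p1, 1) ∧ A v (k, p1, 1) (k, p2, 2) ∧ ¬ A v (k, p2, 2) (k, p0, 0)) ∨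
    (A v (k, p1, 1) (k, p2, 2) ∧ A v (k, p2, 2) (k, p0, 0) ∧ ¬ A v (k, p0, 0) (k, p1, 1)) ∨
    (A v (k, p2, 2) (k, p0, 0) ∧ A v (k, p0, 0) (k, p1, 1) ∧ ¬ A v (k, p1, 1) (k, p2, 2)) := by
  have t01 := H.arcf (k, p0, 0) (k, p1, 1) rfl (show (1 : ZMod 3) = 0 + 1 by decide)
  have t12 := H.arcf (k, p1, 1) (k, p2, 2) rfl (show (2 : ZMod 3) = 1 + 1 by decide)
  have t20 := H.arcf (k, p2, 2) (k, p0, 0) rfl (show (0 : ZMod 3) = 2 + 1 by decide)
  have key : ∀ v, ¬ (A v (k, p0, 0) (k, p1, 1) ∧ A v (k, p1, 1) (k, p2, 2) ∧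
      A v (k, p2, 2) (k, p0, 0)) := by
    rintro v ⟨e1, e2, e3⟩
    have e4 := H.tr v _ _ _ e2 e3
    exact (H.sep v (k, p0, 0) (k, p1, 1) rfl (show (0 : ZMod 3) ≠ 1 by decide)).1 e1 e4
  have k0 := key 0
  have k1 := key 1
  have k2 := key 2
  unfold two at t01 t12 t20
  fin_cases v <;> simp only [Fin.zero_eta, Fin.mk_one, Fin.reduceFinMk] <;> grind

theorem lt_of_A (H : HS 6 A) (v : Fin 3) (f g : Fin 6 × Fin 6 × ZMod 3) (h1 : f.1 = g.1)
    (h2 : f.2.2 ≠ g.2.2) (h : A v f g) : lt91 (A v) f g :=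
  ⟨h, (H.sep v f g h1 h2).1 h⟩

theorem pat3 {i j k i' j' k' : Fin 6} (a b c d : Fin 3)
    (h1 : i < j) (h2 : j < k) (h1' : i' < j') (h2' : j' < k') :
    ∀ s t, (![![i, j, k] a, ![i, j, k] b, ![i, j, k] c, ![i, j, k] d] : Fin 4 → Fin 6) s <
      ![![i, j, k] a, ![i, j, k] b, ![i, j, k] c, ![i, j, k] d] t ↔
      (![![i', j', k'] a, ![i', j', k'] b, ![i', j', k'] c, ![i', j', k'] d] : Fin 4 → Fin 6) s <
      ![![i', j', k'] a, ![i', j', k'] b, ![i', j', k'] c, ![i', j', k'] d] t := by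
  have m1 : ∀ x y : Fin 3, (![i, j, k] x < ![i, j, k] y ↔ x < y) := by
    intro x y
    fin_cases x <;> fin_cases y <;> simp <;> omega
  have m2 : ∀ x y : Fin 3, (![i', j', k'] x < ![i', j', k'] y ↔ x < y) := by
    intro x y
    fin_cases x <;> fin_cases y <;> simp <;> omega
  intro s t
  fin_cases s <;> fin_cases t <;> simp [m1, m2]

theorem pat4 {i j k l i' j' k' l' : Fin 6} (a b c d : Fin 4)
    (h1 : i < j) (h2 : j < k) (h3 : k < l) (h1' : i' < j') (h2' : j' < k') (h3' : k' < l') :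
    ∀ s t, (![![i, j, k, l] a, ![i, j, k, l] b, ![i, j, k, l] c, ![i, j, k, l] d] :
      Fin 4 → Fin 6) s < ![![i, j, k, l] a, ![i, j, k, l] b, ![i, j, k, l] c, ![i, j, k, l] d] t ↔
      (![![i', j', k', l'] a, ![i', j', k', l'] b, ![i', j', k', l'] c, ![i', j', k', l'] d] :
      Fin 4 → Fin 6) s <
      ![![i', j', k', l'] a, ![i', j', k', l'] b, ![i', j', k', l'] c, ![i', j', k', l'] d] t := by
  have m1 : ∀ x y : Fin 4, (![i, j, k, l] x < ![i, j, k, l] y ↔ x < y) := by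
    intro x y
    fin_cases x <;> fin_cases y <;> simp <;> omega
  have m2 : ∀ x y : Fin 4, (![i', j', k', l'] x < ![i', j', k', l'] y ↔ x < y) := by
    intro x y
    fin_cases x <;> fin_cases y <;> simp <;> omega
  intro s t
  fin_cases s <;> fin_cases t <;> simp [m1, m2]

theorem rot_of_HS (H : HS 6 A) (v : Fin 3) :
    R0 (A v) zz ww oo ∨ R2 (A v) zz ww oo ∨ R1 (A v) zz ww oo := by
  -- `α` : `o k l` before `w k j`; `γ` : `z k i` before `o k l`
  have hα : ∀ j k l : Fin 6, j < k → k < l →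
      (A v (k, l, 0) (k, j, 1) ↔ A v (1, 2, 0) (1, 0, 1)) := fun j k l hjk hkl =>
    hom4 H v 0 1 _ _ _ _ _ _ _ _
      (pat3 (i' := 0) (j' := 1) (k' := 2) 1 2 1 0 hjk hkl (by decide) (by decide))
  have hγ : ∀ i k l : Fin 6, i < k → k < l →
      (A v (k, i, 2) (k, l, 0) ↔ A v (1, 0, 2) (1, 2, 0)) := fun i k l hik hkl =>
    hom4 H v 2 0 _ _ _ _ _ _ _ _
      (pat3 (i' := 0) (j' := 1) (k' := 2) 1 0 1 2 hik hkl (by decide) (by decide))
  have n02 : (0 : ZMod 3) ≠ 1 := by decide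
  have n12 : (1 : ZMod 3) ≠ 2 := by decide
  have n20 : (2 : ZMod 3) ≠ 0 := by decide
  by_cases a : A v (1, 2, 0) (1, 0, 1)
  · by_cases c : A v (1, 0, 2) (1, 2, 0)
    · left
      intro i j k l hik hjk hkl
      exact ⟨lt_of_A H v _ _ rfl n20 ((hγ i k l hik hkl).2 c),
        lt_of_A H v _ _ rfl n02 ((hα j k l hjk hkl).2 a)⟩
    · right; right
      intro i j k l hik hjk hkl
      have a' := (hα j k l hjk hkl).2 a
      have c' : ¬ A v (k, i, 2) (k, l, 0) := fun e => c ((hγ i k l hik hkl).1 e)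
      have b' : A v (k, j, 1) (k, i, 2) := by
        rcases mix H k l j i v with m | m | m
        · exact m.2.1
        · exact m.1
        · exact absurd m.1 c'
      exact ⟨lt_of_A H v _ _ rfl n02 a', lt_of_A H v _ _ rfl n12 b'⟩
  · by_cases c : A v (1, 0, 2) (1, 2, 0)
    · right; left
      intro i j k l hik hjk hkl
      have c' := (hγ i k l hik hkl).2 c
      have a' : ¬ A v (k, l, 0) (k, j, 1) := fun e => a ((hα j k l hjk hkl).1 e)
      have b' : A v (k, j, 1) (k, i, 2) := by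
        rcases mix H k l j i v with m | m | m
        · exact m.2.1
        · exact m.1
        · exact absurd m.2.1 a'
      exact ⟨lt_of_A H v _ _ rfl n12 b', lt_of_A H v _ _ rfl n20 c'⟩
    · exfalso
      rcases mix H 1 2 0 0 v with m | m | m
      · exact a m.1
      · exact c m.2.1
      · exact a m.2.1

theorem V91_of_HS (H : HS 6 A)
    (hII : ∀ i j : Fin 6, i < j → ∀ v, ¬ L (A v) (i, j, 0) (j, i, 2)) (v : Fin 3) :
    V91 (A v) zz ww oo where
  bi := ⟨H.tr v, H.ntr v⟩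
  two := fun i j hij => hII i j hij v
  rot := rot_of_HS H v

end

end MCG.CaseTwo91

namespace MCG

open CaseTwo91

theorem caseII (A : Fin 3 → Fin 6 × Fin 6 × ZMod 3 → Fin 6 × Fin 6 × ZMod 3 → Prop) (H : HS 6 A)
    (hII : ∀ i j : Fin 6, i < j → ∀ v, ¬ L (A v) (i, j, 0) (j, i, 2)) : False := by
  have hA1 : ∀ v, A v (oo 0 2) (zz 1 0) → A1 (A v) zz ww oo := fun v e i j k hij hjk =>
    le_of_P _ _ ((hom4 H v 0 2 _ _ _ _ _ _ _ _
      (pat3 (i' := 0) (j' := 1) (k' := 2) 0 2 1 0 hij hjk (by decide) (by decide))).2 e)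
  have hA2 : ∀ v, A v (oo 0 2) (ww 2 1) → A2 (A v) zz ww oo := fun v e i j k hij hjk =>
    le_of_P _ _ ((hom4 H v 0 1 _ _ _ _ _ _ _ _
      (pat3 (i' := 0) (j' := 1) (k' := 2) 0 2 2 1 hij hjk (by decide) (by decide))).2 e)
  have hA3 : ∀ v, A v (ww 1 0) (zz 2 1) → A3 (A v) zz ww oo := fun v e i j k hij hjk =>
    le_of_P _ _ ((hom4 H v 1 2 _ _ _ _ _ _ _ _
      (pat3 (i' := 0) (j' := 1) (k' := 2) 1 0 2 1 hij hjk (by decide) (by decide))).2 e)
  have hA4 : ∀ v, A v (oo 1 2) (zz 3 0) → A4 (A v) zz ww oo := fun v e i j k l hij hjk hkl =>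
    le_of_P _ _ ((hom4 H v 0 2 _ _ _ _ _ _ _ _
      (pat4 (i' := 0) (j' := 1) (k' := 2) (l' := 3) 1 2 3 0 hij hjk hkl (by decide) (by decide)
        (by decide))).2 e)
  have hB1 : ∀ v, A v (ww 1 0) (oo 0 2) → B1 (A v) zz ww oo := fun v e i j k hij hjk =>
    le_of_P _ _ ((hom4 H v 1 0 _ _ _ _ _ _ _ _
      (pat3 (i' := 0) (j' := 1) (k' := 2) 1 0 0 2 hij hjk (by decide) (by decide))).2 e)
  have hB2 : ∀ v, A v (zz 3 0) (ww 2 1) → B2 (A v) zz ww oo := fun v e i j k l hij hjk hkl =>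
    le_of_P _ _ ((hom4 H v 2 1 _ _ _ _ _ _ _ _
      (pat4 (i' := 0) (j' := 1) (k' := 2) (l' := 3) 3 0 2 1 hij hjk hkl (by decide) (by decide)
        (by decide))).2 e)
  have hB3 : ∀ v, A v (zz 3 2) (zz 1 0) → B3 (A v) zz ww oo := fun v e i j k l hij hjk hkl =>
    le_of_P _ _ ((hom4 H v 2 2 _ _ _ _ _ _ _ _
      (pat4 (i' := 0) (j' := 1) (k' := 2) (l' := 3) 3 2 1 0 hij hjk hkl (by decide) (by decide)
        (by decide))).2 e)
  have hw : ∀ v, le91 (A v) (ww 1 0) (ww 3 2) → le91 (A v) (ww 2 1) (ww 4 3) := by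
    intro v e
    have h1 : A v (2, 1, 1) (4, 3, 1) ↔ A v (1, 0, 1) (3, 2, 1) :=
      hom4 H v 1 1 _ _ _ _ _ _ _ _ (by decide)
    have h2 : A v (4, 3, 1) (2, 1, 1) ↔ A v (3, 2, 1) (1, 0, 1) :=
      hom4 H v 1 1 _ _ _ _ _ _ _ _ (by decide)
    rintro ⟨g1, g2⟩
    exact e ⟨h2.1 g1, fun g => g2 (h1.2 g)⟩
  have one_mono : ∀ p q : Fin 3 → Prop, (∀ v, p v → q v) → one p → one q := by
    intro p q hpq h
    rcases h with h | h | h
    · exact Or.inl (hpq _ h)
    · exact Or.inr (Or.inl (hpq _ h))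
    · exact Or.inr (Or.inr (hpq _ h))
  have two_mono : ∀ p q : Fin 3 → Prop, (∀ v, p v → q v) → two p → two q := by
    intro p q hpq h
    exact ⟨h.1.imp (hpq _) (hpq _), h.2.1.imp (hpq _) (hpq _), h.2.2.imp (hpq _) (hpq _)⟩
  refine count91 (fun v => A1 (A v) zz ww oo) (fun v => A2 (A v) zz ww oo)
    (fun v => A3 (A v) zz ww oo) (fun v => A4 (A v) zz ww oo) (fun v => B1 (A v) zz ww oo)
    (fun v => B2 (A v) zz ww oo) (fun v => B3 (A v) zz ww oo)
    (fun v => excl_of_V91 (V91_of_HS H hII v) (hw v)) ?_ ?_ ?_ ?_ ?_ ?_ ?_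
  · exact one_mono _ _ hA1 (H.c31 (oo 0 2) (zz 1 0) (by decide))
  · exact one_mono _ _ hA2 (H.c31 (oo 0 2) (ww 2 1) (by decide))
  · exact one_mono _ _ hA3 (H.c31 (ww 1 0) (zz 2 1) (by decide))
  · exact one_mono _ _ hA4 (H.c31 (oo 1 2) (zz 3 0) (by decide))
  · exact two_mono _ _ hB1 (H.c32 (oo 0 2) (ww 1 0) (by decide))
  · exact two_mono _ _ hB2 (H.c32 (ww 2 1) (zz 3 0) (by decide))
  · exact two_mono _ _ hB3 (H.c32 (zz 1 0) (zz 3 2) (by decide))

end MCG
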