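import Pool.Agent.MCG.Defs

/-!
# Row R1 (helper17): general facts on voters

`inducible_five`, the upper bound `2 / 3` by a 3-cycle, lists from finite families of voters,
voters sorted by a key, and the McGarvey number.
-/

set_option autoImplicit false
set_option linter.unusedVariables false

namespace MCG

section basic

variable {V : Type}

theorem Voter.irr17 (s : Voter V) (x : V) : ¬ s.1 x x := s.2.toIrrefl.irrefl x

theorem Voter.trans17 (s : Voter V) {x y z : V} (h1 : s.1 x y) (h2 : s.1 y z) : s.1 x z :=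
  s.2.toIsTrans.trans x y z h1 h2

theorem Voter.asymm17 (s : Voter V) {x y : V} (h : s.1 x y) : ¬ s.1 y x := fun h' =>
  s.irr17 x (s.trans17 h h')

theorem Voter.total17 (s : Voter V) {x y : V} (h : x ≠ y) : s.1 x y ∨ s.1 y x := by
  rcases s.2.toTrichotomous.rel_or_eq_or_rel_swap (a := x) (b := y) with h1 | h1 | h1
  · exact Or.inl h1
  · exact absurd h1 h
  · exact Or.inr h1

/-- a voter from an explicit relation -/
def Voter.mk17 (r : V → V → Prop) (h1 : ∀ x, ¬ r x x) (h2 : ∀ x y z, r x y → r y z → r x z)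
    (h3 : ∀ x y, x ≠ y → r x y ∨ r y x) : Voter V :=
  ⟨r, { irrefl := h1
        trans := h2
        trichotomous := fun a b hab hba => by
          by_contra hne
          rcases h3 a b hne with h | h
          · exact hab h
          · exact hba h }⟩

@[simp] theorem Voter.mk17_r (r : V → V → Prop) (h1 : ∀ x, ¬ r x x)
    (h2 : ∀ x y z, r x y → r y z → r x z) (h3 : ∀ x y, x ≠ y → r x y ∨ r y x) (x y : V) :
    (Voter.mk17 r h1 h2 h3).1 x y ↔ r x y := Iff.rfl

/-- the reversed voter -/
def Voter.rev17 (s : Voter V) : Voter V :=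
  Voter.mk17 (fun x y => s.1 y x) (fun x => s.irr17 x) (fun x y z h1 h2 => s.trans17 h2 h1)
    (fun x y h => (s.total17 h).symm)

/-- the voter sorting by an injective key -/
def Voter.key17 {α : Type} [LinearOrder α] (k : V → α) (hk : Function.Injective k) : Voter V :=
  Voter.mk17 (fun x y => k x < k y) (fun x => lt_irrefl _) (fun x y z h1 h2 => lt_trans h1 h2)
    (fun x y h => lt_or_gt_of_ne fun h' => h (hk h'))

@[simp] theorem Voter.key17_r {α : Type} [LinearOrder α] (k : V → α) (hk : Function.Injective k)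
    (x y : V) : (Voter.key17 k hk).1 x y ↔ k x < k y := Iff.rfl

open Classical in
theorem card_eq_sum17 {m : ℕ} (τ : Fin m → Voter V) (x y : V) :
    Nat.card {i : Fin m // (τ i).1 x y} = ∑ v, if (τ v).1 x y then 1 else 0 := by
  rw [Nat.card_eq_fintype_card, Fintype.card_subtype, Finset.card_filter]

/-- a directed 3-cycle has, over all voters, at most `2 m` supports in total -/
theorem card_cycle17 {m : ℕ} (τ : Fin m → Voter V) (x y z : V) :
    Nat.card {i : Fin m // (τ i).1 x y} + Nat.card {i : Fin m // (τ i).1 y z} +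
      Nat.card {i : Fin m // (τ i).1 z x} ≤ 2 * m := by
  classical
  rw [card_eq_sum17, card_eq_sum17, card_eq_sum17, ← Finset.sum_add_distrib,
    ← Finset.sum_add_distrib]
  have : ∀ v : Fin m, ((if (τ v).1 x y then 1 else 0) + (if (τ v).1 y z then 1 else 0) +
      if (τ v).1 z x then 1 else 0) ≤ 2 := by
    intro v
    by_cases h1 : (τ v).1 x y
    · by_cases h2 : (τ v).1 y z
      · have h3 : ¬ (τ v).1 z x := (τ v).asymm17 ((τ v).trans17 h1 h2)
        simp [h1, h2, h3]
      · by_cases h3 : (τ v).1 z x <;> simp [h1, h2, h3]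
    · by_cases h2 : (τ v).1 y z <;> by_cases h3 : (τ v).1 z x <;> simp [h1, h2, h3]
  calc _ ≤ ∑ _v : Fin m, 2 := Finset.sum_le_sum fun v _ => this v
    _ = 2 * m := by simp [mul_comm]

/-- with a 3-cycle no threshold above `2/3` is possible -/
theorem le_two_thirds17 {E : V → V → Prop} {x y z : V} (h1 : E x y) (h2 : E y z) (h3 : E z x)
    {β : ℝ} {m : ℕ} (hm : 1 ≤ m) {τ : Fin m → Voter V} (h : InducesAt E β τ) : β ≤ 2 / 3 := by
  have e1 := h _ _ h1
  have e2 := h _ _ h2
  have e3 := h _ _ h3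
  have e4 : ((Nat.card {i : Fin m // (τ i).1 x y} + Nat.card {i : Fin m // (τ i).1 y z} +
      Nat.card {i : Fin m // (τ i).1 z x} : ℕ) : ℝ) ≤ ((2 * m : ℕ) : ℝ) := by
    exact_mod_cast card_cycle17 τ x y z
  push_cast at e4
  have hm' : (0 : ℝ) < m := by exact_mod_cast hm
  have e5 : 3 * β * m ≤ 2 * m := by nlinarith
  have e6 : 3 * β ≤ 2 := le_of_mul_le_mul_right e5 hm'
  linarith

/-- a tournament with a 3-cycle and a list at threshold `2/3` has predictability `2/3` -/
theorem isPred17 {E : V → V → Prop} {x y z : V} (h1 : E x y) (h2 : E y z) (h3 : E z x)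
    (hl : ∃ m : ℕ, 1 ≤ m ∧ ∃ τ : Fin m → Voter V, InducesAt E (2 / 3) τ) :
    IsPred E (2 / 3) := by
  refine ⟨⟨by norm_num, by norm_num, hl⟩, ?_⟩
  rintro β ⟨-, -, m, hm, τ, hτ⟩
  exact le_two_thirds17 h1 h2 h3 hm hτ

/-- inducing at threshold `2/3` implies inducing -/
theorem induces_of_at17 {E : V → V → Prop} {m : ℕ} (hm : 1 ≤ m) {τ : Fin m → Voter V}
    (h : InducesAt E (2 / 3) τ) : Induces E τ := by
  intro x y hxy
  have e := h x y hxy
  have hm' : (1 : ℝ) ≤ m := by exact_mod_cast hm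
  have : (m : ℝ) < 2 * (Nat.card {i : Fin m // (τ i).1 x y} : ℝ) := by linarith
  exact_mod_cast this

/-- a list of at most five voters can be replaced by a list of exactly five -/
theorem inducible_five (E : V → V → Prop) (m : ℕ) (h5 : m ≤ 5) (h : Inducible E m) :
    Inducible E 5 := by
  classical
  obtain ⟨h1, τ, hτ⟩ := h
  refine ⟨by norm_num, ?_⟩
  interval_cases m
  · refine ⟨fun _ => τ 0, fun x y hxy => ?_⟩
    have e := hτ x y hxy
    rw [card_eq_sum17] at e ⊢
    rw [Fin.sum_univ_one] at e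
    by_cases h0 : (τ 0).1 x y
    · simp [h0]
    · simp [h0] at e
  · refine ⟨fun _ => τ 0, fun x y hxy => ?_⟩
    have e := hτ x y hxy
    rw [card_eq_sum17] at e ⊢
    by_cases h0 : (τ 0).1 x y
    · simp [h0]
    · rw [Fin.sum_univ_two] at e
      by_cases h1 : (τ 1).1 x y <;> simp [h0, h1] at e
  · refine ⟨![τ 0, τ 1, τ 2, τ 0, (τ 0).rev17], fun x y hxy => ?_⟩
    have e := hτ x y hxy
    have hne : x = y ∨ x ≠ y := eq_or_ne x y
    rw [card_eq_sum17] at e ⊢
    rcases hne with rfl | hne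
    · simp [(τ _).irr17] at e
    rw [Fin.sum_univ_three] at e
    rw [Fin.sum_univ_five]
    have hr : ((τ 0).rev17.1 x y) ↔ ¬ (τ 0).1 x y := by
      constructor
      · intro h
        exact (τ 0).asymm17 h
      · intro h
        exact ((τ 0).total17 hne).resolve_left h
    by_cases h0 : (τ 0).1 x y <;> by_cases h1 : (τ 1).1 x y <;> by_cases h2 : (τ 2).1 x y <;>
      simp [h0, h1, h2, hr] at e ⊢
  · refine ⟨![τ 0, τ 1, τ 2, τ 3, τ 0], fun x y hxy => ?_⟩
    have e := hτ x y hxy
    rw [card_eq_sum17] at e ⊢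
    rw [Fin.sum_univ_four] at e
    rw [Fin.sum_univ_five]
    by_cases h0 : (τ 0).1 x y <;> by_cases h1 : (τ 1).1 x y <;> by_cases h2 : (τ 2).1 x y <;>
      by_cases h3 : (τ 3).1 x y <;> simp [h0, h1, h2, h3] at e ⊢
  · exact ⟨τ, hτ⟩

/-- a family of voters indexed by a nonempty finite type is a list -/
theorem exists_list17 {ι : Type} [Fintype ι] [Nonempty ι] (σ : ι → Voter V)
    (E : V → V → Prop) (α : ℝ)
    (h : ∀ x y, E x y → α * Nat.card ι ≤ (Nat.card {i : ι // (σ i).1 x y} : ℝ)) :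
    ∃ m : ℕ, 1 ≤ m ∧ ∃ τ : Fin m → Voter V, InducesAt E α τ := by
  classical
  let e : Fin (Fintype.card ι) ≃ ι := (Fintype.equivFin ι).symm
  refine ⟨Fintype.card ι, Fintype.card_pos, fun v => σ (e v), fun x y hxy => ?_⟩
  have h1 := h x y hxy
  rw [Nat.card_eq_fintype_card (α := ι)] at h1
  refine h1.trans (le_of_eq ?_)
  congr 1
  refine Nat.card_congr ?_
  refine (Equiv.subtypeEquiv e ?_).symm
  intro v
  exact Iff.rfl

/-- The McGarvey number: the least `m ≥ 1` such that the tournament is `m`-inducible. -/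
noncomputable def mcgarvey (E : V → V → Prop) : ℕ := sInf {m | Inducible E m}

/-- If some list induces `E` at threshold `2/3` and `E` is not 5-inducible, the McGarvey number
(which exists) is larger than 5. -/
theorem mcgarvey17 {E : V → V → Prop}
    (hl : ∃ m : ℕ, 1 ≤ m ∧ ∃ τ : Fin m → Voter V, InducesAt E (2 / 3) τ)
    (h5 : ¬ Inducible E 5) : Inducible E (mcgarvey E) ∧ 5 < mcgarvey E := by
  obtain ⟨m, hm, τ, hτ⟩ := hl
  have hne : {m | Inducible E m}.Nonempty := ⟨m, hm, τ, induces_of_at17 hm hτ⟩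
  have hmem : Inducible E (mcgarvey E) := Nat.sInf_mem hne
  refine ⟨hmem, ?_⟩
  by_contra hcon
  exact h5 (inducible_five E _ (not_lt.1 hcon) hmem)

end basic

end MCG
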