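import Pool.Agent.MCG.Defs

/-!
Row E (helper44): the linear order of the voter `E` on one level breaks an arc of the 6-cycle.
-/

set_option autoImplicit false

namespace MCG

theorem cnt_eq44 (p : Fin 5 → Prop) [DecidablePred p] : cnt p = (Finset.univ.filter p).card := by
  unfold cnt
  congr

theorem broken (S : Sys Ty) (Q : Fin 5 → Ty → Ty → Prop)
    (q1 : ∀ v f, ¬ Q v f f) (q2 : ∀ v f g h, Q v f g → Q v g h → Q v f h)
    (q3 : ∀ v f g, L (S.A v) f g → Q v f g)
    (q4 : ∀ (i j : ℕ) (a : ZMod 3), i ≠ j → 3 ≤ cnt (fun v => Q v (i, j, a) (j, i, a + 1)))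
    (E D : Fin 5) (hED : E ≠ D) (i j : ℕ) (hij : i ≠ j)
    (hD : ∀ a b : ZMod 3, L (S.A D) (i, j, a) (j, i, b)) :
    (∃ a : ZMod 3, 2 ≤ cnt (fun v => v ≠ E ∧ v ≠ D ∧ ¬ L (S.A v) (j, i, a + 1) (i, j, a))) ∨
    (∃ a : ZMod 3, ∀ v, v ≠ E → v ≠ D → ¬ L (S.A v) (i, j, a + 1) (j, i, a)) := by
  classical
  have hex : (∃ a : ZMod 3, ¬ Q E (i, j, a) (j, i, a + 1)) ∨
      (∃ a : ZMod 3, ¬ Q E (j, i, a) (i, j, a + 1)) := by
    by_contra hc
    push Not at hc
    obtain ⟨h1, h2⟩ := hc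
    have e3 : (2 : ZMod 3) + 1 = 0 := by decide
    have e2 : (1 : ZMod 3) + 1 = 2 := by decide
    have e1 : (0 : ZMod 3) + 1 = 1 := by decide
    have a0 := h1 0
    have a1 := h1 1
    have a2 := h1 2
    have b0 := h2 0
    have b1 := h2 1
    have b2 := h2 2
    rw [e1] at a0 b0
    rw [e2] at a1 b1
    rw [e3] at a2 b2
    exact q1 E _ (q2 _ _ _ _ a0 (q2 _ _ _ _ b1 (q2 _ _ _ _ a2 (q2 _ _ _ _ b0
      (q2 _ _ _ _ a1 b2)))))
  rcases hex with ⟨a, ha⟩ | ⟨a, ha⟩
  · refine Or.inl ⟨a, ?_⟩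
    have h3 := q4 i j a hij
    rw [cnt_eq44] at h3 ⊢
    have hsub : ((Finset.univ.filter fun v => Q v (i, j, a) (j, i, a + 1)).erase D) ⊆
        (Finset.univ.filter fun v => v ≠ E ∧ v ≠ D ∧
          ¬ L (S.A v) (j, i, a + 1) (i, j, a)) := by
      intro v hv
      rw [Finset.mem_erase, Finset.mem_filter] at hv
      rw [Finset.mem_filter]
      refine ⟨Finset.mem_univ v, fun hE => ha (hE ▸ hv.2.2), hv.1, fun hL => ?_⟩
      exact q1 v _ (q2 _ _ _ _ hv.2.2 (q3 _ _ _ hL))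
    have h5 := Finset.card_le_card hsub
    have h6 := Finset.pred_card_le_card_erase
      (s := Finset.univ.filter fun v => Q v (i, j, a) (j, i, a + 1)) (a := D)
    omega
  · refine Or.inr ⟨a, fun v hvE hvD hL => ?_⟩
    have h3 := q4 j i a hij.symm
    have hQD : ¬ Q D (j, i, a) (i, j, a + 1) := fun hq =>
      q1 D _ (q2 _ _ _ _ hq (q3 _ _ _ (hD (a + 1) a)))
    have hQv : ¬ Q v (j, i, a) (i, j, a + 1) := fun hq =>
      q1 v _ (q2 _ _ _ _ hq (q3 _ _ _ hL))
    rw [cnt_eq44] at h3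
    have hsub : (Finset.univ.filter fun u => Q u (j, i, a) (i, j, a + 1)) ⊆
        ((Finset.univ.erase E).erase D).erase v := by
      intro u hu
      rw [Finset.mem_filter] at hu
      rw [Finset.mem_erase, Finset.mem_erase, Finset.mem_erase]
      refine ⟨fun h => hQv (h ▸ hu.2), fun h => hQD (h ▸ hu.2), fun h => ha (h ▸ hu.2),
        Finset.mem_univ u⟩
    have h5 := Finset.card_le_card hsub
    have c1 : (Finset.univ.erase E).card = 4 := by
      rw [Finset.card_erase_of_mem (Finset.mem_univ E)]; simp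
    have c2 : ((Finset.univ.erase E).erase D).card = 3 := by
      rw [Finset.card_erase_of_mem (by simp [hED.symm]), c1]
    have c3 : (((Finset.univ.erase E).erase D).erase v).card = 2 := by
      rw [Finset.card_erase_of_mem (by simp [hvE, hvD]), c2]
    omega

end MCG
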