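import Pool.Agent.MCG.Ram98

/-!
Order patterns of tuples of naturals and pattern-homogeneous infinite sets.
-/

set_option autoImplicit false

namespace Pool.Agent.MCG.R98

open Finset

variable {n : ℕ}

/-- The first positions of the values below `x t`. -/
def below (x : Fin n → ℕ) (t : Fin n) : Finset (Fin n) :=
  univ.filter (fun s => x s < x t ∧ ∀ s' < s, x s' ≠ x s)

theorem mem_below {x : Fin n → ℕ} {t s : Fin n} :
    s ∈ below x t ↔ x s < x t ∧ ∀ s' < s, x s' ≠ x s := by
  simp [below]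

theorem card_below_lt (x : Fin n → ℕ) (t : Fin n) : (below x t).card < n := by
  have h : t ∉ below x t := fun h => lt_irrefl _ (mem_below.1 h).1
  have h2 := Finset.card_lt_univ_of_notMem h
  simpa using h2

/-- The rank of `x t` among the values of `x`. -/
def rk (x : Fin n → ℕ) (t : Fin n) : Fin n := ⟨(below x t).card, card_below_lt x t⟩

theorem rk_congr {x y : Fin n → ℕ} (h : ∀ s t, x s < x t ↔ y s < y t) : rk x = rk y := by
  have hne : ∀ s t, x s ≠ x t ↔ y s ≠ y t := by
    intro s t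
    rw [ne_iff_lt_or_gt, ne_iff_lt_or_gt, h s t, h t s]
  funext t
  apply Fin.ext
  show (below x t).card = (below y t).card
  congr 1
  ext s
  rw [mem_below, mem_below, h]
  simp only [hne]

theorem exists_first (x : Fin n → ℕ) (t : Fin n) : ∃ s, x s = x t ∧ ∀ s' < s, x s' ≠ x s := by
  classical
  have hne : (univ.filter (fun s => x s = x t)).Nonempty := ⟨t, by simp⟩
  refine ⟨(univ.filter (fun s => x s = x t)).min' hne, ?_, ?_⟩
  · have := Finset.min'_mem _ hne
    simpa using (Finset.mem_filter.1 this).2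
  · intro s' hs' he
    have h1 := (Finset.mem_filter.1 (Finset.min'_mem _ hne)).2
    have h2 : s' ∈ univ.filter (fun s => x s = x t) := by
      simp [he, h1]
    exact absurd (Finset.min'_le _ _ h2) (not_le.2 hs')

theorem rk_lt {x : Fin n → ℕ} {t t' : Fin n} (h : x t < x t') : rk x t < rk x t' := by
  obtain ⟨s, hs, hs'⟩ := exists_first x t
  show (below x t).card < (below x t').card
  refine Finset.card_lt_card ⟨fun u hu => ?_, fun hsub => ?_⟩
  · rw [mem_below] at hu ⊢
    exact ⟨hu.1.trans h, hu.2⟩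
  · have h1 : s ∈ below x t' := mem_below.2 ⟨hs ▸ h, hs'⟩
    have h2 := (mem_below.1 (hsub h1)).1
    omega

theorem rk_eq {x : Fin n → ℕ} {t t' : Fin n} (h : x t = x t') : rk x t = rk x t' := by
  apply Fin.ext
  show (below x t).card = (below x t').card
  simp only [below, h]

theorem lt_of_rk {x : Fin n → ℕ} {t t' : Fin n} (h : rk x t < rk x t') : x t < x t' := by
  by_contra hc
  rcases (not_lt.1 hc).lt_or_eq with h1 | h1
  · exact absurd (rk_lt h1) (not_lt.2 h.le)
  · exact absurd (rk_eq h1) (ne_of_gt h)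

theorem eq_of_rk {x : Fin n → ℕ} {t t' : Fin n} (h : rk x t = rk x t') : x t = x t' := by
  by_contra hc
  rcases lt_or_gt_of_ne hc with h1 | h1
  · exact absurd h (ne_of_lt (rk_lt h1))
  · exact absurd h (ne_of_gt (rk_lt h1))

theorem exists_rk {x : Fin n → ℕ} {t j : Fin n} (h : j < rk x t) : ∃ t', rk x t' = j := by
  classical
  have hsub : (below x t).image (fun s => (rk x s).val) ⊆ range (below x t).card := by
    intro m hm
    obtain ⟨s, hs, rfl⟩ := Finset.mem_image.1 hm
    exact Finset.mem_range.2 (rk_lt (mem_below.1 hs).1)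
  have hcard : (range (below x t).card).card ≤
      ((below x t).image (fun s => (rk x s).val)).card := by
    rw [Finset.card_range, Finset.card_image_of_injOn]
    intro s hs s' hs' he
    have h1 : x s = x s' := eq_of_rk (Fin.ext he)
    rcases lt_trichotomy s s' with h2 | h2 | h2
    · exact absurd h1 ((mem_below.1 hs').2 _ h2)
    · exact h2
    · exact absurd h1.symm ((mem_below.1 hs).2 _ h2)
  have heq := Finset.eq_of_subset_of_card_le hsub hcard
  have hj : (j : ℕ) ∈ range (below x t).card := Finset.mem_range.2 h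
  rw [← heq] at hj
  obtain ⟨s, _, hs⟩ := Finset.mem_image.1 hj
  exact ⟨s, Fin.ext hs⟩

/-- Every tuple is an increasing tuple composed with its rank pattern. -/
theorem exists_pattern (x : Fin n → ℕ) : ∃ b : Fin n → ℕ, StrictMono b ∧ ∀ t, b (rk x t) = x t := by
  classical
  have hM : ∀ t, x t ≤ ∑ s, x s := fun t =>
    Finset.single_le_sum (f := x) (fun _ _ => Nat.zero_le _) (Finset.mem_univ t)
  refine ⟨fun j => if h : ∃ t, rk x t = j then x h.choose else (∑ s, x s) + 1 + j, ?_, ?_⟩
  · intro j j' hjj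
    by_cases h : ∃ t, rk x t = j
    · by_cases h' : ∃ t, rk x t = j'
      · simp only [dif_pos h, dif_pos h']
        apply lt_of_rk
        rw [h.choose_spec, h'.choose_spec]
        exact hjj
      · simp only [dif_pos h, dif_neg h']
        have := hM h.choose
        omega
    · have h' : ¬ ∃ t, rk x t = j' := by
        rintro ⟨t', ht'⟩
        exact h (exists_rk (ht' ▸ hjj))
      simp only [dif_neg h, dif_neg h']
      have : (j : ℕ) < j' := hjj
      omega
  · intro t
    have h : ∃ t', rk x t' = rk x t := ⟨t, rfl⟩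
    simp only [dif_pos h]
    exact eq_of_rk h.choose_spec

/-- Pattern homogeneity for tuples of any fixed length. -/
theorem hom_gen {Γ : Type*} [Finite Γ] (n : ℕ) (χ : (Fin n → ℕ) → Γ) :
    ∃ f : ℕ → ℕ, StrictMono f ∧ ∀ x y : Fin n → ℕ, (∀ s t, x s < x t ↔ y s < y t) →
      χ (f ∘ x) = χ (f ∘ y) := by
  obtain ⟨f, hf, γ, hγ⟩ := ramsey_inf (Γ := (Fin n → Fin n) → Γ) n
    (fun b p => χ (fun t => b (p t)))
  refine ⟨f, hf, fun x y h => ?_⟩
  obtain ⟨b, hb, hbx⟩ := exists_pattern x
  obtain ⟨c, hc, hcy⟩ := exists_pattern y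
  have h1 := congrFun (hγ b hb) (rk x)
  have h2 := congrFun (hγ c hc) (rk x)
  have h3 : (fun t => (f ∘ b) (rk x t)) = f ∘ x := funext fun t => by simp [hbx]
  have h4 : (fun t => (f ∘ c) (rk x t)) = f ∘ y := funext fun t => by
    rw [rk_congr h]; simp [hcy]
  simp only [h3] at h1
  simp only [h4] at h2
  rw [h1, h2]

end Pool.Agent.MCG.R98

namespace MCG

/-- Infinite Ramsey theorem for increasing `r`-tuples. -/
theorem ramsey_inf (r : ℕ) (Γ : Type) [Finite Γ] [Nonempty Γ] (χ : (Fin r → ℕ) → Γ) :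
    ∃ (f : ℕ → ℕ) (γ : Γ), StrictMono f ∧ ∀ a : Fin r → ℕ, StrictMono a → χ (f ∘ a) = γ := by
  obtain ⟨f, hf, γ, h⟩ := Pool.Agent.MCG.ramsey_inf r χ
  exact ⟨f, γ, hf, h⟩

/-- Order patterns: a colouring of 4-tuples of naturals becomes pattern-homogeneous. -/
theorem hom_inf (Γ : Type) [Finite Γ] [Nonempty Γ] (χ : ℕ → ℕ → ℕ → ℕ → Γ) :
    ∃ f : ℕ → ℕ, StrictMono f ∧ ∀ x y : Fin 4 → ℕ, (∀ s t, x s < x t ↔ y s < y t) →
      χ (f (x 0)) (f (x 1)) (f (x 2)) (f (x 3)) =
        χ (f (y 0)) (f (y 1)) (f (y 2)) (f (y 3)) := by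
  obtain ⟨f, hf, h⟩ := Pool.Agent.MCG.R98.hom_gen 4 (fun x => χ (x 0) (x 1) (x 2) (x 3))
  exact ⟨f, hf, fun x y hxy => h x y hxy⟩

end MCG
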