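import Pool.Agent.MCG.Defs

/-!
# R3 : the limit system of five voters (helper2)

`P v f g` : for `U`-almost all `B`, for `U`-almost all `B'`, the vertex `(f, B)` is before
`(g, B')`.
-/

set_option autoImplicit false

namespace MCG

open Filter

lemma cnt_congr {p q : Fin 5 → Prop} (h : ∀ v, p v ↔ q v) : cnt p = cnt q := by
  have : p = q := funext fun v => propext (h v)
  rw [this]

lemma cnt_mono {p q : Fin 5 → Prop} (h : ∀ v, p v → q v) : cnt p ≤ cnt q := by
  classical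
  unfold cnt
  apply Finset.card_le_card
  intro v hv
  simp only [Finset.mem_filter, Finset.mem_univ, true_and] at hv ⊢
  exact h v hv

lemma cnt_lim (U : Ultrafilter ℕ) (R : Fin 5 → ℕ → Prop) (k : ℕ)
    (h : ∀ᶠ x in (U : Filter ℕ), k ≤ cnt (fun v => R v x)) :
    k ≤ cnt (fun v => ∀ᶠ x in (U : Filter ℕ), R v x) := by
  have h2 : ∀ᶠ x in (U : Filter ℕ), ∀ v, (R v x ↔ ∀ᶠ y in (U : Filter ℕ), R v y) := by
    rw [Filter.eventually_all]
    intro v
    by_cases hv : ∀ᶠ y in (U : Filter ℕ), R v y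
    · filter_upwards [hv] with x hx
      exact ⟨fun _ => hv, fun _ => hx⟩
    · filter_upwards [Ultrafilter.eventually_not.2 hv] with x hx
      exact ⟨fun h' => absurd h' hx, fun h' => absurd h' hv⟩
  obtain ⟨x, hx1, hx2⟩ := (h.and h2).exists
  rw [← cnt_congr hx2]
  exact hx1

/-- The iterated almost-all relation. -/
def PU (O : Fin 5 → Vx → Vx → Prop) (v : Fin 5) (f g : Ty) : Prop :=
  ∀ᶠ B in (hyperfilter ℕ : Filter ℕ), ∀ᶠ B' in (hyperfilter ℕ : Filter ℕ), O v (f, B) (g, B')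

/-- The same-level relation. -/
def QU (O : Fin 5 → Vx → Vx → Prop) (v : Fin 5) (f g : Ty) : Prop :=
  ∀ᶠ B in (hyperfilter ℕ : Filter ℕ), O v (f, B) (g, B)

lemma not_PU (O : Fin 5 → Vx → Vx → Prop) (v : Fin 5) (f g : Ty) :
    ¬ PU O v f g ↔ ∀ᶠ B in (hyperfilter ℕ : Filter ℕ), ∀ᶠ B' in (hyperfilter ℕ : Filter ℕ),
      ¬ O v (f, B) (g, B') := by
  unfold PU
  rw [← Ultrafilter.eventually_not]
  refine Filter.eventually_congr (Filter.Eventually.of_forall fun B => ?_)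
  rw [← Ultrafilter.eventually_not]

lemma ev_gt (B : ℕ) : ∀ᶠ B' in (hyperfilter ℕ : Filter ℕ), B < B' :=
  Nat.hyperfilter_le_atTop (Filter.eventually_gt_atTop B)

lemma PU_trans {O : Fin 5 → Vx → Vx → Prop}
    (h2 : ∀ v u w x, O v u w → O v w x → O v u x) (v : Fin 5) (f g h : Ty)
    (hfg : PU O v f g) (hgh : PU O v g h) : PU O v f h := by
  unfold PU at *
  filter_upwards [hfg] with B hB
  obtain ⟨B', hB1, hB2⟩ := (hB.and hgh).exists
  filter_upwards [hB2] with B'' h3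
  exact h2 _ _ _ _ hB1 h3

lemma PU_ntrans {O : Fin 5 → Vx → Vx → Prop}
    (h1 : ∀ v u, ¬ O v u u) (h2 : ∀ v u w x, O v u w → O v w x → O v u x)
    (h3 : ∀ v u w, u ≠ w → O v u w ∨ O v w u) (v : Fin 5) (f g h : Ty)
    (hfg : ¬ PU O v f g) (hgh : ¬ PU O v g h) : ¬ PU O v f h := by
  rw [not_PU] at *
  filter_upwards [hfg] with B hB
  obtain ⟨B', ⟨hB1, hB2⟩, hB3⟩ := ((hB.and hgh).and (ev_gt B)).exists
  filter_upwards [hB2, ev_gt B'] with B'' h4 h5 h6
  have ha : O v (g, B') (f, B) := by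
    rcases h3 v (f, B) (g, B') (by intro h; have := congrArg Prod.snd h; simp at this; omega)
      with h | h
    · exact absurd h hB1
    · exact h
  have hb : O v (h, B'') (g, B') := by
    rcases h3 v (g, B') (h, B'') (by intro h; have := congrArg Prod.snd h; simp at this; omega)
      with h | h
    · exact absurd h h4
    · exact h
  exact h1 _ _ (h2 _ _ _ _ h6 (h2 _ _ _ _ hb ha))

lemma arc_of_lt {f g : Ty} (h : f.1 ≠ g.1 ∨ f.2.2 = g.2.2) {B B' : ℕ} (hB : B < B') :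
    arc (f, B) (g, B') := by
  refine Or.inr ⟨?_, Or.inl ?_⟩
  · rintro ⟨ha, hb⟩
    rcases h with h | h
    · exact h ha
    · exact hb h
  · rw [lev, lev, Prod.Lex.toLex_lt_toLex]
    exact Or.inl hB

lemma arc_of_cl {f g : Ty} (h : f.1 = g.1) (h' : g.2.2 = f.2.2 + 1) (B B' : ℕ) :
    arc (f, B) (g, B') := Or.inl ⟨h, h'⟩

lemma arc_level (i j : ℕ) (a : ZMod 3) (hij : i ≠ j) (B : ℕ) :
    arc ((i, j, a), B) ((j, i, a + 1), B) := by
  refine Or.inr ⟨?_, Or.inr ⟨?_, Or.inl rfl⟩⟩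
  · rintro ⟨ha, -⟩
    exact hij ha
  · simp only [lev, max_comm i j, min_comm i j]

theorem limit (O : Fin 5 → Vx → Vx → Prop)
    (h1 : ∀ v u, ¬ O v u u) (h2 : ∀ v u w x, O v u w → O v w x → O v u x)
    (h3 : ∀ v u w, u ≠ w → O v u w ∨ O v w u)
    (h4 : ∀ u w, arc u w → 3 ≤ cnt (fun v => O v u w)) :
    ∃ (S : Sys Ty) (Q : Fin 5 → Ty → Ty → Prop),
      (∀ f, S.cl f = f.1) ∧ (∀ f, S.res f = f.2.2) ∧
      (∀ v f, ¬ Q v f f) ∧ (∀ v f g h, Q v f g → Q v g h → Q v f h) ∧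
      (∀ v f g, L (S.A v) f g → Q v f g) ∧
      (∀ (i j : ℕ) (a : ZMod 3), i ≠ j → 3 ≤ cnt (fun v => Q v (i, j, a) (j, i, a + 1))) := by
  have key : ∀ f g : Ty, (f.1 ≠ g.1 ∨ f.2.2 = g.2.2) ∨ (f.1 = g.1 ∧ g.2.2 = f.2.2 + 1) →
      3 ≤ cnt (fun v => PU O v f g) := by
    intro f g hfg
    refine cnt_lim _ (fun v B => ∀ᶠ B' in (hyperfilter ℕ : Filter ℕ), O v (f, B) (g, B')) 3
      (Filter.Eventually.of_forall fun B => ?_)
    refine cnt_lim _ (fun v B' => O v (f, B) (g, B')) 3 ?_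
    filter_upwards [ev_gt B] with B' hB
    apply h4
    rcases hfg with hfg | hfg
    · exact arc_of_lt hfg hB
    · exact arc_of_cl hfg.1 hfg.2 B B'
  refine ⟨{ A := PU O
            cl := fun f => f.1
            res := fun f => f.2.2
            tr := PU_trans h2
            ntr := PU_ntrans h1 h2 h3
            cross := fun f g hfg => key f g (Or.inl hfg)
            arc1 := fun f g ha hb => key f g (Or.inr ⟨ha, hb⟩)
            arc2 := ?_
            ne := fun i a => ⟨(i, 0, a), rfl, rfl⟩ }, QU O, fun _ => rfl, fun _ => rfl,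
          ?_, ?_, ?_, ?_⟩
  · intro f g ha hb
    rw [cnt_congr (fun v => not_PU O v g f)]
    refine cnt_lim _ (fun v B => ∀ᶠ B' in (hyperfilter ℕ : Filter ℕ), ¬ O v (g, B) (f, B')) 3
      (Filter.Eventually.of_forall fun B => ?_)
    refine cnt_lim _ (fun v B' => ¬ O v (g, B) (f, B')) 3
      (Filter.Eventually.of_forall fun B' => ?_)
    refine (h4 _ _ (arc_of_cl ha hb B' B)).trans (cnt_mono fun v hv hv' => ?_)
    exact h1 _ _ (h2 _ _ _ _ hv hv')
  · intro v f h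
    obtain ⟨B, hB⟩ := h.exists
    exact h1 _ _ hB
  · intro v f g h hfg hgh
    unfold QU at *
    filter_upwards [hfg, hgh] with B ha hb
    exact h2 _ _ _ _ ha hb
  · rintro v f g ⟨ha, hb⟩
    change ¬ PU O v g f at hb
    change PU O v f g at ha
    have hne : f ≠ g := by
      rintro rfl
      exact hb ha
    by_contra hq
    have hq' : ∀ᶠ B in (hyperfilter ℕ : Filter ℕ), ¬ O v (f, B) (g, B) :=
      Ultrafilter.eventually_not.2 hq
    rw [not_PU] at hb
    have hgf : ∀ B, ¬ O v (f, B) (g, B) → O v (g, B) (f, B) := fun B hB => by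
      rcases h3 v (f, B) (g, B) (by intro h; exact hne (congrArg Prod.fst h)) with h | h
      · exact absurd h hB
      · exact h
    obtain ⟨B, ⟨hB1, hB2⟩, hB3⟩ := ((ha.and hb).and hq').exists
    obtain ⟨B', ⟨⟨hC1, hC2⟩, hC3⟩, hC4⟩ := (((hB1.and hB2).and hq').and (ev_gt B)).exists
    have e1 : O v (f, B') (g, B) := by
      rcases h3 v (f, B') (g, B) (by intro h; exact hne (congrArg Prod.fst h)) with h | h
      · exact h
      · exact absurd h hC2
    exact h1 _ _ (h2 _ _ _ _ hC1 (h2 _ _ _ _ (hgf _ hC3) (h2 _ _ _ _ e1 (hgf _ hB3))))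
  · intro i j a hij
    refine cnt_lim _ (fun v B => O v ((i, j, a), B) ((j, i, a + 1), B)) 3
      (Filter.Eventually.of_forall fun B => ?_)
    exact h4 _ _ (arc_level i j a hij B)

end MCG
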