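import Mathlib

/-!
Infinite Ramsey theorem for r-tuples of natural numbers, by the hyperfilter.
-/

namespace Pool.Agent.MCG

open Filter

/-- Choosing a sequence one term at a time, each term depending on the finite set of the earlier
ones. -/
theorem exists_seq_of_finset (Q : Finset ℕ → ℕ → Prop) (h : ∀ s, ∃ n, Q s n) :
    ∃ f : ℕ → ℕ, ∀ n, Q ((Finset.range n).image f) (f n) := by
  classical
  choose g hg using h
  let F : ℕ → Finset ℕ := fun n => Nat.rec ∅ (fun _ s => insert (g s) s) n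
  have F0 : F 0 = ∅ := rfl
  have Fs : ∀ n, F (n + 1) = insert (g (F n)) (F n) := fun n => rfl
  refine ⟨fun n => g (F n), fun n => ?_⟩
  have key : ∀ n, (Finset.range n).image (fun m => g (F m)) = F n := by
    intro n
    induction n with
    | zero => simp [F0]
    | succ n ih => rw [Finset.range_add_one, Finset.image_insert, ih, Fs]
  rw [key]
  exact hg _

/-- A finite colouring of the naturals is constant on a large set. -/
theorem exists_limit {Γ : Type*} [Finite Γ] (g : ℕ → Γ) :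
    ∃ c, ∀ᶠ n in (hyperfilter ℕ : Filter ℕ), g n = c := by
  obtain ⟨c, hc⟩ := Ultrafilter.eq_pure_of_finite ((hyperfilter ℕ).map g)
  refine ⟨c, ?_⟩
  have h1 : ({c} : Set Γ) ∈ ((hyperfilter ℕ).map g) := by
    rw [hc]; exact Ultrafilter.mem_pure.2 rfl
  exact h1

/-- **Infinite Ramsey theorem**: every finite colouring of the increasing r-tuples of natural
numbers is constant on the increasing r-tuples of some infinite set. -/
theorem ramsey_inf {Γ : Type*} [Finite Γ] (r : ℕ) (χ : (Fin r → ℕ) → Γ) :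
    ∃ f : ℕ → ℕ, StrictMono f ∧ ∃ γ, ∀ a : Fin r → ℕ, StrictMono a → χ (f ∘ a) = γ := by
  classical
  induction r with
  | zero =>
    refine ⟨id, strictMono_id, χ Fin.elim0, fun a _ => ?_⟩
    congr 1
    exact funext fun i => i.elim0
  | succ r ih =>
    have hl : ∀ a : Fin r → ℕ, ∃ c, ∀ᶠ n in (hyperfilter ℕ : Filter ℕ),
        χ (Fin.snoc a n : Fin (r + 1) → ℕ) = c := fun a => exists_limit _
    choose χ' hχ' using hl
    obtain ⟨f₁, hf₁⟩ := exists_seq_of_finset
      (fun s n => (∀ m ∈ s, m < n) ∧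
        ∀ a : Fin r → ℕ, (∀ i, a i ∈ s) → χ (Fin.snoc a n : Fin (r + 1) → ℕ) = χ' a) (by
      intro s
      have hgt : ∀ᶠ n in (hyperfilter ℕ : Filter ℕ), ∀ m ∈ s, m < n := by
        have : ∀ᶠ n in (hyperfilter ℕ : Filter ℕ), s.sup id < n := by
          have h1 : (Set.Iic (s.sup id)).Finite := Set.finite_Iic _
          have h2 := h1.compl_mem_hyperfilter
          filter_upwards [h2] with n hn
          simpa using hn
        filter_upwards [this] with n hn m hm
        exact lt_of_le_of_lt (Finset.le_sup (f := id) hm) hn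
      have hall : ∀ᶠ n in (hyperfilter ℕ : Filter ℕ), ∀ a : Fin r → s,
          χ (Fin.snoc (fun i => (a i : ℕ)) n : Fin (r + 1) → ℕ) = χ' (fun i => (a i : ℕ)) := by
        rw [Filter.eventually_all]
        intro a
        exact hχ' _
      obtain ⟨n, hn1, hn2⟩ := (hgt.and hall).exists
      exact ⟨n, hn1, fun a ha => hn2 (fun i => ⟨a i, ha i⟩)⟩)
    have mono1 : StrictMono f₁ := by
      intro m n hmn
      exact (hf₁ n).1 _ (Finset.mem_image_of_mem _ (Finset.mem_range.2 hmn))
    have key : ∀ b : Fin (r + 1) → ℕ, StrictMono b →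
        χ (f₁ ∘ b) = χ' (f₁ ∘ Fin.init b) := by
      intro b hb
      have h1 := (hf₁ (b (Fin.last r))).2 (f₁ ∘ Fin.init b) (fun i => by
        refine Finset.mem_image_of_mem _ (Finset.mem_range.2 ?_)
        exact hb (Fin.castSucc_lt_last i))
      rw [← h1]
      congr 1
      funext i
      refine Fin.lastCases ?_ (fun j => ?_) i
      · simp
      · simp [Fin.init]
    obtain ⟨f₂, mono2, γ, hγ⟩ := ih (fun a => χ' (f₁ ∘ a))
    refine ⟨f₁ ∘ f₂, mono1.comp mono2, γ, fun b hb => ?_⟩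
    have h2 := key (f₂ ∘ b) (mono2.comp hb)
    have h3 : Fin.init (f₂ ∘ b) = f₂ ∘ Fin.init b := rfl
    rw [Function.comp_assoc, h2, h3]
    refine hγ (Fin.init b) ?_
    intro i j hij
    exact hb (by simpa using hij)

/-- Ramsey for pairs. -/
theorem ramsey_inf2 {Γ : Type*} [Finite Γ] (χ : ℕ → ℕ → Γ) :
    ∃ f : ℕ → ℕ, StrictMono f ∧ ∃ γ, ∀ i j, i < j → χ (f i) (f j) = γ := by
  obtain ⟨f, hf, γ, hγ⟩ := ramsey_inf 2 (fun a => χ (a 0) (a 1))
  refine ⟨f, hf, γ, fun i j hij => ?_⟩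
  have := hγ ![i, j] (by
    rw [Fin.strictMono_iff_lt_succ]
    intro k
    fin_cases k
    simpa using hij)
  simpa using this

/-- Ramsey for triples. -/
theorem ramsey_inf3 {Γ : Type*} [Finite Γ] (χ : ℕ → ℕ → ℕ → Γ) :
    ∃ f : ℕ → ℕ, StrictMono f ∧ ∃ γ, ∀ i j k, i < j → j < k → χ (f i) (f j) (f k) = γ := by
  obtain ⟨f, hf, γ, hγ⟩ := ramsey_inf 3 (fun a => χ (a 0) (a 1) (a 2))
  refine ⟨f, hf, γ, fun i j k hij hjk => ?_⟩
  have := hγ ![i, j, k] (by
    rw [Fin.strictMono_iff_lt_succ]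
    intro l
    fin_cases l
    · simpa using hij
    · simpa using hjk)
  simpa using this

/-- Ramsey for quadruples. -/
theorem ramsey_inf4 {Γ : Type*} [Finite Γ] (χ : ℕ → ℕ → ℕ → ℕ → Γ) :
    ∃ f : ℕ → ℕ, StrictMono f ∧ ∃ γ, ∀ i j k l, i < j → j < k → k < l →
      χ (f i) (f j) (f k) (f l) = γ := by
  obtain ⟨f, hf, γ, hγ⟩ := ramsey_inf 4 (fun a => χ (a 0) (a 1) (a 2) (a 3))
  refine ⟨f, hf, γ, fun i j k l hij hjk hkl => ?_⟩
  have := hγ ![i, j, k, l] (by
    rw [Fin.strictMono_iff_lt_succ]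
    intro m
    fin_cases m
    · simpa using hij
    · simpa using hjk
    · simpa using hkl)
  simpa using this

/-- Simultaneous homogeneity: one infinite set good for all lengths up to R. -/
theorem ramsey_inf_le {Γ : Type*} [Finite Γ] (R : ℕ) (χ : ∀ r : ℕ, (Fin r → ℕ) → Γ) :
    ∃ f : ℕ → ℕ, StrictMono f ∧ ∃ γ : ℕ → Γ, ∀ r ≤ R, ∀ a : Fin r → ℕ, StrictMono a →
      χ r (f ∘ a) = γ r := by
  induction R with
  | zero =>
    refine ⟨id, strictMono_id, fun _ => χ 0 Fin.elim0, fun r hr a _ => ?_⟩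
    obtain rfl : r = 0 := by omega
    congr 1
    exact funext fun i => i.elim0
  | succ R ih =>
    obtain ⟨f, hf, γ, hγ⟩ := ih
    obtain ⟨g, hg, c, hc⟩ := ramsey_inf (R + 1) (fun a => χ (R + 1) (f ∘ a))
    refine ⟨f ∘ g, hf.comp hg, Function.update γ (R + 1) c, fun r hr a ha => ?_⟩
    rcases Nat.lt_or_ge r (R + 1) with h | h
    · rw [Function.update_of_ne (by omega), Function.comp_assoc]
      exact hγ r (by omega) (g ∘ a) (hg.comp ha)
    · obtain rfl : r = R + 1 := by omega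
      rw [Function.update_self, Function.comp_assoc]
      exact hc a ha

end Pool.Agent.MCG
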