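import Pool.Agent.MCG.Defs
import Pool.Agent.MCG.R3h2
import Pool.Agent.MCG.Ram98
import Pool.Agent.MCG.Hom98
import Pool.Agent.MCG.E44

/-!
# R8 : from the output of (A)-(D) and the broken arcs to the homogeneous structure (helper2)
-/

set_option autoImplicit false

namespace MCG

/-- An enumeration of the three tight voters. -/
lemma exists_enum (E D : Fin 5) (h : E ≠ D) : ∃ e : Fin 3 → Fin 5, Function.Injective e ∧
    (∀ s, e s ≠ E ∧ e s ≠ D) ∧ ∀ v, v ≠ E → v ≠ D → ∃ s, e s = v := by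
  have hc : (Finset.univ.filter (fun v : Fin 5 => v ≠ E ∧ v ≠ D)).card = 3 := by
    revert h; revert D; revert E; decide
  set F := (Finset.univ.filter (fun v : Fin 5 => v ≠ E ∧ v ≠ D)) with hF
  refine ⟨fun s => F.orderEmbOfFin hc s, (F.orderEmbOfFin hc).injective, fun s => ?_,
    fun v h1 h2 => ?_⟩
  · exact (Finset.mem_filter.1 (F.orderEmbOfFin_mem hc s)).2
  · have hv : v ∈ F := by
      rw [hF, Finset.mem_filter]
      exact ⟨Finset.mem_univ _, h1, h2⟩
    have := F.range_orderEmbOfFin hc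
    have hv' : v ∈ Set.range (F.orderEmbOfFin hc) := by rw [this]; exact hv
    exact hv'

lemma cnt_enum {E D : Fin 5} {e : Fin 3 → Fin 5} (he : Function.Injective e)
    (h1 : ∀ s, e s ≠ E ∧ e s ≠ D) (h2 : ∀ v, v ≠ E → v ≠ D → ∃ s, e s = v) (p : Fin 5 → Prop)
    [DecidablePred fun s => p (e s)] :
    cnt (fun v => v ≠ E ∧ v ≠ D ∧ p v) =
      (if p (e 0) then 1 else 0) + (if p (e 1) then 1 else 0) + (if p (e 2) then 1 else 0) := by
  classical
  have hF : (Finset.univ.filter (fun v => v ≠ E ∧ v ≠ D ∧ p v)) =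
      (Finset.univ.filter (fun s => p (e s))).image e := by
    ext v
    simp only [Finset.mem_filter, Finset.mem_univ, true_and, Finset.mem_image]
    constructor
    · rintro ⟨ha, hb, hc⟩
      obtain ⟨s, rfl⟩ := h2 v ha hb
      exact ⟨s, hc, rfl⟩
    · rintro ⟨s, hs, rfl⟩
      exact ⟨(h1 s).1, (h1 s).2, hs⟩
  have : cnt (fun v => v ≠ E ∧ v ≠ D ∧ p v) =
      (Finset.univ.filter (fun v => v ≠ E ∧ v ≠ D ∧ p v)).card := by
    unfold cnt
    congr
  rw [this, hF, Finset.card_image_of_injective _ he, Finset.card_filter, Fin.sum_univ_three]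

lemma two_of_cnt {E D : Fin 5} {e : Fin 3 → Fin 5} (he : Function.Injective e)
    (h1 : ∀ s, e s ≠ E ∧ e s ≠ D) (h2 : ∀ v, v ≠ E → v ≠ D → ∃ s, e s = v) (p : Fin 5 → Prop)
    (h : 2 ≤ cnt (fun v => v ≠ E ∧ v ≠ D ∧ p v)) : two (fun s => p (e s)) := by
  classical
  rw [cnt_enum he h1 h2] at h
  unfold two
  by_cases p0 : p (e 0) <;> by_cases p1 : p (e 1) <;> by_cases p2 : p (e 2) <;>
    simp [p0, p1, p2] at h ⊢

lemma one_of_cnt {E D : Fin 5} {e : Fin 3 → Fin 5} (he : Function.Injective e)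
    (h1 : ∀ s, e s ≠ E ∧ e s ≠ D) (h2 : ∀ v, v ≠ E → v ≠ D → ∃ s, e s = v) (p : Fin 5 → Prop)
    (h : 1 ≤ cnt (fun v => v ≠ E ∧ v ≠ D ∧ p v)) : one (fun s => p (e s)) := by
  classical
  rw [cnt_enum he h1 h2] at h
  unfold one
  by_cases p0 : p (e 0) <;> by_cases p1 : p (e 1) <;> by_cases p2 : p (e 2) <;>
    simp [p0, p1, p2] at h ⊢

/-- Case I / case II for a pair of classes `m`, `n`, residue `b`. -/
def CaseP (S : Sys Ty) (e : Fin 3 → Fin 5) (γ : Bool × ZMod 3) (m n : ℕ) : Prop :=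
  (γ.1 = true ∧ two (fun s => ¬ L (S.A (e s)) (n, m, γ.2 + 1) (m, n, γ.2))) ∨
  (γ.1 = false ∧ ∀ s, ¬ L (S.A (e s)) (m, n, γ.2) (n, m, γ.2 + 2))

theorem to_HS (S : Sys Ty) (hcl : ∀ f, S.cl f = f.1) (hres : ∀ f, S.res f = f.2.2)
    (Q : Fin 5 → Ty → Ty → Prop)
    (q1 : ∀ v f, ¬ Q v f f) (q2 : ∀ v f g h, Q v f g → Q v g h → Q v f h)
    (q3 : ∀ v f g, L (S.A v) f g → Q v f g)
    (q4 : ∀ (i j : ℕ) (a : ZMod 3), i ≠ j → 3 ≤ cnt (fun v => Q v (i, j, a) (j, i, a + 1)))
    (c : ℕ → ℕ) (E D : Fin 5) (up : Prop) (H : Out S c E D up) :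
    ∃ A : Fin 3 → Fin 6 × Fin 6 × ZMod 3 → Fin 6 × Fin 6 × ZMod 3 → Prop, HS 6 A ∧
      ((∀ i j : Fin 6, i < j → two (fun v => ¬ L (A v) (j, i, 1) (i, j, 0))) ∨
       (∀ i j : Fin 6, i < j → ∀ v, ¬ L (A v) (i, j, 0) (j, i, 2))) := by
  classical
  obtain ⟨e, he, h1, h2⟩ := exists_enum E D H.ED
  have htwo := fun p => two_of_cnt he h1 h2 p
  have hone := fun p => one_of_cnt he h1 h2 p
  -- the order of `D` on the indices
  set Low : ℕ → ℕ → Prop := fun m n => (up ∧ m < n) ∨ (¬ up ∧ n < m) with hLow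
  have hLD : ∀ m n f g, Low m n → S.cl f = c m → S.cl g = c n → L (S.A D) f g := by
    intro m n f g hmn hf hg
    rcases hmn with ⟨hu, hmn⟩ | ⟨hu, hmn⟩
    · exact ⟨(H.hDu m n f g hmn hf hg).2 hu, fun h => (H.hDd m n f g hmn hf hg).1 h hu⟩
    · exact ⟨(H.hDd n m g f hmn hg hf).2 hu, fun h => hu ((H.hDu n m g f hmn hg hf).1 h)⟩
  have hL1 : ∀ m n f g, Low m n → S.cl f = c m → S.cl g = c n →
      one (fun s => S.A (e s) f g) := by
    intro m n f g hmn hf hg
    refine hone (fun v => S.A v f g) ?_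
    rcases hmn with ⟨hu, hmn⟩ | ⟨hu, hmn⟩
    · exact H.c3u1 hu m n f g hmn hf hg
    · exact H.c3d1 hu n m g f hmn hg hf
  have hL2 : ∀ m n f g, Low m n → S.cl f = c m → S.cl g = c n →
      two (fun s => S.A (e s) g f) := by
    intro m n f g hmn hf hg
    refine htwo (fun v => S.A v g f) ?_
    rcases hmn with ⟨hu, hmn⟩ | ⟨hu, hmn⟩
    · exact H.c3u2 hu m n f g hmn hf hg
    · exact H.c3d2 hu n m g f hmn hg hf
  -- the case and the residue of a pair
  have hcase : ∀ m n, Low m n → ∃ γ : Bool × ZMod 3, CaseP S e γ (c m) (c n) := by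
    intro m n hmn
    have hne : c m ≠ c n := by
      intro h
      have := H.mono.injective h
      subst this
      rcases hmn with ⟨_, hmn⟩ | ⟨_, hmn⟩ <;> exact lt_irrefl _ hmn
    rcases broken S Q q1 q2 q3 q4 E D H.ED (c m) (c n) hne
      (fun a b => hLD m n _ _ hmn (hcl _) (hcl _)) with ⟨a, ha⟩ | ⟨a, ha⟩
    · refine ⟨(true, a), Or.inl ⟨rfl, ?_⟩⟩
      exact htwo (fun v => ¬ L (S.A v) (c n, c m, a + 1) (c m, c n, a)) ha
    · refine ⟨(false, a + 1), Or.inr ⟨rfl, fun s => ?_⟩⟩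
      have h3 : a + 1 + 2 = a := by
        have : (1 + 2 : ZMod 3) = 0 := by decide
        rw [add_assoc, this, add_zero]
      simp only [h3]
      exact ha (e s) (h1 s).1 (h1 s).2
  choose! col hcol using hcase
  obtain ⟨f1, hf1, γ, hγ⟩ := Pool.Agent.MCG.ramsey_inf2
    (fun m n => if up then col m n else col n m)
  have hγ' : ∀ m n, Low m n → CaseP S e γ (c (f1 m)) (c (f1 n)) := by
    intro m n hmn
    rcases hmn with ⟨hu, hmn⟩ | ⟨hu, hmn⟩
    · have := hγ m n hmn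
      simp only [hu, if_true] at this
      rw [← this]
      exact hcol _ _ (Or.inl ⟨hu, hf1 hmn⟩)
    · have := hγ n m hmn
      simp only [hu, if_false] at this
      rw [← this]
      exact hcol _ _ (Or.inr ⟨hu, hf1 hmn⟩)
  obtain ⟨f2, hf2, hhom⟩ := hom_inf (Fin 3 → ZMod 3 → ZMod 3 → Prop)
    (fun i j k l s a b => S.A (e s) (c (f1 i), c (f1 j), a) (c (f1 k), c (f1 l), b))
  -- the six classes
  set d : ℕ → ℕ := fun i => c (f1 (f2 i)) with hd
  set idx : Fin 6 → ℕ := fun i => if up then i.val else 5 - i.val with hidx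
  have hidxlt : ∀ i j : Fin 6, i < j → Low (idx i) (idx j) := by
    intro i j hij
    by_cases hu : up
    · left
      simp only [hidx, hu, if_true]
      exact ⟨trivial, hij⟩
    · right
      simp only [hidx, hu, if_false]
      refine ⟨not_false, ?_⟩
      have := i.isLt
      have := j.isLt
      have : i.val < j.val := hij
      omega
  have hLowf : ∀ m n, Low m n → Low (f2 m) (f2 n) := by
    intro m n hmn
    rcases hmn with ⟨hu, hmn⟩ | ⟨hu, hmn⟩
    · exact Or.inl ⟨hu, hf2 hmn⟩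
    · exact Or.inr ⟨hu, hf2 hmn⟩
  have hLowf1 : ∀ m n, Low m n → Low (f1 m) (f1 n) := by
    intro m n hmn
    rcases hmn with ⟨hu, hmn⟩ | ⟨hu, hmn⟩
    · exact Or.inl ⟨hu, hf1 hmn⟩
    · exact Or.inr ⟨hu, hf1 hmn⟩
  set τ : Fin 6 × Fin 6 × ZMod 3 → Ty := fun f => (d (idx f.1), d (idx f.2.1), γ.2 + f.2.2) with hτ
  have hclτ : ∀ f, S.cl (τ f) = c (f1 (f2 (idx f.1))) := fun f => hcl _
  have hresτ : ∀ f, S.res (τ f) = γ.2 + f.2.2 := fun f => hres _
  refine ⟨fun s f g => S.A (e s) (τ f) (τ g), ?_, ?_⟩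
  · refine ⟨fun s f g h => S.tr _ _ _ _, fun s f g h => S.ntr _ _ _ _, ?_, ?_, ?_, ?_, ?_, ?_, ?_⟩
    · intro x y hxy s a b
      have := hhom (fun t => idx (x t)) (fun t => idx (y t)) (by
        intro t u
        by_cases hu : up
        · simp only [hidx, hu, if_true]
          exact hxy t u
        · simp only [hidx, hu, if_false]
          have e1 := hxy u t
          have := (x t).isLt
          have := (x u).isLt
          have := (y t).isLt
          have := (y u).isLt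
          rw [Fin.lt_def, Fin.lt_def] at e1
          omega)
      have h3 := congrFun (congrFun (congrFun this s) (γ.2 + a)) (γ.2 + b)
      exact iff_of_eq h3
    · intro s f g hfg hr
      refine H.sep (f1 (f2 (idx f.1))) (e s) _ _ (h1 s).1 (h1 s).2 (hclτ f) ?_ ?_
      · rw [hclτ g, hfg]
      · rw [hresτ, hresτ]
        intro h
        exact hr (add_left_cancel h)
    · intro f g hfg hr
      refine htwo (fun v => S.A v (τ f) (τ g)) (H.same (f1 (f2 (idx f.1))) _ _ (hclτ f) ?_ ?_)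
      · rw [hclτ g, hfg]
      · rw [hresτ, hresτ, hr]
    · intro f g hfg hr
      refine htwo (fun v => S.A v (τ f) (τ g))
        (H.arcf (f1 (f2 (idx f.1))) _ _ (hclτ f) ?_ ?_).ge
      · rw [hclτ g, hfg]
      · rw [hresτ, hresτ, hr, add_assoc]
    · intro f g hfg hr
      refine hone (fun v => S.A v (τ g) (τ f))
        (H.arcb (f1 (f2 (idx f.1))) _ _ (hclτ f) ?_ ?_).ge
      · rw [hclτ g, hfg]
      · rw [hresτ, hresτ, hr, add_assoc]
    · intro f g hfg
      exact hL1 _ _ _ _ (hLowf1 _ _ (hLowf _ _ (hidxlt _ _ hfg))) (hclτ f) (hclτ g)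
    · intro f g hfg
      exact hL2 _ _ _ _ (hLowf1 _ _ (hLowf _ _ (hidxlt _ _ hfg))) (hclτ f) (hclτ g)
  · have hP : ∀ i j : Fin 6, i < j → CaseP S e γ (d (idx i)) (d (idx j)) := fun i j hij =>
      hγ' _ _ (hLowf _ _ (hidxlt _ _ hij))
    rcases hb : γ.1 with _ | _
    · right
      intro i j hij s
      rcases hP i j hij with ⟨h3, _⟩ | ⟨_, h3⟩
      · rw [hb] at h3; exact absurd h3 (by decide)
      · have := h3 s
        simpa [hτ, L] using this
    · left
      intro i j hij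
      rcases hP i j hij with ⟨_, h3⟩ | ⟨h3, _⟩
      · simpa [hτ, L] using h3
      · rw [hb] at h3; exact absurd h3 (by decide)

end MCG
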