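import Pool.Agent.MCG.Def17

/-!
# Row R1b (helper17): the relation `arc` is a tournament
-/

set_option autoImplicit false
set_option linter.unusedVariables false

namespace MCG

theorem z3a17 : ∀ a b : ZMod 3, a ≠ b → b = a + 1 ∨ a = b + 1 := by decide
theorem z3b17 : ∀ a b : ZMod 3, b = a + 1 → a ≠ b + 1 ∧ a ≠ b := by decide

theorem lev_eq17 {u w : Vx} (h : lev u = lev w) :
    u.2 = w.2 ∧ max u.1.1 u.1.2.1 = max w.1.1 w.1.2.1 ∧ min u.1.1 u.1.2.1 = min w.1.1 w.1.2.1 := by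
  unfold lev at h
  have h1 := congrArg ofLex h
  simp only [ofLex_toLex, Prod.mk.injEq] at h1
  obtain ⟨h2, h3⟩ := h1
  have h4 := congrArg ofLex h3
  simp only [ofLex_toLex, Prod.mk.injEq] at h4
  exact ⟨h2, h4.1, h4.2⟩

theorem lev_inj17 {u w : Vx} (h : lev u = lev w) (hc : u.1.1 = w.1.1)
    (hr : u.1.2.2 = w.1.2.2) : u = w := by
  obtain ⟨h1, h2, h3⟩ := lev_eq17 h
  obtain ⟨⟨i, j, a⟩, B⟩ := u
  obtain ⟨⟨i', j', a'⟩, B'⟩ := w
  simp only at h1 h2 h3 hc hr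
  subst hc hr h1
  have : j = j' := by omega
  subst this
  rfl

theorem arc_tourn17 : IsTourn arc where
  irr u h := by
    rcases h with ⟨-, h⟩ | ⟨-, h | ⟨-, h | ⟨-, h⟩⟩⟩
    · exact (z3b17 _ _ h).2 rfl
    · exact lt_irrefl _ h
    · exact (z3b17 _ _ h).2 rfl
    · exact lt_irrefl _ h
  tot u w huw := by
    by_cases hc : u.1.1 = w.1.1
    · by_cases hr : u.1.2.2 = w.1.2.2
      · rcases lt_trichotomy (lev u) (lev w) with h | h | h
        · exact Or.inl (Or.inr ⟨fun h' => h'.2 hr, Or.inl h⟩)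
        · exact absurd (lev_inj17 h hc hr) huw
        · exact Or.inr (Or.inr ⟨fun h' => h'.2 hr.symm, Or.inl h⟩)
      · rcases z3a17 _ _ hr with h | h
        · exact Or.inl (Or.inl ⟨hc, h⟩)
        · exact Or.inr (Or.inl ⟨hc.symm, h⟩)
    · have hc' : ¬ w.1.1 = u.1.1 := fun h => hc h.symm
      rcases lt_trichotomy (lev u) (lev w) with h | h | h
      · exact Or.inl (Or.inr ⟨fun h' => hc h'.1, Or.inl h⟩)
      · by_cases hr : u.1.2.2 = w.1.2.2
        · rcases lt_or_gt_of_ne hc with h2 | h2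
          · exact Or.inl (Or.inr ⟨fun h' => hc h'.1, Or.inr ⟨h, Or.inr ⟨hr, h2⟩⟩⟩)
          · exact Or.inr (Or.inr ⟨fun h' => hc' h'.1, Or.inr ⟨h.symm, Or.inr ⟨hr.symm, h2⟩⟩⟩)
        · rcases z3a17 _ _ hr with h2 | h2
          · exact Or.inl (Or.inr ⟨fun h' => hc h'.1, Or.inr ⟨h, Or.inl h2⟩⟩)
          · exact Or.inr (Or.inr ⟨fun h' => hc' h'.1, Or.inr ⟨h.symm, Or.inl h2⟩⟩)
      · exact Or.inr (Or.inr ⟨fun h' => hc' h'.1, Or.inl h⟩)
  asymm u w h h' := by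
    rcases h with ⟨hc, hr⟩ | ⟨hn, h⟩
    · rcases h' with ⟨-, hr'⟩ | ⟨hn', -⟩
      · exact (z3b17 _ _ hr).1 hr'
      · exact hn' ⟨hc.symm, (z3b17 _ _ hr).2.symm⟩
    · rcases h' with ⟨hc', hr'⟩ | ⟨hn', h'⟩
      · exact hn ⟨hc'.symm, (z3b17 _ _ hr').2.symm⟩
      · rcases h with h | ⟨h, h2⟩
        · rcases h' with h' | ⟨h', -⟩
          · exact lt_asymm h h'
          · exact absurd h'.symm h.ne
        · rcases h' with h' | ⟨-, h2'⟩
          · exact absurd h.symm h'.ne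
          · rcases h2 with h2 | ⟨h2, h3⟩
            · rcases h2' with h2' | ⟨h2', -⟩
              · exact (z3b17 _ _ h2).1 h2'
              · exact (z3b17 _ _ h2).2 h2'.symm
            · rcases h2' with h2' | ⟨-, h3'⟩
              · exact (z3b17 _ _ h2').2 h2.symm
              · exact lt_asymm h3 h3'

theorem emb_inj17 (N : ℕ) : Function.Injective (emb N) := by
  rintro ⟨⟨i, j, a⟩, B⟩ ⟨⟨i', j', a'⟩, B'⟩ h
  simp only [emb, Prod.mk.injEq] at h
  obtain ⟨⟨h1, h2, h3⟩, h4⟩ := h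
  have e1 : i = i' := Fin.ext h1
  have e2 : j = j' := Fin.ext h2
  have e4 : B = B' := Fin.ext h4
  subst e1 e2 h3 e4
  rfl

theorem arcN_tourn (N : ℕ) : IsTourn (arcN N) where
  irr u := arc_tourn17.irr _
  tot u w h := arc_tourn17.tot _ _ fun h' => h (emb_inj17 N h')
  asymm u w h := arc_tourn17.asymm _ _ h

end MCG
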