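import Pool.Agent.MCG.Defs
import Pool.Agent.MCG.Def17
import Pool.Agent.MCG.Tourn17
import Pool.Agent.MCG.ToHS2
import Pool.Agent.MCG.CaseTwo91
import Pool.Agent.MCG.CaseI61

/-!
Assembly of the rows, with `compact`, `exists_out` and `arcN_pred` as hypotheses.
-/

set_option autoImplicit false

namespace MCG

theorem asm19
    (compact : (∀ N : ℕ, Inducible (arcN N) 5) →
      ∃ O : Fin 5 → Vx → Vx → Prop,
        (∀ v u, ¬ O v u u) ∧ (∀ v u w x, O v u w → O v w x → O v u x) ∧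
        (∀ v u w, u ≠ w → O v u w ∨ O v w u) ∧
        (∀ u w, arc u w → 3 ≤ cnt (fun v => O v u w)))
    (exists_out : ∀ S : Sys Ty, ∃ (c : ℕ → ℕ) (E D : Fin 5) (up : Prop), Out S c E D up)
    (arcN_pred : ∀ (N : ℕ), 1 ≤ N → IsPred (arcN N) (2 / 3)) :
    ∃ (V : Type) (_ : Fintype V) (E : V → V → Prop),
      IsTourn E ∧ IsPred E (2 / 3) ∧ 5 < mcgarvey E := by
  have hN : ∃ N : ℕ, ¬ Inducible (arcN N) 5 := by
    by_contra hc
    push Not at hc
    obtain ⟨O, h1, h2, h3, h4⟩ := compact hc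
    obtain ⟨S, Q, hcl, hres, q1, q2, q3, q4⟩ := limit O h1 h2 h3 h4
    obtain ⟨c, E, D, up, H⟩ := exists_out S
    obtain ⟨A, HA, hA | hA⟩ := to_HS S hcl hres Q q1 q2 q3 q4 c E D up H
    · exact caseI A HA hA
    · exact caseII A HA hA
  obtain ⟨N, hN⟩ := hN
  have hN1 : 1 ≤ N := by
    by_contra h0
    have h00 : N = 0 := by omega
    subst h00
    apply hN
    have he : IsEmpty (FV 0) := ⟨fun u => Fin.elim0 u.2⟩
    refine ⟨by norm_num, fun _ => ⟨fun _ _ => False, { }⟩, fun u => (he.false u).elim⟩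
  exact ⟨FV N, inferInstance, arcN N, arcN_tourn N, arcN_pred N hN1,
    (mcgarvey17 (arcN_pred N hN1).1.2.2 hN).2⟩

end MCG
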