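import Pool.Agent.MCG.Tourn17

/-!
# Row R2, backup (helper17): compactness by the hyperfilter
-/

set_option autoImplicit false
set_option linter.unusedVariables false

namespace MCG

open Filter

/-- a voter of `T(N)` seen on the infinite vertex set -/
def up17 {N : ℕ} (s : Voter (FV N)) (u w : Vx) : Prop :=
  ∃ u' w' : FV N, emb N u' = u ∧ emb N w' = w ∧ s.1 u' w'

theorem up17_iff {N : ℕ} (s : Voter (FV N)) (u' w' : FV N) :
    up17 s (emb N u') (emb N w') ↔ s.1 u' w' := by
  constructor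
  · rintro ⟨a, b, h1, h2, h3⟩
    have e1 := emb_inj17 N h1
    have e2 := emb_inj17 N h2
    subst e1 e2
    exact h3
  · intro h
    exact ⟨u', w', rfl, rfl, h⟩

/-- a bound for a vertex -/
def bd17 (u : Vx) : ℕ := max (max u.1.1 u.1.2.1) u.2 + 1

theorem exists_emb17 {N : ℕ} {u : Vx} (h : bd17 u ≤ N) : ∃ u' : FV N, emb N u' = u := by
  unfold bd17 at h
  have h1 : u.1.1 < N := by omega
  have h2 : u.1.2.1 < N := by omega
  have h3 : u.2 < N := by omega
  exact ⟨((⟨u.1.1, h1⟩, ⟨u.1.2.1, h2⟩, u.1.2.2), ⟨u.2, h3⟩), rfl⟩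

theorem ev_ge17 (n : ℕ) : ∀ᶠ N in (hyperfilter ℕ : Filter ℕ), n ≤ N := by
  have h : ∀ᶠ N in atTop, n ≤ N := eventually_ge_atTop n
  have h2 : (hyperfilter ℕ : Filter ℕ) ≤ atTop := by
    rw [← Nat.cofinite_eq_atTop]
    exact hyperfilter_le_cofinite
  exact h2 h

theorem compact (h : ∀ N : ℕ, Inducible (arcN N) 5) :
    ∃ O : Fin 5 → Vx → Vx → Prop,
      (∀ v u, ¬ O v u u) ∧ (∀ v u w x, O v u w → O v w x → O v u x) ∧
      (∀ v u w, u ≠ w → O v u w ∨ O v w u) ∧
      (∀ u w, arc u w → 3 ≤ cnt (fun v => O v u w)) := by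
  classical
  choose h5 τ hτ using h
  refine ⟨fun v u w => ∀ᶠ N in (hyperfilter ℕ : Filter ℕ), up17 (τ N v) u w, ?_, ?_, ?_, ?_⟩
  · intro v u hu
    obtain ⟨N, hN⟩ := hu.exists
    obtain ⟨a, b, h1, h2, h3⟩ := hN
    have e := emb_inj17 N (h1.trans h2.symm)
    subst e
    exact (τ N v).irr17 _ h3
  · intro v u w x h1 h2
    filter_upwards [h1, h2] with N h1 h2
    obtain ⟨a, b, ha, hb, hab⟩ := h1
    obtain ⟨b', c, hb', hc, hbc⟩ := h2
    have e := emb_inj17 N (hb.trans hb'.symm)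
    subst e
    exact ⟨a, c, ha, hc, (τ N v).trans17 hab hbc⟩
  · intro v u w huw
    rw [← Ultrafilter.eventually_or]
    filter_upwards [ev_ge17 (bd17 u), ev_ge17 (bd17 w)] with N h1 h2
    obtain ⟨u', rfl⟩ := exists_emb17 h1
    obtain ⟨w', rfl⟩ := exists_emb17 h2
    rw [up17_iff, up17_iff]
    exact (τ N v).total17 fun h => huw (by rw [h])
  · intro u w huw
    by_contra hcon
    -- the set of voters in favour in the limit
    set S : Finset (Fin 5) := Finset.univ.filter fun v =>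
      ∀ᶠ N in (hyperfilter ℕ : Filter ℕ), up17 (τ N v) u w with hS
    have hcard : S.card < 3 := by
      rw [not_le] at hcon
      unfold cnt at hcon
      convert hcon using 2
    have hout : ∀ᶠ N in (hyperfilter ℕ : Filter ℕ), ∀ v ∈ (Finset.univ \ S : Finset (Fin 5)),
        ¬ up17 (τ N v) u w := by
      rw [Filter.eventually_all_finset]
      intro v hv
      rw [Ultrafilter.eventually_not]
      intro h
      rw [Finset.mem_sdiff] at hv
      exact hv.2 (Finset.mem_filter.2 ⟨Finset.mem_univ _, h⟩)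
    obtain ⟨N, hN, h1, h2⟩ := (hout.and ((ev_ge17 (bd17 u)).and (ev_ge17 (bd17 w)))).exists
    obtain ⟨u', rfl⟩ := exists_emb17 h1
    obtain ⟨w', rfl⟩ := exists_emb17 h2
    have e := hτ N u' w' huw
    have hle : Nat.card {i : Fin 5 // (τ N i).1 u' w'} ≤ S.card := by
      rw [Nat.card_eq_fintype_card, Fintype.card_subtype]
      apply Finset.card_le_card
      intro v hv
      by_contra hvS
      have := hN v (Finset.mem_sdiff.2 ⟨Finset.mem_univ _, hvS⟩)
      rw [up17_iff] at this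
      exact this (Finset.mem_filter.1 hv).2
    omega

end MCG
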