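import Pool.Agent.MCG.R3h2

/-!
# R2 : compactness (helper91, backup)

If every finite tournament `T(N)` is 5-inducible, then five linear orders of the infinite vertex
set induce the infinite tournament (limit of the lists along a non-principal ultrafilter).
-/

set_option autoImplicit false

namespace MCG

open Filter

/-- the order of voter `v` of `T(N)`, transported to the infinite vertex set -/
def tr91 (τ : ∀ N : ℕ, Fin 5 → Voter (FV N)) (N : ℕ) (v : Fin 5) (u w : Vx) : Prop :=
  ∃ u' w' : FV N, emb N u' = u ∧ emb N w' = w ∧ (τ N v).1 u' w'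

theorem emb_inj91 (N : ℕ) : Function.Injective (emb N) := by
  rintro ⟨⟨a, b, c⟩, d⟩ ⟨⟨a', b', c'⟩, d'⟩ h
  simp only [emb, Prod.mk.injEq] at h
  obtain ⟨⟨h1, h2, h3⟩, h4⟩ := h
  have e1 := Fin.ext h1
  have e2 := Fin.ext h2
  have e4 := Fin.ext h4
  subst e1 e2 e4 h3
  rfl

/-- every vertex is in `T(N)` for large `N` -/
theorem emb_ev91 (u : Vx) : ∀ᶠ N in (hyperfilter ℕ : Filter ℕ), ∃ u' : FV N, emb N u' = u := by
  have h : ∀ᶠ N in (hyperfilter ℕ : Filter ℕ), u.1.1 + u.1.2.1 + u.2 < N :=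
    Nat.hyperfilter_le_atTop (Filter.eventually_gt_atTop _)
  filter_upwards [h] with N hN
  exact ⟨((⟨u.1.1, by omega⟩, ⟨u.1.2.1, by omega⟩, u.1.2.2), ⟨u.2, by omega⟩), rfl⟩

theorem compact (h : ∀ N : ℕ, Inducible (arcN N) 5) :
    ∃ O : Fin 5 → Vx → Vx → Prop,
      (∀ v u, ¬ O v u u) ∧ (∀ v u w x, O v u w → O v w x → O v u x) ∧
      (∀ v u w, u ≠ w → O v u w ∨ O v w u) ∧
      (∀ u w, arc u w → 3 ≤ cnt (fun v => O v u w)) := by
  choose τ hτ using fun N => (h N).2
  refine ⟨fun v u w => ∀ᶠ N in (hyperfilter ℕ : Filter ℕ), tr91 τ N v u w, ?_, ?_, ?_, ?_⟩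
  · intro v u hu
    obtain ⟨N, u', w', e1, e2, e3⟩ := hu.exists
    have : u' = w' := emb_inj91 N (e1.trans e2.symm)
    subst this
    have := (τ N v).2
    exact irrefl_of (τ N v).1 u' e3
  · intro v u w x h1 h2
    filter_upwards [h1, h2] with N e1 e2
    obtain ⟨a, b, ha, hb, hab⟩ := e1
    obtain ⟨b', c, hb', hc, hbc⟩ := e2
    have : b' = b := emb_inj91 N (hb'.trans hb.symm)
    subst this
    have := (τ N v).2
    exact ⟨a, c, ha, hc, trans_of (τ N v).1 hab hbc⟩
  · intro v u w huw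
    have : ∀ᶠ N in (hyperfilter ℕ : Filter ℕ), tr91 τ N v u w ∨ tr91 τ N v w u := by
      filter_upwards [emb_ev91 u, emb_ev91 w] with N e1 e2
      obtain ⟨a, ha⟩ := e1
      obtain ⟨b, hb⟩ := e2
      have hab : a ≠ b := by
        rintro rfl
        exact huw (ha.symm.trans hb)
      have := (τ N v).2
      rcases trichotomous_of (τ N v).1 a b with h' | h' | h'
      · exact Or.inl ⟨a, b, ha, hb, h'⟩
      · exact absurd h' hab
      · exact Or.inr ⟨b, a, hb, ha, h'⟩
    exact Ultrafilter.eventually_or.1 this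
  · intro u w huw
    refine cnt_lim (hyperfilter ℕ) (fun v N => tr91 τ N v u w) 3 ?_
    filter_upwards [emb_ev91 u, emb_ev91 w] with N e1 e2
    obtain ⟨a, ha⟩ := e1
    obtain ⟨b, hb⟩ := e2
    have hab : arcN N a b := by
      unfold arcN
      rw [ha, hb]
      exact huw
    have h5 := hτ N a b hab
    have h6 : Nat.card {i : Fin 5 // (τ N i).1 a b} ≤ cnt (fun v => tr91 τ N v u w) := by
      classical
      unfold cnt
      rw [Nat.card_eq_fintype_card, Fintype.card_subtype]
      apply Finset.card_le_card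
      intro v hv
      simp only [Finset.mem_filter, Finset.mem_univ, true_and] at hv ⊢
      exact ⟨a, b, ha, hb, hv⟩
    omega

end MCG
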