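import Mathlib

/-!
# MP_3d3f53_co : a tournament with predictability 2/3 which is not 5-inducible (helper44's construction)

Definitions of the tournament `T(N)` and of voters, thresholds, inducing lists.
-/

set_option autoImplicit false

namespace MCG

/-- `E u v` : the arc goes from `u` to `v`; exactly one arc between two distinct vertices. -/
structure IsTourn {V : Type} (E : V → V → Prop) : Prop where
  irr : ∀ u, ¬ E u u
  tot : ∀ u v, u ≠ v → E u v ∨ E v u
  asymm : ∀ u v, E u v → ¬ E v u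

/-- A voter is a linear order of `V`, given as its strict relation: `τ.1 u v` = `u` before `v`. -/
abbrev Voter (V : Type) := {r : V → V → Prop // IsStrictTotalOrder V r}

/-- The list `τ` of `m` voters induces the tournament at threshold `α`: every arc `u → v` is
supported by at least `α m` voters. -/
def InducesAt {V : Type} (E : V → V → Prop) (α : ℝ) {m : ℕ} (τ : Fin m → Voter V) : Prop :=
  ∀ u v, E u v → α * m ≤ (Nat.card {i : Fin m // (τ i).1 u v} : ℝ)

/-- The list `τ` of `m` voters induces the tournament: every arc is supported by strictly more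
than `m / 2` voters. -/
def Induces {V : Type} (E : V → V → Prop) {m : ℕ} (τ : Fin m → Voter V) : Prop :=
  ∀ u v, E u v → m < 2 * Nat.card {i : Fin m // (τ i).1 u v}

/-- `m`-inducible: some list of `m ≥ 1` voters induces the tournament. -/
def Inducible {V : Type} (E : V → V → Prop) (m : ℕ) : Prop :=
  1 ≤ m ∧ ∃ τ : Fin m → Voter V, Induces E τ

/-- `α* = a` : `a` is the largest threshold in `(1/2, 1]` at which some nonempty finite list of
voters induces the tournament. -/
def IsPred {V : Type} (E : V → V → Prop) (a : ℝ) : Prop :=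
  IsGreatest {α : ℝ | 1 / 2 < α ∧ α ≤ 1 ∧
    ∃ m : ℕ, 1 ≤ m ∧ ∃ τ : Fin m → Voter V, InducesAt E α τ} a

/-! ## The infinite tournament and its finite parts -/

/-- A type: class, partner, residue. -/
abbrev Ty := ℕ × ℕ × ZMod 3

/-- A vertex of the infinite tournament: a type and a level number `B`. -/
abbrev Vx := Ty × ℕ

/-- The level of a vertex: first `B`, then the unordered pair {class, partner}. -/
def lev (u : Vx) : ℕ ×ₗ ℕ ×ₗ ℕ :=
  toLex (u.2, toLex (max u.1.1 u.1.2.1, min u.1.1 u.1.2.1))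

/-- The arcs: (1) same class, different residues: `a → a + 1`; (2) otherwise lower level → higher
level; (3) same level, different classes: `a → a + 1`, equal residues: smaller class first. -/
def arc (u w : Vx) : Prop :=
  (u.1.1 = w.1.1 ∧ w.1.2.2 = u.1.2.2 + 1) ∨
  (¬ (u.1.1 = w.1.1 ∧ u.1.2.2 ≠ w.1.2.2) ∧
    (lev u < lev w ∨ (lev u = lev w ∧
      (w.1.2.2 = u.1.2.2 + 1 ∨ (u.1.2.2 = w.1.2.2 ∧ u.1.1 < w.1.1)))))

/-- The vertices of the finite tournament `T(N)`. -/
abbrev FV (N : ℕ) := (Fin N × Fin N × ZMod 3) × Fin N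

/-- The embedding of `T(N)` in the infinite tournament. -/
def emb (N : ℕ) (u : FV N) : Vx := ((u.1.1.val, u.1.2.1.val, u.1.2.2), u.2.val)

/-- The arcs of `T(N)`. -/
def arcN (N : ℕ) (u w : FV N) : Prop := arc (emb N u) (emb N w)

/-- Number of voters (of five) with a property. -/
noncomputable def cnt (p : Fin 5 → Prop) : ℕ := by
  classical exact (Finset.univ.filter p).card

/-- At least two of three. -/
def two (p : Fin 3 → Prop) : Prop := (p 0 ∨ p 1) ∧ (p 1 ∨ p 2) ∧ (p 0 ∨ p 2)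

/-- At least one of three. -/
def one (p : Fin 3 → Prop) : Prop := p 0 ∨ p 1 ∨ p 2

/-- helper99's abstract system of five voters on types with classes and residues. -/
structure Sys (T : Type) where
  A : Fin 5 → T → T → Prop
  cl : T → ℕ
  res : T → ZMod 3
  tr : ∀ v f g h, A v f g → A v g h → A v f h
  ntr : ∀ v f g h, ¬ A v f g → ¬ A v g h → ¬ A v f h
  cross : ∀ f g, (cl f ≠ cl g ∨ res f = res g) → 3 ≤ cnt (fun v => A v f g)
  arc1 : ∀ f g, cl f = cl g → res g = res f + 1 → 3 ≤ cnt (fun v => A v f g)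
  arc2 : ∀ f g, cl f = cl g → res g = res f + 1 → 3 ≤ cnt (fun v => ¬ A v g f)
  ne : ∀ i a, ∃ f, cl f = i ∧ res f = a

/-- What remains after (A)-(D): `E` ties everything, `D` separates the classes `c 0, c 1, ...`
(increasing if `up`), the other three voters are tight. -/
structure Out {T : Type} (S : Sys T) (c : ℕ → ℕ) (E D : Fin 5) (up : Prop) : Prop where
  mono : StrictMono c
  ED : E ≠ D
  hE : ∀ i j f g, S.cl f = c i → S.cl g = c j → S.A E f g
  hDs : ∀ i f g, S.cl f = c i → S.cl g = c i → ¬ S.A D f g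
  hDu : ∀ i j f g, i < j → S.cl f = c i → S.cl g = c j → (S.A D f g ↔ up)
  hDd : ∀ i j f g, i < j → S.cl f = c i → S.cl g = c j → (S.A D g f ↔ ¬ up)
  sep : ∀ i v f g, v ≠ E → v ≠ D → S.cl f = c i → S.cl g = c i → S.res f ≠ S.res g →
    (S.A v f g ↔ ¬ S.A v g f)
  same : ∀ i f g, S.cl f = c i → S.cl g = c i → S.res f = S.res g →
    2 ≤ cnt (fun v => v ≠ E ∧ v ≠ D ∧ S.A v f g)
  arcf : ∀ i f g, S.cl f = c i → S.cl g = c i → S.res g = S.res f + 1 →
    cnt (fun v => v ≠ E ∧ v ≠ D ∧ S.A v f g) = 2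
  arcb : ∀ i f g, S.cl f = c i → S.cl g = c i → S.res g = S.res f + 1 →
    cnt (fun v => v ≠ E ∧ v ≠ D ∧ S.A v g f) = 1
  c3u1 : up → ∀ i j f g, i < j → S.cl f = c i → S.cl g = c j →
    1 ≤ cnt (fun v => v ≠ E ∧ v ≠ D ∧ S.A v f g)
  c3u2 : up → ∀ i j f g, i < j → S.cl f = c i → S.cl g = c j →
    2 ≤ cnt (fun v => v ≠ E ∧ v ≠ D ∧ S.A v g f)
  c3d1 : ¬ up → ∀ i j f g, i < j → S.cl f = c i → S.cl g = c j →
    1 ≤ cnt (fun v => v ≠ E ∧ v ≠ D ∧ S.A v g f)
  c3d2 : ¬ up → ∀ i j f g, i < j → S.cl f = c i → S.cl g = c j →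
    2 ≤ cnt (fun v => v ≠ E ∧ v ≠ D ∧ S.A v f g)

/-- The homogeneous structure of the three tight voters on `n` classes; class `i < j` : `i` is
before `j` in `D`. -/
structure HS (n : ℕ) (A : Fin 3 → Fin n × Fin n × ZMod 3 → Fin n × Fin n × ZMod 3 → Prop) :
    Prop where
  tr : ∀ v f g h, A v f g → A v g h → A v f h
  ntr : ∀ v f g h, ¬ A v f g → ¬ A v g h → ¬ A v f h
  hom : ∀ x y : Fin 4 → Fin n, (∀ s t, x s < x t ↔ y s < y t) → ∀ v a b,
    (A v (x 0, x 1, a) (x 2, x 3, b) ↔ A v (y 0, y 1, a) (y 2, y 3, b))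
  sep : ∀ v f g, f.1 = g.1 → f.2.2 ≠ g.2.2 → (A v f g ↔ ¬ A v g f)
  same : ∀ f g, f.1 = g.1 → f.2.2 = g.2.2 → two (fun v => A v f g)
  arcf : ∀ f g, f.1 = g.1 → g.2.2 = f.2.2 + 1 → two (fun v => A v f g)
  arcb : ∀ f g, f.1 = g.1 → g.2.2 = f.2.2 + 1 → one (fun v => A v g f)
  c31 : ∀ f g, f.1 < g.1 → one (fun v => A v f g)
  c32 : ∀ f g, f.1 < g.1 → two (fun v => A v g f)

/-- `f` strictly before `g`. -/
def L {T : Type} (A : T → T → Prop) (f g : T) : Prop := A f g ∧ ¬ A g f

end MCG
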