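import Mathlib

/-!
# Three types of one class: one voter ties everything upwards, one downwards, three are strict (helper53)

The Boolean core of step (B): `a = A 0 1`, `b = A 1 2`, `c = A 2 0`, `a' = A 1 0`, `b' = A 2 1`, `c' = A 0 2`.
-/

set_option autoImplicit false

namespace MCG

/-- weight of a voter on the cyclic triple `0 → 1 → 2 → 0`. -/
def wt53 (a b c a' b' c' : Bool) : ℕ :=
  a.toNat + b.toNat + c.toNat + (!a').toNat + (!b').toNat + (!c').toNat

/-- the bi-transitivity conditions on three types used below: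
`a = A 0 1`, `b = A 1 2`, `c = A 2 0`, `a' = A 1 0`, `b' = A 2 1`, `c' = A 0 2`. -/
abbrev Bi53 (a b c a' b' c' : Bool) : Prop :=
  (a = b → c' = a) ∧ (b = c → a' = b) ∧ (c = a → b' = c) ∧
  (a' = c' → b = a') ∧ (c' = b' → a = c') ∧ (b' = a' → c = b')

lemma vote53 : ∀ a b c a' b' c' : Bool, Bi53 a b c a' b' c' →
    ((a = !a' ∧ b = !b' ∧ c = !c' ∧ a.toNat + b.toNat + c.toNat = 2 ∧ wt53 a b c a' b' c' = 4) ∨
      (wt53 a b c a' b' c' ≤ 3 ∧
        (((a = true ∧ a' = true ∧ b = true ∧ b' = true) ∨ (a = true ∧ a' = true ∧ c = true ∧ c' = true) ∨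
          (b = true ∧ b' = true ∧ c = true ∧ c' = true)) →
          (a = true ∧ a' = true ∧ b = true ∧ b' = true ∧ c = true ∧ c' = true)))) := by
  intro a b c a' b' c' h
  revert h
  cases a <;> cases b <;> cases c <;> cases a' <;> cases b' <;> cases c' <;> simp [Bi53, wt53]

open Finset in
/-- Five voters on three types of one class: if every arc `0 → 1 → 2 → 0` has at least three voters at both level
orders and every two of the three types are tied upwards by some voter, then exactly one voter `E` ties everything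
upwards, exactly one voter `D` ties everything downwards, and the three others are strict, with two of them on
every arc. -/
theorem five53 (a b c a' b' c' : Fin 5 → Bool)
    (h : ∀ v, Bi53 (a v) (b v) (c v) (a' v) (b' v) (c' v))
    (sa : 3 ≤ ∑ v, (a v).toNat) (sb : 3 ≤ ∑ v, (b v).toNat) (sc : 3 ≤ ∑ v, (c v).toNat)
    (sa' : 3 ≤ ∑ v, (!a' v).toNat) (sb' : 3 ≤ ∑ v, (!b' v).toNat) (sc' : 3 ≤ ∑ v, (!c' v).toNat)
    (ta : ∃ v, a v = true ∧ a' v = true) (tb : ∃ v, b v = true ∧ b' v = true)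
    (tc : ∃ v, c v = true ∧ c' v = true) :
    ∃ E D, E ≠ D ∧
      (a E = true ∧ b E = true ∧ c E = true ∧ a' E = true ∧ b' E = true ∧ c' E = true) ∧
      (a D = false ∧ b D = false ∧ c D = false ∧ a' D = false ∧ b' D = false ∧ c' D = false) ∧
      (∀ v, v ≠ E → v ≠ D → a' v = !a v ∧ b' v = !b v ∧ c' v = !c v) ∧
      (∑ v ∈ (univ.erase E).erase D, (a v).toNat = 2) ∧
      (∑ v ∈ (univ.erase E).erase D, (b v).toNat = 2) ∧
      (∑ v ∈ (univ.erase E).erase D, (c v).toNat = 2) := by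
  classical
  set w : Fin 5 → ℕ := fun v => wt53 (a v) (b v) (c v) (a' v) (b' v) (c' v) with hw
  have hV := fun v => vote53 _ _ _ _ _ _ (h v)
  have hw4 : ∀ v, w v ≤ 4 := by
    intro v
    rcases hV v with h1 | h1
    · exact h1.2.2.2.2.le
    · exact h1.1.trans (by norm_num)
  have hsum : ∑ v, w v = ∑ v, (a v).toNat + ∑ v, (b v).toNat + ∑ v, (c v).toNat +
      ∑ v, (!a' v).toNat + ∑ v, (!b' v).toNat + ∑ v, (!c' v).toNat := by
    simp only [hw, wt53, Finset.sum_add_distrib]
  have h18 : 18 ≤ ∑ v, w v := by omega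
  -- at most two voters of weight at most three
  have hNT : (univ.filter fun v => w v ≤ 3).card ≤ 2 := by
    by_contra hc
    have h1 : ∑ v, w v + (univ.filter fun v => w v ≤ 3).card ≤ 20 := by
      have h2 : ∀ v, w v + (if w v ≤ 3 then 1 else 0) ≤ 4 := by
        intro v
        have := hw4 v
        split_ifs <;> omega
      have h3 : ∑ v : Fin 5, (w v + (if w v ≤ 3 then 1 else 0)) ≤ ∑ _v : Fin 5, 4 :=
        Finset.sum_le_sum fun v _ => h2 v
      rw [Finset.sum_add_distrib, ← Finset.card_filter] at h3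
      simpa using h3
    omega
  have hnt : ∀ v, ((a v = true ∧ a' v = true) ∨ (b v = true ∧ b' v = true) ∨ (c v = true ∧ c' v = true)) →
      v ∈ univ.filter fun v => w v ≤ 3 := by
    intro v hv
    rcases hV v with ⟨h1, h2, h3, -, -⟩ | h1
    · exfalso
      rcases hv with ⟨x, y⟩ | ⟨x, y⟩ | ⟨x, y⟩
      · rw [x, y] at h1; simp at h1
      · rw [x, y] at h2; simp at h2
      · rw [x, y] at h3; simp at h3
    · simpa using h1.1
  obtain ⟨v1, hv1⟩ := ta
  obtain ⟨v2, hv2⟩ := tb
  obtain ⟨v3, hv3⟩ := tc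
  have hcoin : v1 = v2 ∨ v1 = v3 ∨ v2 = v3 := by
    by_contra hc
    push Not at hc
    have h1 : ({v1, v2, v3} : Finset (Fin 5)) ⊆ univ.filter fun v => w v ≤ 3 := by
      intro x hx
      simp only [Finset.mem_insert, Finset.mem_singleton] at hx
      rcases hx with rfl | rfl | rfl
      · exact hnt _ (Or.inl hv1)
      · exact hnt _ (Or.inr (Or.inl hv2))
      · exact hnt _ (Or.inr (Or.inr hv3))
    have h2 := Finset.card_le_card h1
    rw [Finset.card_insert_of_notMem (by simp [hc.1, hc.2.1]),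
      Finset.card_insert_of_notMem (by simp [hc.2.2]), Finset.card_singleton] at h2
    omega
  have hE : ∃ E, a E = true ∧ a' E = true ∧ b E = true ∧ b' E = true ∧ c E = true ∧ c' E = true := by
    have key : ∀ v, v ∈ (univ.filter fun v => w v ≤ 3) →
        ((a v = true ∧ a' v = true ∧ b v = true ∧ b' v = true) ∨
          (a v = true ∧ a' v = true ∧ c v = true ∧ c' v = true) ∨
          (b v = true ∧ b' v = true ∧ c v = true ∧ c' v = true)) →
        (a v = true ∧ a' v = true ∧ b v = true ∧ b' v = true ∧ c v = true ∧ c' v = true) := by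
      intro v hv h1
      rcases hV v with h2 | h2
      · have h3 : w v = 4 := h2.2.2.2.2
        have h4 := (Finset.mem_filter.1 hv).2
        omega
      · exact h2.2 h1
    rcases hcoin with rfl | rfl | rfl
    · exact ⟨v1, key v1 (hnt _ (Or.inl hv1)) (Or.inl ⟨hv1.1, hv1.2, hv2.1, hv2.2⟩)⟩
    · exact ⟨v1, key v1 (hnt _ (Or.inl hv1)) (Or.inr (Or.inl ⟨hv1.1, hv1.2, hv3.1, hv3.2⟩))⟩
    · exact ⟨v2, key v2 (hnt _ (Or.inr (Or.inl hv2))) (Or.inr (Or.inr ⟨hv2.1, hv2.2, hv3.1, hv3.2⟩))⟩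
  obtain ⟨E, e1, e2, e3, e4, e5, e6⟩ := hE
  have hwE : w E = 3 := by simp [hw, wt53, e1, e2, e3, e4, e5, e6]
  have tightv : ∀ v, ¬ w v ≤ 3 → a' v = !a v ∧ b' v = !b v ∧ c' v = !c v ∧
      (a v).toNat + (b v).toNat + (c v).toNat = 2 := by
    intro v hv
    rcases hV v with ⟨h1, h2, h3, h4, -⟩ | h1
    · refine ⟨?_, ?_, ?_, h4⟩
      · rw [h1]; simp
      · rw [h2]; simp
      · rw [h3]; simp
    · exact absurd h1.1 hv
  have spl : ∀ f : Fin 5 → ℕ, ∑ v, f v = f E + ∑ v ∈ univ.erase E, f v := fun f =>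
    (Finset.add_sum_erase _ f (Finset.mem_univ E)).symm
  have hD : ∃ D, D ≠ E ∧ w D ≤ 3 := by
    by_contra hc
    push Not at hc
    have ht : ∀ v ∈ univ.erase E, a' v = !a v ∧ b' v = !b v ∧ c' v = !c v ∧
        (a v).toNat + (b v).toNat + (c v).toNat = 2 := fun v hv =>
      tightv v (by have := hc v (Finset.ne_of_mem_erase hv); omega)
    have h8 : ∑ v ∈ univ.erase E, ((a v).toNat + (b v).toNat + (c v).toNat) = 8 := by
      rw [Finset.sum_congr rfl fun v hv => (ht v hv).2.2.2]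
      simp
    rw [Finset.sum_add_distrib, Finset.sum_add_distrib] at h8
    have x1 := spl fun v => (!a' v).toNat
    have x2 := spl fun v => (!b' v).toNat
    have x3 := spl fun v => (!c' v).toNat
    have u1 : ∑ v ∈ univ.erase E, (!a' v).toNat = ∑ v ∈ univ.erase E, (a v).toNat :=
      Finset.sum_congr rfl fun v hv => by rw [(ht v hv).1]; simp
    have u2 : ∑ v ∈ univ.erase E, (!b' v).toNat = ∑ v ∈ univ.erase E, (b v).toNat :=
      Finset.sum_congr rfl fun v hv => by rw [(ht v hv).2.1]; simp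
    have u3 : ∑ v ∈ univ.erase E, (!c' v).toNat = ∑ v ∈ univ.erase E, (c v).toNat :=
      Finset.sum_congr rfl fun v hv => by rw [(ht v hv).2.2.1]; simp
    simp only [e2, e4, e6, Bool.not_true, Bool.toNat_false] at x1 x2 x3
    omega
  obtain ⟨D, hDE, hwD⟩ := hD
  have hDm : D ∈ univ.erase E := Finset.mem_erase.2 ⟨hDE, Finset.mem_univ D⟩
  have spl2 : ∀ f : Fin 5 → ℕ, ∑ v, f v = f E + (f D + ∑ v ∈ (univ.erase E).erase D, f v) := fun f => by
    rw [spl f, ← Finset.add_sum_erase _ f hDm]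
  have ht : ∀ v ∈ (univ.erase E).erase D, ¬ w v ≤ 3 := by
    intro v hv h3
    have hvD := Finset.ne_of_mem_erase hv
    have hvE := Finset.ne_of_mem_erase (Finset.mem_of_mem_erase hv)
    have h1 : ({v, D, E} : Finset (Fin 5)) ⊆ univ.filter fun v => w v ≤ 3 := by
      intro x hx
      simp only [Finset.mem_insert, Finset.mem_singleton] at hx
      rcases hx with rfl | rfl | rfl
      · simpa using h3
      · simpa using hwD
      · simp [hwE]
    have h2 := Finset.card_le_card h1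
    rw [Finset.card_insert_of_notMem (by simp [hvD, hvE]),
      Finset.card_insert_of_notMem (by simp [hDE]), Finset.card_singleton] at h2
    omega
  have hT : ∀ v ∈ (univ.erase E).erase D, a' v = !a v ∧ b' v = !b v ∧ c' v = !c v ∧
      (a v).toNat + (b v).toNat + (c v).toNat = 2 := fun v hv => tightv v (ht v hv)
  have hc3 : ((univ.erase E).erase D).card = 3 := by
    rw [Finset.card_erase_of_mem hDm, Finset.card_erase_of_mem (Finset.mem_univ E)]
    simp
  have h6 : ∑ v ∈ (univ.erase E).erase D, ((a v).toNat + (b v).toNat + (c v).toNat) = 6 := by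
    rw [Finset.sum_congr rfl fun v hv => (hT v hv).2.2.2]
    simp [hc3]
  rw [Finset.sum_add_distrib, Finset.sum_add_distrib] at h6
  have y1 := spl2 fun v => (a v).toNat
  have y2 := spl2 fun v => (b v).toNat
  have y3 := spl2 fun v => (c v).toNat
  have x1 := spl2 fun v => (!a' v).toNat
  have x2 := spl2 fun v => (!b' v).toNat
  have x3 := spl2 fun v => (!c' v).toNat
  have u1 : ∑ v ∈ (univ.erase E).erase D, (!a' v).toNat = ∑ v ∈ (univ.erase E).erase D, (a v).toNat :=
    Finset.sum_congr rfl fun v hv => by rw [(hT v hv).1]; simp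
  have u2 : ∑ v ∈ (univ.erase E).erase D, (!b' v).toNat = ∑ v ∈ (univ.erase E).erase D, (b v).toNat :=
    Finset.sum_congr rfl fun v hv => by rw [(hT v hv).2.1]; simp
  have u3 : ∑ v ∈ (univ.erase E).erase D, (!c' v).toNat = ∑ v ∈ (univ.erase E).erase D, (c v).toNat :=
    Finset.sum_congr rfl fun v hv => by rw [(hT v hv).2.2.1]; simp
  have hwD' : (a D).toNat + (b D).toNat + (c D).toNat + (!a' D).toNat + (!b' D).toNat + (!c' D).toNat ≤ 3 := hwD
  simp only [e1, e2, e3, e4, e5, e6, Bool.not_true, Bool.toNat_false, Bool.toNat_true] at x1 x2 x3 y1 y2 y3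
  have z1 : (a D).toNat ≤ 1 := Bool.toNat_le _
  have z2 : (b D).toNat ≤ 1 := Bool.toNat_le _
  have z3 : (c D).toNat ≤ 1 := Bool.toNat_le _
  have z4 : (!a' D).toNat ≤ 1 := Bool.toNat_le _
  have z5 : (!b' D).toNat ≤ 1 := Bool.toNat_le _
  have z6 : (!c' D).toNat ≤ 1 := Bool.toNat_le _
  have q1 : (a D).toNat = 0 ∧ (!a' D).toNat = 1 := by omega
  have q2 : (b D).toNat = 0 ∧ (!b' D).toNat = 1 := by omega
  have q3 : (c D).toNat = 0 ∧ (!c' D).toNat = 1 := by omega
  have r : ∀ x : Bool, x.toNat = 0 → x = false := by decide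
  have r' : ∀ x : Bool, (!x).toNat = 1 → x = false := by decide
  refine ⟨E, D, hDE.symm, ⟨e1, e3, e5, e2, e4, e6⟩,
    ⟨r _ q1.1, r _ q2.1, r _ q3.1, r' _ q1.2, r' _ q2.2, r' _ q3.2⟩, ?_, by omega, by omega, by omega⟩
  intro v hvE hvD
  have hv : v ∈ (univ.erase E).erase D :=
    Finset.mem_erase.2 ⟨hvD, Finset.mem_erase.2 ⟨hvE, Finset.mem_univ v⟩⟩
  exact ⟨(hT v hv).1, (hT v hv).2.1, (hT v hv).2.2.1⟩

end MCG
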