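import Pool.Agent.MCG.Defs

/-!
# MP_3d3f53_co : rows R4, R5 = steps (A)-(D) of helper44's disproof (helper99)

Five bi-transitive relations on the types of infinitely many classes: two voters `E`, `D` tie
everything inside a class, the three others are tight; all but finitely many classes are good.
-/

set_option autoImplicit false

namespace MCG.R99

open Filter
open scoped Classical

/-- the asymptotic system of five voters on the types of one infinite family -/
structure Sys99 (Ty : Type) where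
  A : Fin 5 → Ty → Ty → Prop
  cl : Ty → ℕ
  res : Ty → ZMod 3
  tr : ∀ v f g h, A v f g → A v g h → A v f h
  ntr : ∀ v f g h, ¬ A v f g → ¬ A v g h → ¬ A v f h
  cross : ∀ f g, (cl f ≠ cl g ∨ res f = res g) →
    3 ≤ (Finset.univ.filter fun v => A v f g).card
  arc1 : ∀ f g, cl f = cl g → res g = res f + 1 →
    3 ≤ (Finset.univ.filter fun v => A v f g).card
  arc2 : ∀ f g, cl f = cl g → res g = res f + 1 →
    3 ≤ (Finset.univ.filter fun v => ¬ A v g f).card
  ne : ∀ i a, ∃ f, cl f = i ∧ res f = a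

/-- finite disjunctions under an ultrafilter -/
private lemma evS {α β : Type} (W : Ultrafilter α) (S : Finset β) (Q : β → α → Prop)
    (h : ∀ᶠ a in (W : Filter α), ∃ v ∈ S, Q v a) : ∃ v ∈ S, ∀ᶠ a in (W : Filter α), Q v a := by
  by_contra hc
  push Not at hc
  have h2 : ∀ᶠ a in (W : Filter α), ∀ v ∈ S, ¬ Q v a := by
    rw [Filter.eventually_all_finset]
    intro v hv
    exact hc v hv
  obtain ⟨a, ⟨v, hv, hq⟩, h3⟩ := (h.and h2).exists
  exact h3 v hv hq

/-- row (A), ultrafilter form -/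
theorem tieU {Ty : Type} (P : Fin 5 → Ty → Ty → Prop) (hs : ∀ v f g, P v f g → P v g f)
    (ht : ∀ v f g h, P v f g → P v g h → P v f h) (S : Finset (Fin 5)) (W : Ultrafilter ℕ)
    (F G : ℕ → Ty)
    (h : ∀ᶠ i in (W : Filter ℕ), ∀ᶠ j in (W : Filter ℕ), ∃ v ∈ S, P v (F i) (G j))
    (Q : ℕ → Prop) (hQ : ∀ᶠ i in (W : Filter ℕ), Q i) :
    ∃ i, Q i ∧ ∃ v ∈ S, P v (F i) (G i) := by
  have h1 : ∀ᶠ i in (W : Filter ℕ), ∃ v ∈ S, ∀ᶠ j in (W : Filter ℕ), P v (F i) (G j) := by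
    filter_upwards [h] with i hi
    exact evS W S (fun v j => P v (F i) (G j)) hi
  obtain ⟨v, hv, h2⟩ := evS W S _ h1
  obtain ⟨i, hi⟩ := h2.exists
  obtain ⟨j, ⟨hj1, hj2⟩, hj3⟩ := ((hi.and h2).and hQ).exists
  obtain ⟨k, hk1, hk2⟩ := (hi.and hj2).exists
  exact ⟨j, hj3, v, hv, ht v _ _ _ hk2 (ht v _ _ _ (hs v _ _ hk1) hj1)⟩

/-- a nonprincipal ultrafilter on an infinite set -/
theorem exU (I : Set ℕ) (hI : I.Infinite) :
    ∃ W : Ultrafilter ℕ, (∀ᶠ i in (W : Filter ℕ), i ∈ I) ∧ ∀ i, ∀ᶠ j in (W : Filter ℕ), i < j := by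
  have : (cofinite ⊓ 𝓟 I : Filter ℕ).NeBot := cofinite_inf_principal_neBot_iff.2 hI
  refine ⟨Ultrafilter.of (cofinite ⊓ 𝓟 I), ?_, ?_⟩
  · have := Ultrafilter.of_le (cofinite ⊓ 𝓟 I : Filter ℕ)
    exact this (mem_inf_of_right (mem_principal_self I))
  · intro i
    have := Ultrafilter.of_le (cofinite ⊓ 𝓟 I : Filter ℕ)
    refine this (mem_inf_of_left ?_)
    rw [mem_cofinite]
    refine (Set.finite_Iic i).subset ?_
    intro j hj
    simpa using hj

/-- row (A) in the form of an infinite set -/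
theorem tieRam {Ty : Type} (P : Fin 5 → Ty → Ty → Prop) (hs : ∀ v f g, P v f g → P v g f)
    (ht : ∀ v f g h, P v f g → P v g h → P v f h) (S : Finset (Fin 5)) (I : Set ℕ)
    (hI : I.Infinite) (F G : ℕ → Ty)
    (h : ∀ i ∈ I, ∀ j ∈ I, i < j → ∃ v ∈ S, P v (F i) (G j)) :
    ∃ i ∈ I, ∃ v ∈ S, P v (F i) (G i) := by
  obtain ⟨W, h1, h2⟩ := exU I hI
  refine tieU P hs ht S W F G ?_ (fun i => i ∈ I) h1
  filter_upwards [h1] with i hi
  filter_upwards [h1, h2 i] with j hj hij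
  exact h i hi j hj hij

namespace Sys99

variable {Ty : Type} (s : Sys99 Ty)

/-- tie with sign + -/
def Tp (v : Fin 5) (f g : Ty) : Prop := s.A v f g ∧ s.A v g f

lemma Tp_symm (v f g) (h : s.Tp v f g) : s.Tp v g f := ⟨h.2, h.1⟩

lemma Tp_trans (v f g h) (h1 : s.Tp v f g) (h2 : s.Tp v g h) : s.Tp v f h :=
  ⟨s.tr v _ _ _ h1.1 h2.1, s.tr v _ _ _ h2.2 h1.2⟩

/-- the conclusion of row (B) for one mixture -/
def Mix (E D : Fin 5) (x y z : Ty) : Prop :=
  E ≠ D ∧
  (s.A E x y ∧ s.A E y x ∧ s.A E y z ∧ s.A E z y ∧ s.A E z x ∧ s.A E x z) ∧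
  (¬ s.A D x y ∧ ¬ s.A D y x ∧ ¬ s.A D y z ∧ ¬ s.A D z y ∧ ¬ s.A D z x ∧ ¬ s.A D x z) ∧
  (∀ v, v ≠ E → v ≠ D → (s.A v x y ↔ ¬ s.A v y x) ∧ (s.A v y z ↔ ¬ s.A v z y) ∧
    (s.A v z x ↔ ¬ s.A v x z)) ∧
  (Finset.univ.filter fun v => v ≠ E ∧ v ≠ D ∧ s.A v x y).card = 2 ∧
  (Finset.univ.filter fun v => v ≠ E ∧ v ≠ D ∧ s.A v y z).card = 2 ∧
  (Finset.univ.filter fun v => v ≠ E ∧ v ≠ D ∧ s.A v z x).card = 2

/-- row (B) -/
def MixStmt : Prop := ∀ x y z : Ty, s.cl x = s.cl y → s.cl y = s.cl z → s.res y = s.res x + 1 →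
  s.res z = s.res y + 1 → (∃ v, s.Tp v x y) → (∃ v, s.Tp v y z) → (∃ v, s.Tp v z x) →
  ∃ E D, s.Mix E D x y z

/-- good class with its two special voters -/
structure Gd (i : ℕ) (E D : Fin 5) : Prop where
  ne : E ≠ D
  e : ∀ f g, s.cl f = i → s.cl g = i → s.A E f g
  d : ∀ f g, s.cl f = i → s.cl g = i → ¬ s.A D f g
  t : ∀ v, v ≠ E → v ≠ D → ∀ f g, s.cl f = i → s.cl g = i → s.res f ≠ s.res g →
    (s.A v f g ↔ ¬ s.A v g f)
  c : ∀ f g, s.cl f = i → s.cl g = i → s.res g = s.res f + 1 →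
    (Finset.univ.filter fun v => v ≠ E ∧ v ≠ D ∧ s.A v f g).card = 2

/-- two sets of at least three voters meet -/
private lemma meet5 (P Q : Fin 5 → Prop) (hp : 3 ≤ (Finset.univ.filter fun v => P v).card)
    (hq : 3 ≤ (Finset.univ.filter fun v => Q v).card) : ∃ v, P v ∧ Q v := by
  by_contra hc
  push Not at hc
  have hd : Disjoint (Finset.univ.filter fun v => P v) (Finset.univ.filter fun v => Q v) := by
    rw [Finset.disjoint_left]
    intro v hv hv2
    simp only [Finset.mem_filter, Finset.mem_univ, true_and] at hv hv2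
    exact hc v hv hv2
  have h1 := Finset.card_union_of_disjoint hd
  have h2 := Finset.card_le_univ
    ((Finset.univ.filter fun v => P v) ∪ (Finset.univ.filter fun v => Q v))
  simp only [Fintype.card_fin] at h2
  omega

/-- the pair (E, D) of a mixture is determined by any of its pairs -/
private lemma Mix.uniqE {E D x y z} (h : s.Mix E D x y z) (v : Fin 5) :
    (s.Tp v x y → v = E) ∧ (s.Tp v y z → v = E) ∧ (s.Tp v z x → v = E) := by
  obtain ⟨h0, h1, h2, h3, -⟩ := h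
  refine ⟨?_, ?_, ?_⟩ <;> rintro ⟨ha, hb⟩ <;> by_contra hne
  · by_cases hD : v = D
    · subst hD; exact h2.1 ha
    · exact (h3 v hne hD).1.1 ha hb
  · by_cases hD : v = D
    · subst hD; exact h2.2.2.1 ha
    · exact (h3 v hne hD).2.1.1 ha hb
  · by_cases hD : v = D
    · subst hD; exact h2.2.2.2.2.1 ha
    · exact (h3 v hne hD).2.2.1 ha hb

private lemma Mix.uniqD {E D x y z} (h : s.Mix E D x y z) (v : Fin 5) :
    (¬ s.A v x y → ¬ s.A v y x → v = D) ∧ (¬ s.A v y z → ¬ s.A v z y → v = D) ∧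
      (¬ s.A v z x → ¬ s.A v x z → v = D) := by
  obtain ⟨h0, h1, h2, h3, -⟩ := h
  refine ⟨?_, ?_, ?_⟩ <;> intro ha hb <;> by_contra hne
  · by_cases hE : v = E
    · subst hE; exact ha h1.1
    · exact ha ((h3 v hE hne).1.2 hb)
  · by_cases hE : v = E
    · subst hE; exact ha h1.2.2.1
    · exact ha ((h3 v hE hne).2.1.2 hb)
  · by_cases hE : v = E
    · subst hE; exact ha h1.2.2.2.2.1
    · exact ha ((h3 v hE hne).2.2.2 hb)

/-- row (C), one class: every pair of types with different residues is tied + in some voter -/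
theorem good_of (hm : s.MixStmt) (i : ℕ)
    (h : ∀ f g, s.cl f = i → s.cl g = i → s.res f ≠ s.res g → ∃ v, s.Tp v f g) :
    ∃ E D, s.Gd i E D := by
  obtain ⟨b0, hb0, rb0⟩ := s.ne i 0
  obtain ⟨b1, hb1, rb1⟩ := s.ne i 1
  obtain ⟨b2, hb2, rb2⟩ := s.ne i 2
  have key : ∀ x y z, s.cl x = i → s.cl y = i → s.cl z = i → s.res x = 0 → s.res y = 1 →
      s.res z = 2 → ∃ E D, s.Mix E D x y z := by
    intro x y z hx hy hz rx ry rz
    refine hm x y z (hx.trans hy.symm) (hy.trans hz.symm) (by rw [ry, rx]; rfl)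
      (by rw [rz, ry]; rfl) (h _ _ hx hy ?_) (h _ _ hy hz ?_) (h _ _ hz hx ?_)
    · rw [rx, ry]; decide
    · rw [ry, rz]; decide
    · rw [rz, rx]; decide
  obtain ⟨E, D, hED⟩ := key b0 b1 b2 hb0 hb1 hb2 rb0 rb1 rb2
  have key2 : ∀ x y z, s.cl x = i → s.cl y = i → s.cl z = i → s.res x = 0 → s.res y = 1 →
      s.res z = 2 → s.Mix E D x y z := by
    intro x y z hx hy hz rx ry rz
    obtain ⟨E1, D1, h1⟩ := key x b1 b2 hx hb1 hb2 rx rb1 rb2
    obtain ⟨E2, D2, h2⟩ := key x y b2 hx hy hb2 rx ry rb2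
    obtain ⟨E3, D3, h3⟩ := key x y z hx hy hz rx ry rz
    have e1 : E = E1 := (Mix.uniqE s h1 E).2.1 ⟨hED.2.1.2.2.1, hED.2.1.2.2.2.1⟩
    have d1 : D = D1 := (Mix.uniqD s h1 D).2.1 hED.2.2.1.2.2.1 hED.2.2.1.2.2.2.1
    have e2 : E1 = E2 := (Mix.uniqE s h2 E1).2.2 ⟨h1.2.1.2.2.2.2.1, h1.2.1.2.2.2.2.2⟩
    have d2 : D1 = D2 := (Mix.uniqD s h2 D1).2.2 h1.2.2.1.2.2.2.2.1 h1.2.2.1.2.2.2.2.2
    have e3 : E2 = E3 := (Mix.uniqE s h3 E2).1 ⟨h2.2.1.1, h2.2.1.2.1⟩
    have d3 : D2 = D3 := (Mix.uniqD s h3 D2).1 h2.2.2.1.1 h2.2.2.1.2.1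
    subst e1 d1 e2 d2 e3 d3
    exact h3
  have r3 : ∀ a : ZMod 3, a = 0 ∨ a = 1 ∨ a = 2 := by decide
  -- all facts for pairs with different residues
  have pr : ∀ f g, s.cl f = i → s.cl g = i → s.res f ≠ s.res g →
      s.A E f g ∧ ¬ s.A D f g ∧ ∀ v, v ≠ E → v ≠ D → (s.A v f g ↔ ¬ s.A v g f) := by
    intro f g hf hg hne
    rcases r3 (s.res f) with rf | rf | rf <;> rcases r3 (s.res g) with rg | rg | rg
    · exact absurd (rf.trans rg.symm) hne
    · obtain ⟨q0, q1, q2, q3, -⟩ := key2 f g b2 hf hg hb2 rf rg rb2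
      exact ⟨q1.1, q2.1, fun v h1 h2 => (q3 v h1 h2).1⟩
    · obtain ⟨q0, q1, q2, q3, -⟩ := key2 f b1 g hf hb1 hg rf rb1 rg
      refine ⟨q1.2.2.2.2.2, q2.2.2.2.2.2, fun v h1 h2 => ?_⟩
      have := (q3 v h1 h2).2.2
      tauto
    · obtain ⟨q0, q1, q2, q3, -⟩ := key2 g f b2 hg hf hb2 rg rf rb2
      refine ⟨q1.2.1, q2.2.1, fun v h1 h2 => ?_⟩
      have := (q3 v h1 h2).1
      tauto
    · exact absurd (rf.trans rg.symm) hne
    · obtain ⟨q0, q1, q2, q3, -⟩ := key2 b0 f g hb0 hf hg rb0 rf rg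
      exact ⟨q1.2.2.1, q2.2.2.1, fun v h1 h2 => (q3 v h1 h2).2.1⟩
    · obtain ⟨q0, q1, q2, q3, -⟩ := key2 g b1 f hg hb1 hf rg rb1 rf
      exact ⟨q1.2.2.2.2.1, q2.2.2.2.2.1, fun v h1 h2 => (q3 v h1 h2).2.2⟩
    · obtain ⟨q0, q1, q2, q3, -⟩ := key2 b0 g f hb0 hg hf rb0 rg rf
      refine ⟨q1.2.2.2.1, q2.2.2.2.1, fun v h1 h2 => ?_⟩
      have := (q3 v h1 h2).2.1
      tauto
    · exact absurd (rf.trans rg.symm) hne
  have oth : ∀ f g : Ty, s.cl f = i → s.cl g = i → s.res f = s.res g →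
      ∃ k, s.cl k = i ∧ s.res f ≠ s.res k ∧ s.res k ≠ s.res g := by
    intro f g hf hg hr
    obtain ⟨k, hk, rk⟩ := s.ne i (s.res f + 1)
    refine ⟨k, hk, ?_, ?_⟩
    · rw [rk]; clear hr; generalize s.res f = a; revert a; decide
    · rw [rk, ← hr]; generalize s.res f = a; revert a; decide
  refine ⟨E, D, hED.1, ?_, ?_, ?_, ?_⟩
  · intro f g hf hg
    by_cases hr : s.res f = s.res g
    · obtain ⟨k, hk, r1, r2⟩ := oth f g hf hg hr
      exact s.tr E _ _ _ (pr f k hf hk r1).1 (pr k g hk hg r2).1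
    · exact (pr f g hf hg hr).1
  · intro f g hf hg
    by_cases hr : s.res f = s.res g
    · obtain ⟨k, hk, r1, r2⟩ := oth f g hf hg hr
      exact s.ntr D _ _ _ (pr f k hf hk r1).2.1 (pr k g hk hg r2).2.1
    · exact (pr f g hf hg hr).2.1
  · intro v h1 h2 f g hf hg hr
    exact (pr f g hf hg hr).2.2 v h1 h2
  · intro f g hf hg hr
    rcases r3 (s.res f) with rf | rf | rf
    · have rg : s.res g = 1 := by rw [hr, rf]; decide
      obtain ⟨q0, q1, q2, q3, q4, q5, q6⟩ := key2 f g b2 hf hg hb2 rf rg rb2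
      exact q4
    · have rg : s.res g = 2 := by rw [hr, rf]; decide
      obtain ⟨q0, q1, q2, q3, q4, q5, q6⟩ := key2 b0 f g hb0 hf hg rb0 rf rg
      exact q5
    · have rg : s.res g = 0 := by rw [hr, rf]; decide
      obtain ⟨q0, q1, q2, q3, q4, q5, q6⟩ := key2 g b1 f hg hb1 hf rg rb1 rf
      exact q6

/-- row (C): all but finitely many classes are good -/
theorem good_cof (hm : s.MixStmt) : {i | ¬ ∃ E D, s.Gd i E D}.Finite := by
  by_contra hinf
  have hinf : {i | ¬ ∃ E D, s.Gd i E D}.Infinite := hinf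
  have h1 : ∀ i : ℕ, ∃ f g : Ty, i ∈ {i | ¬ ∃ E D, s.Gd i E D} →
      s.cl f = i ∧ s.cl g = i ∧ s.res f ≠ s.res g ∧ ∀ v, ¬ s.Tp v f g := by
    intro i
    by_cases hi : i ∈ {i | ¬ ∃ E D, s.Gd i E D}
    · by_contra hc
      push Not at hc
      apply hi
      apply s.good_of hm i
      intro f g hf hg hr
      obtain ⟨-, h2⟩ := hc f g
      obtain ⟨v, hv⟩ := h2 hf hg hr
      exact ⟨v, hv⟩
    · obtain ⟨f, -⟩ := s.ne 0 0
      exact ⟨f, f, fun h => absurd h hi⟩
  choose F G hFG using h1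
  obtain ⟨i, hi, v, -, hv⟩ := tieRam (fun v f g => s.Tp v f g) (fun v f g => s.Tp_symm v f g)
    (fun v f g h => s.Tp_trans v f g h) Finset.univ _ hinf F G (by
      intro i hi j hj hij
      have h2 := hFG i hi
      have h3 := hFG j hj
      have hne : s.cl (F i) ≠ s.cl (G j) := by rw [h2.1, h3.2.1]; omega
      obtain ⟨v, ha, hb⟩ := meet5 _ _ (s.cross (F i) (G j) (Or.inl hne))
        (s.cross (G j) (F i) (Or.inl hne.symm))
      exact ⟨v, Finset.mem_univ v, ha, hb⟩)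
  exact (hFG i hi).2.2.2 v hv

/-- the count over five voters split into E, D and the three others -/
lemma split5 (E D : Fin 5) (hED : E ≠ D) (Q : Fin 5 → Prop) :
    (Finset.univ.filter fun v => Q v).card = (if Q E then 1 else 0) + (if Q D then 1 else 0) +
      (Finset.univ.filter fun v => v ≠ E ∧ v ≠ D ∧ Q v).card := by
  have h1 : (Finset.univ.filter fun v => Q v) =
      ((if Q E then {E} else ∅) ∪ (if Q D then {D} else ∅)) ∪
        (Finset.univ.filter fun v => v ≠ E ∧ v ≠ D ∧ Q v) := by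
    ext v
    by_cases h : v = E
    · subst h
      by_cases hq : Q v <;> by_cases hq2 : Q D <;> simp [hq, hq2, hED]
    · by_cases h2 : v = D
      · subst h2
        by_cases hq : Q v <;> by_cases hq2 : Q E <;> simp [hq, hq2, h]
      · by_cases hq : Q E <;> by_cases hq2 : Q D <;> simp [hq, hq2, h, h2]
  have d1 : Disjoint (if Q E then ({E} : Finset (Fin 5)) else ∅) (if Q D then {D} else ∅) := by
    by_cases hq : Q E <;> by_cases hq2 : Q D <;> simp [hq, hq2, hED]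
  have d2 : Disjoint ((if Q E then ({E} : Finset (Fin 5)) else ∅) ∪ (if Q D then {D} else ∅))
      (Finset.univ.filter fun v => v ≠ E ∧ v ≠ D ∧ Q v) := by
    rw [Finset.disjoint_left]
    intro v hv hv2
    simp only [Finset.mem_filter, Finset.mem_univ, true_and] at hv2
    rw [Finset.mem_union] at hv
    rcases hv with hv | hv
    · split_ifs at hv <;> simp at hv; exact hv2.1 hv
    · split_ifs at hv <;> simp at hv; exact hv2.2.1 hv
  rw [h1, Finset.card_union_of_disjoint d2, Finset.card_union_of_disjoint d1]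
  by_cases hq : Q E <;> by_cases hq2 : Q D <;> simp [hq, hq2]

/-- three other voters at most -/
private lemma le3 (E D : Fin 5) (hED : E ≠ D) (Q : Fin 5 → Prop) :
    (Finset.univ.filter fun v => v ≠ E ∧ v ≠ D ∧ Q v).card ≤ 3 := by
  have h2 : (Finset.univ.filter fun v : Fin 5 => v ≠ E ∧ v ≠ D ∧ Q v) ⊆
      (Finset.univ \ {E, D} : Finset (Fin 5)) := by
    intro v hv
    simp only [Finset.mem_filter, Finset.mem_univ, true_and] at hv
    simp [hv.1, hv.2.1]
  have h3 := Finset.card_le_card h2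
  rw [Finset.card_sdiff_of_subset (Finset.subset_univ _), Finset.card_pair hED] at h3
  simpa using h3

/-- two counts over the three others which sum to at least four meet -/
private lemma meet3 (E D : Fin 5) (hED : E ≠ D) (P Q : Fin 5 → Prop)
    (h : 4 ≤ (Finset.univ.filter fun v => v ≠ E ∧ v ≠ D ∧ P v).card +
      (Finset.univ.filter fun v => v ≠ E ∧ v ≠ D ∧ Q v).card) :
    ∃ v, v ≠ E ∧ v ≠ D ∧ P v ∧ Q v := by
  by_contra hc
  push Not at hc
  have hd : Disjoint (Finset.univ.filter fun v => v ≠ E ∧ v ≠ D ∧ P v)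
      (Finset.univ.filter fun v => v ≠ E ∧ v ≠ D ∧ Q v) := by
    rw [Finset.disjoint_left]
    intro v hv hv2
    simp only [Finset.mem_filter, Finset.mem_univ, true_and] at hv hv2
    exact hc v hv.1 hv.2.1 hv.2.2 hv2.2.2
  have h1 := Finset.card_union_of_disjoint hd
  have h2 : ((Finset.univ.filter fun v => v ≠ E ∧ v ≠ D ∧ P v) ∪
      (Finset.univ.filter fun v => v ≠ E ∧ v ≠ D ∧ Q v)) =
      (Finset.univ.filter fun v => v ≠ E ∧ v ≠ D ∧ (P v ∨ Q v)) := by
    ext v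
    simp only [Finset.mem_union, Finset.mem_filter, Finset.mem_univ, true_and]
    tauto
  have h3 : (Finset.univ.filter fun v => v ≠ E ∧ v ≠ D ∧ (P v ∨ Q v)).card ≤ 3 := by
    convert le3 E D hED (fun v => P v ∨ Q v)
  rw [h2] at h1
  omega

/-- the output of rows (A)-(D) -/
structure Out (c : ℕ → ℕ) (E D : Fin 5) (up : Prop) : Prop where
  mono : StrictMono c
  gd : ∀ n, s.Gd (c n) E D
  e : ∀ m n f g, s.cl f = c m → s.cl g = c n → s.A E f g
  d1 : ∀ m n, m < n → ∀ f g, s.cl f = c m → s.cl g = c n → (s.A D f g ↔ up)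
  d2 : ∀ m n, m < n → ∀ f g, s.cl f = c m → s.cl g = c n → (s.A D g f ↔ ¬ up)

/-- row (D) -/
theorem outD (hm : s.MixStmt) : ∃ c E D up, s.Out c E D up := by
  obtain ⟨W, hW1, hW2⟩ := exU Set.univ Set.infinite_univ
  have g1 : ∀ᶠ i in (W : Filter ℕ), ∃ p ∈ (Finset.univ : Finset (Fin 5 × Fin 5)),
      s.Gd i p.1 p.2 := by
    have hf := s.good_cof hm
    obtain ⟨b, hb⟩ := hf.bddAbove
    filter_upwards [hW2 b] with i hi
    have : ∃ E D, s.Gd i E D := by
      by_contra hc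
      have := hb (show i ∈ {i | ¬ ∃ E D, s.Gd i E D} from hc)
      omega
    obtain ⟨E, D, h⟩ := this
    exact ⟨(E, D), Finset.mem_univ _, h⟩
  obtain ⟨⟨E, D⟩, -, g2⟩ := evS W _ _ g1
  simp only at g2
  have b0 : ∀ i, ∃ f, s.cl f = i ∧ s.res f = 0 := fun i => s.ne i 0
  have b1 : ∀ i, ∃ f, s.cl f = i ∧ s.res f = 1 := fun i => s.ne i 1
  choose F hF rF using b0
  choose G hG rG using b1
  have hED : E ≠ D := by
    obtain ⟨i, hi⟩ := g2.exists
    exact hi.ne
  -- class relations are uniform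
  have ue : ∀ i j, s.Gd i E D → s.Gd j E D → ∀ f g f' g', s.cl f = i → s.cl g = j →
      s.cl f' = i → s.cl g' = j → s.A E f g → s.A E f' g' := by
    intro i j hi hj f g f' g' h1 h2 h3 h4 h
    exact s.tr E _ _ _ (hi.e f' f h3 h1) (s.tr E _ _ _ h (hj.e g g' h2 h4))
  have ud : ∀ i j, s.Gd i E D → s.Gd j E D → ∀ f g f' g', s.cl f = i → s.cl g = j →
      s.cl f' = i → s.cl g' = j → ¬ s.A D f g → ¬ s.A D f' g' := by
    intro i j hi hj f g f' g' h1 h2 h3 h4 h
    exact s.ntr D _ _ _ (hi.d f' f h3 h1) (s.ntr D _ _ _ h (hj.d g g' h2 h4))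
  have notp : ∀ i, s.Gd i E D → ∀ f g, s.cl f = i → ¬ s.Tp D f g := by
    intro i hi f g hf h
    exact hi.d f f hf hf (s.tr D _ _ _ h.1 h.2)
  -- contradiction from a tie + in a tight voter for W-most pairs
  have contra : ¬ (∀ᶠ i in (W : Filter ℕ), ∀ᶠ j in (W : Filter ℕ),
      ∃ v ∈ (Finset.univ.filter fun v : Fin 5 => v ≠ E ∧ v ≠ D), s.Tp v (F i) (G j)) := by
    intro h
    obtain ⟨i, hi, v, hv, ht⟩ := tieU (fun v f g => s.Tp v f g) (fun v f g => s.Tp_symm v f g)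
      (fun v f g h => s.Tp_trans v f g h) _ W F G h (fun i => s.Gd i E D) g2
    simp only [Finset.mem_filter, Finset.mem_univ, true_and] at hv
    have := hi.t v hv.1 hv.2 (F i) (G i) (hF i) (hG i) (by rw [rF, rG]; decide)
    exact this.1 ht.1 ht.2
  -- merged in E
  have mE : ∃ i0, s.Gd i0 E D ∧ ∀ᶠ j in (W : Filter ℕ), s.Tp E (F i0) (F j) := by
    by_contra hc
    push Not at hc
    apply contra
    filter_upwards [g2] with i hi
    have h1 : ∀ᶠ j in (W : Filter ℕ), ¬ s.Tp E (F i) (F j) := hc i hi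
    filter_upwards [h1, g2, hW2 i] with j hj1 hj2 hij
    have hne : s.cl (F i) ≠ s.cl (G j) := by rw [hF, hG]; omega
    obtain ⟨v, ha, hb⟩ := meet5 _ _ (s.cross (F i) (G j) (Or.inl hne))
      (s.cross (G j) (F i) (Or.inl hne.symm))
    refine ⟨v, ?_, ha, hb⟩
    simp only [Finset.mem_filter, Finset.mem_univ, true_and]
    constructor
    · rintro rfl
      exact hj1 ⟨ue i j hi hj2 _ _ _ _ (hF i) (hG j) (hF i) (hF j) ha,
        ue j i hj2 hi _ _ _ _ (hG j) (hF i) (hF j) (hF i) hb⟩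
    · rintro rfl
      exact notp i hi _ _ (hF i) ⟨ha, hb⟩
  obtain ⟨i0, hi0, mE⟩ := mE
  -- the set of classes merged with i0
  set I : Set ℕ := {j | s.Gd j E D ∧ s.Tp E (F i0) (F j)} with hI
  have hIW : ∀ᶠ j in (W : Filter ℕ), j ∈ I := g2.and mE
  have eI : ∀ i ∈ I, ∀ j ∈ I, ∀ f g, s.cl f = i → s.cl g = j → s.A E f g := by
    intro i hi j hj f g hf hg
    have := s.Tp_trans E _ _ _ (s.Tp_symm E _ _ hi.2) hj.2
    exact ue i j hi.1 hj.1 (F i) (F j) f g (hF i) (hF j) hf hg this.1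
  -- distinct in D
  have mD : ∀ i ∈ I, ∀ᶠ j in (W : Filter ℕ), s.A D (F i) (F j) ∨ s.A D (F j) (F i) := by
    intro i hi
    by_contra hc
    have h1 : ∀ᶠ j in (W : Filter ℕ), ¬ (s.A D (F i) (F j) ∨ s.A D (F j) (F i)) :=
      Ultrafilter.eventually_not.2 hc
    apply contra
    have h2 : ∀ᶠ j in (W : Filter ℕ), j ∈ I ∧ ¬ s.A D (F i) (F j) ∧ ¬ s.A D (F j) (F i) := by
      filter_upwards [h1, hIW] with j hj1 hj2
      push Not at hj1
      exact ⟨hj2, hj1.1, hj1.2⟩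
    filter_upwards [h2] with j hj
    filter_upwards [h2, hW2 j] with k hk hjk
    have n1 : ¬ s.A D (F j) (F k) := s.ntr D _ _ _ hj.2.2 hk.2.1
    have n2 : ¬ s.A D (F k) (F j) := s.ntr D _ _ _ hk.2.2 hj.2.1
    have n3 := ud j k hj.1.1 hk.1.1 _ _ (F j) (G k) (hF j) (hF k) (hF j) (hG k) n1
    have n4 := ud k j hk.1.1 hj.1.1 _ _ (G k) (F j) (hF k) (hF j) (hG k) (hF j) n2
    have e1 := eI j hj.1 k hk.1 (F j) (G k) (hF j) (hG k)
    have e2 := eI k hk.1 j hj.1 (G k) (F j) (hG k) (hF j)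
    have hne : s.cl (F j) ≠ s.cl (G k) := by rw [hF, hG]; omega
    have c1 := s.cross (F j) (G k) (Or.inl hne)
    have c2 := s.cross (G k) (F j) (Or.inl hne.symm)
    rw [split5 E D hED] at c1 c2
    rw [if_pos e1, if_neg n3] at c1
    rw [if_pos e2, if_neg n4] at c2
    obtain ⟨v, w1, w2, w3, w4⟩ := meet3 E D hED (fun v => s.A v (F j) (G k))
      (fun v => s.A v (G k) (F j)) (by omega)
    exact ⟨v, by simp [w1, w2], w3, w4⟩
  -- an infinite sequence of pairwise distinct D-blocks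
  obtain ⟨c0, hc0, hc1⟩ := exists_seq_of_forall_finset_exists (fun i => i ∈ I)
    (fun i j => i < j ∧ (s.A D (F i) (F j) ∨ s.A D (F j) (F i))) (by
      intro T hT
      have h1 : ∀ᶠ j in (W : Filter ℕ), ∀ x ∈ T, x < j ∧
          (s.A D (F x) (F j) ∨ s.A D (F j) (F x)) := by
        rw [Filter.eventually_all_finset]
        intro x hx
        exact (hW2 x).and (mD x (hT x hx))
      obtain ⟨y, hy1, hy2⟩ := (hIW.and h1).exists
      exact ⟨y, hy1, hy2⟩)
  have tI : IsTrans ℕ (fun i j => s.A D (F i) (F j)) := ⟨fun i j k => s.tr D _ _ _⟩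
  obtain ⟨g, hg⟩ := exists_increasing_or_nonincreasing_subseq
    (fun i j => s.A D (F i) (F j)) c0
  have hmono : StrictMono fun n => c0 (g n) := by
    intro m n hmn
    exact (hc1 _ _ (g.lt_iff_lt.2 hmn)).1
  have gdn : ∀ n, s.Gd (c0 (g n)) E D := fun n => (hc0 (g n)).1
  refine ⟨fun n => c0 (g n), E, D, ∀ m n, m < n → s.A D (F (c0 (g m))) (F (c0 (g n))), ?_⟩
  refine ⟨hmono, gdn, ?_, ?_, ?_⟩
  · intro m n f g' hf hg'
    exact eI _ (hc0 (g m)) _ (hc0 (g n)) f g' hf hg'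
  · intro m n hmn f g' hf hg'
    constructor
    · intro h
      rcases hg with hg | hg
      · exact hg
      · exfalso
        exact ud _ _ (gdn m) (gdn n) _ _ f g' (hF _) (hF _) hf hg' (hg m n hmn) h
    · intro h
      by_contra hc
      exact ud _ _ (gdn m) (gdn n) _ _ _ _ hf hg' (hF _) (hF _) hc (h m n hmn)
  · intro m n hmn f g' hf hg'
    constructor
    · intro h hup
      have h1 : s.A D (F (c0 (g n))) (F (c0 (g m))) := by
        by_contra hc
        exact ud _ _ (gdn n) (gdn m) _ _ _ _ (hF _) (hF _) hg' hf hc h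
      exact notp _ (gdn m) _ _ (hF _) ⟨hup m n hmn, h1⟩
    · intro hup
      rcases hg with hg | hg
      · exact absurd hg hup
      · have h2 := (hc1 _ _ (g.lt_iff_lt.2 hmn)).2
        have h3 : s.A D (F (c0 (g n))) (F (c0 (g m))) := by
          rcases h2 with h2 | h2
          · exact absurd h2 (hg m n hmn)
          · exact h2
        by_contra hc
        exact ud _ _ (gdn n) (gdn m) _ _ _ _ hg' hf (hF _) (hF _) hc h3

/-- the 0/1 value of a proposition -/
private noncomputable def ii (P : Prop) : ℕ := if P then 1 else 0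

private lemma ii_le (P : Prop) : ii P ≤ 1 := by unfold ii; split_ifs <;> omega
private lemma ii_pos {P : Prop} (h : P) : ii P = 1 := by simp [ii, h]
private lemma ii_neg {P : Prop} (h : ¬ P) : ii P = 0 := by simp [ii, h]
private lemma ii_not (P : Prop) : ii (¬ P) + ii P = 1 := by
  by_cases h : P <;> simp [ii, h]
private lemma ii_one {P : Prop} (h : ii P = 1) : P := by
  by_contra hc; rw [ii_neg hc] at h; omega
private lemma ii_zero {P : Prop} (h : ii P = 0) : ¬ P := by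
  intro hc; rw [ii_pos hc] at h; omega

private lemma card_ii (Q : Fin 5 → Prop) [DecidablePred Q] :
    (Finset.univ.filter fun v => Q v).card = ∑ v, ii (Q v) := by
  rw [Finset.card_filter]
  apply Finset.sum_congr rfl
  intro v _
  by_cases h : Q v <;> simp [ii, h]

private lemma tri (P Q R : Prop) (t : P → Q → R) (n : ¬ P → ¬ Q → ¬ R) :
    ii P + ii Q ≤ ii R + 1 ∧ ii R ≤ ii P + ii Q := by
  by_cases hp : P <;> by_cases hq : Q <;> by_cases hr : R <;> simp_all [ii]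

/-- one voter on a class 3-cycle -/
private lemma voter (p p' q q' r r' : Prop) (t1 : p → q → r') (n1 : ¬ p → ¬ q → ¬ r')
    (t2 : q → r → p') (n2 : ¬ q → ¬ r → ¬ p') (t3 : r → p → q') (n3 : ¬ r → ¬ p → ¬ q')
    (t4 : q' → p' → r) (n4 : ¬ q' → ¬ p' → ¬ r) (t5 : p' → r' → q) (n5 : ¬ p' → ¬ r' → ¬ q)
    (t6 : r' → q' → p) (n6 : ¬ r' → ¬ q' → ¬ p) :
    ii p + ii (¬ p') + (ii q + ii (¬ q')) + (ii r + ii (¬ r')) ≤ 4 ∧
    (ii p + ii (¬ p') + (ii q + ii (¬ q')) + (ii r + ii (¬ r')) = 4 →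
      (p ↔ ¬ p') ∧ (q ↔ ¬ q') ∧ (r ↔ ¬ r') ∧ ii p + ii q + ii r = 2) := by
  by_cases hp : p <;> by_cases hp' : p' <;> by_cases hq : q <;> by_cases hq' : q' <;>
    by_cases hr : r <;> by_cases hr' : r' <;> simp_all [ii]

private lemma four (φ : Fin 5 → ℕ) (h4 : ∀ v, φ v ≤ 4) (hs : 18 ≤ ∑ v, φ v) (E : Fin 5)
    (hE : φ E ≤ 3) : ∃ D, E ≠ D ∧ ∀ v, v ≠ E → v ≠ D → φ v = 4 := by
  by_contra hc
  push Not at hc
  obtain ⟨v1, h1, -, h1'⟩ := hc (E + 1) (by
    have : ∀ a : Fin 5, a ≠ a + 1 := by decide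
    exact this E)
  obtain ⟨v2, h2, h2', h2''⟩ := hc v1 (Ne.symm h1)
  have k1 : φ v1 ≤ 3 := by have := h4 v1; omega
  have k2 : φ v2 ≤ 3 := by have := h4 v2; omega
  have : ∑ v, (φ v + (if v = E then 1 else 0) + (if v = v1 then 1 else 0) +
      (if v = v2 then 1 else 0)) ≤ ∑ v : Fin 5, 4 := by
    apply Finset.sum_le_sum
    intro v _
    by_cases e1 : v = E
    · subst e1
      rw [if_pos rfl, if_neg (Ne.symm h1), if_neg (Ne.symm h2)]; omega
    · by_cases e2 : v = v1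
      · subst e2
        rw [if_neg e1, if_pos rfl, if_neg (Ne.symm h2')]; omega
      · by_cases e3 : v = v2
        · subst e3
          rw [if_neg e1, if_neg e2, if_pos rfl]; omega
        · rw [if_neg e1, if_neg e2, if_neg e3]; have := h4 v; omega
  simp only [Finset.sum_add_distrib, Finset.sum_ite_eq', Finset.mem_univ, if_true,
    Finset.sum_const, Finset.card_univ, Fintype.card_fin, smul_eq_mul] at this
  omega

private lemma sum_split (E D : Fin 5) (hED : E ≠ D) (φ : Fin 5 → ℕ) :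
    ∑ v, φ v = φ E + φ D + ∑ v ∈ (Finset.univ \ {E, D} : Finset (Fin 5)), φ v := by
  rw [← Finset.sum_sdiff (Finset.subset_univ ({E, D} : Finset (Fin 5))), Finset.sum_pair hED]
  ring

/-- row (B) -/
theorem mixStmt : s.MixStmt := by
  intro x y z h1 h2 h3 h4 t1 t2 t3
  have h5 : s.res x = s.res z + 1 := by
    rw [h4, h3]; generalize s.res x = a; revert a; decide
  have a1 := s.arc1 x y h1 h3
  have a2 := s.arc2 x y h1 h3
  have a3 := s.arc1 y z h2 h4
  have a4 := s.arc2 y z h2 h4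
  have a5 := s.arc1 z x (h1.trans h2).symm h5
  have a6 := s.arc2 z x (h1.trans h2).symm h5
  rw [card_ii] at a1 a2 a3 a4 a5 a6
  have vt : ∀ v, _ := fun v => voter (s.A v x y) (s.A v y x) (s.A v y z) (s.A v z y) (s.A v z x)
    (s.A v x z) (s.tr v _ _ _) (s.ntr v _ _ _) (s.tr v _ _ _) (s.ntr v _ _ _) (s.tr v _ _ _)
    (s.ntr v _ _ _) (s.tr v _ _ _) (s.ntr v _ _ _) (s.tr v _ _ _) (s.ntr v _ _ _)
    (s.tr v _ _ _) (s.ntr v _ _ _)
  set φ : Fin 5 → ℕ := fun v => ii (s.A v x y) + ii (¬ s.A v y x) +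
    (ii (s.A v y z) + ii (¬ s.A v z y)) + (ii (s.A v z x) + ii (¬ s.A v x z)) with hφ
  have hs : 18 ≤ ∑ v, φ v := by
    simp only [hφ, Finset.sum_add_distrib]
    omega
  obtain ⟨E, hE⟩ := t1
  have notie : ∀ v, φ v = 4 → ¬ s.Tp v x y ∧ ¬ s.Tp v y z ∧ ¬ s.Tp v z x := by
    intro v hv
    obtain ⟨q1, q2, q3, -⟩ := (vt v).2 hv
    refine ⟨fun h => ?_, fun h => ?_, fun h => ?_⟩
    · exact q1.1 h.1 h.2
    · exact q2.1 h.1 h.2
    · exact q3.1 h.1 h.2
  have hE3 : φ E ≤ 3 := by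
    have := (vt E).1
    have h6 : φ E ≠ 4 := fun h => (notie E h).1 hE
    have : φ E ≤ 4 := (vt E).1
    omega
  obtain ⟨D, hED, hD⟩ := four φ (fun v => (vt v).1) hs E hE3
  -- sums over the three tight voters
  have tw : ∀ (Q : Fin 5 → Prop), ∑ v ∈ (Finset.univ \ {E, D} : Finset (Fin 5)), ii (Q v) =
      (Finset.univ.filter fun v => v ≠ E ∧ v ≠ D ∧ Q v).card := by
    intro Q
    have := split5 E D hED Q
    rw [card_ii, sum_split E D hED] at this
    have e1 : ii (Q E) = if Q E then 1 else 0 := rfl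
    have e2 : ii (Q D) = if Q D then 1 else 0 := rfl
    omega
  have mt : ∀ v ∈ (Finset.univ \ {E, D} : Finset (Fin 5)), v ≠ E ∧ v ≠ D := by
    intro v hv
    simpa using hv
  have eqs : ∀ (Q R : Fin 5 → Prop), (∀ v, v ≠ E → v ≠ D → (Q v ↔ R v)) →
      ∑ v ∈ (Finset.univ \ {E, D} : Finset (Fin 5)), ii (Q v) =
      ∑ v ∈ (Finset.univ \ {E, D} : Finset (Fin 5)), ii (R v) := by
    intro Q R h
    apply Finset.sum_congr rfl
    intro v hv
    rw [propext (h v (mt v hv).1 (mt v hv).2)]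
  have f1 := eqs (fun v => s.A v x y) (fun v => ¬ s.A v y x)
    (fun v q1 q2 => ((vt v).2 (hD v q1 q2)).1)
  have f2 := eqs (fun v => s.A v y z) (fun v => ¬ s.A v z y)
    (fun v q1 q2 => ((vt v).2 (hD v q1 q2)).2.1)
  have f3 := eqs (fun v => s.A v z x) (fun v => ¬ s.A v x z)
    (fun v q1 q2 => ((vt v).2 (hD v q1 q2)).2.2.1)
  have f4 : ∑ v ∈ (Finset.univ \ {E, D} : Finset (Fin 5)), ii (s.A v x y) +
      ∑ v ∈ (Finset.univ \ {E, D} : Finset (Fin 5)), ii (s.A v y z) +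
      ∑ v ∈ (Finset.univ \ {E, D} : Finset (Fin 5)), ii (s.A v z x) = 6 := by
    rw [← Finset.sum_add_distrib, ← Finset.sum_add_distrib]
    have : ∀ v ∈ (Finset.univ \ {E, D} : Finset (Fin 5)),
        ii (s.A v x y) + ii (s.A v y z) + ii (s.A v z x) = 2 := by
      intro v hv
      exact ((vt v).2 (hD v (mt v hv).1 (mt v hv).2)).2.2.2
    rw [Finset.sum_congr rfl this, Finset.sum_const,
      Finset.card_sdiff_of_subset (Finset.subset_univ _), Finset.card_pair hED]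
    simp
  rw [sum_split E D hED] at a1 a2 a3 a4 a5 a6

  have dir : ∀ a b, (∃ v, s.Tp v a b) → (∀ v, φ v = 4 → ¬ s.Tp v a b) →
      s.Tp E a b ∨ s.Tp D a b := by
    rintro a b ⟨v, hv⟩ hn
    by_cases hvE : v = E
    · subst hvE; exact Or.inl hv
    · by_cases hvD : v = D
      · subst hvD; exact Or.inr hv
      · exact absurd hv (hn v (hD v hvE hvD))
  have t2 := dir y z t2 (fun v hv => (notie v hv).2.1)
  have t3 := dir z x t3 (fun v hv => (notie v hv).2.2)
  -- all numerical facts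
  have nE1 := ii_not (s.A E y x)
  have nE2 := ii_not (s.A E z y)
  have nE3 := ii_not (s.A E x z)
  have nD1 := ii_not (s.A D y x)
  have nD2 := ii_not (s.A D z y)
  have nD3 := ii_not (s.A D x z)
  have lE1 := ii_le (s.A E x y)
  have lE2 := ii_le (s.A E y z)
  have lE3 := ii_le (s.A E z x)
  have lD1 := ii_le (s.A D x y)
  have lD2 := ii_le (s.A D y z)
  have lD3 := ii_le (s.A D z x)
  have tE1 := tri _ _ _ (s.tr E x y z) (s.ntr E x y z)
  have tE2 := tri _ _ _ (s.tr E y z x) (s.ntr E y z x)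
  have tE3 := tri _ _ _ (s.tr E z x y) (s.ntr E z x y)
  have tE4 := tri _ _ _ (s.tr E z y x) (s.ntr E z y x)
  have tE5 := tri _ _ _ (s.tr E y x z) (s.ntr E y x z)
  have tE6 := tri _ _ _ (s.tr E x z y) (s.ntr E x z y)
  have tD1 := tri _ _ _ (s.tr D x y z) (s.ntr D x y z)
  have tD2 := tri _ _ _ (s.tr D y z x) (s.ntr D y z x)
  have tD3 := tri _ _ _ (s.tr D z x y) (s.ntr D z x y)
  have tD4 := tri _ _ _ (s.tr D z y x) (s.ntr D z y x)
  have tD5 := tri _ _ _ (s.tr D y x z) (s.ntr D y x z)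
  have tD6 := tri _ _ _ (s.tr D x z y) (s.ntr D x z y)
  have bE1 := ii_pos hE.1
  have bE2 := ii_pos hE.2
  have g1 := tw (fun v => s.A v x y)
  have g2 := tw (fun v => s.A v y z)
  have g3 := tw (fun v => s.A v z x)

  have fin : ii (s.A E x y) = 1 ∧ ii (s.A E y x) = 1 ∧ ii (s.A E y z) = 1 ∧ ii (s.A E z y) = 1 ∧
      ii (s.A E z x) = 1 ∧ ii (s.A E x z) = 1 ∧ ii (s.A D x y) = 0 ∧ ii (s.A D y x) = 0 ∧
      ii (s.A D y z) = 0 ∧ ii (s.A D z y) = 0 ∧
      ii (s.A D z x) = 0 ∧ ii (s.A D x z) = 0 := by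
    rcases t2 with t2 | t2 <;> rcases t3 with t3 | t3 <;>
    · have c1 := ii_pos t2.1
      have c2 := ii_pos t2.2
      have c3 := ii_pos t3.1
      have c4 := ii_pos t3.2
      clear hs vt hD notie hE3 dir
      omega
  obtain ⟨k1, k2, k3, k4, k5, k6, k7, k8, k9, k10, k11, k12⟩ := fin
  refine ⟨E, D, hED, ⟨ii_one k1, ii_one k2, ii_one k3, ii_one k4, ii_one k5, ii_one k6⟩,
    ⟨ii_zero k7, ii_zero k8, ii_zero k9, ii_zero k10, ii_zero k11, ii_zero k12⟩, ?_, ?_, ?_, ?_⟩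
  · intro v q1 q2
    have := (vt v).2 (hD v q1 q2)
    exact ⟨this.1, this.2.1, this.2.2.1⟩
  · omega
  · omega
  · omega

end Sys99

end MCG.R99

namespace MCG

open scoped Classical

private lemma cnt_eq99 (p : Fin 5 → Prop) [DecidablePred p] :
    cnt p = (Finset.univ.filter p).card := by
  unfold cnt
  congr

/-- rows R4, R5 -/
theorem exists_out {T : Type} (S : Sys T) :
    ∃ (c : ℕ → ℕ) (E D : Fin 5) (up : Prop), Out S c E D up := by
  let s : R99.Sys99 T :=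
    { A := S.A, cl := S.cl, res := S.res, tr := S.tr, ntr := S.ntr
      cross := fun f g h => by
        have := S.cross f g h
        rwa [cnt_eq99] at this
      arc1 := fun f g h1 h2 => by
        have := S.arc1 f g h1 h2
        rwa [cnt_eq99] at this
      arc2 := fun f g h1 h2 => by
        have := S.arc2 f g h1 h2
        rwa [cnt_eq99] at this
      ne := S.ne }
  obtain ⟨c, E, D, up, H⟩ := s.outD s.mixStmt
  have hED : E ≠ D := (H.gd 0).ne
  have sp : ∀ Q : Fin 5 → Prop, cnt Q = (if Q E then 1 else 0) + (if Q D then 1 else 0) +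
      cnt (fun v => v ≠ E ∧ v ≠ D ∧ Q v) := by
    intro Q
    rw [cnt_eq99, cnt_eq99]
    exact R99.Sys99.split5 E D hED Q
  have dE : ∀ i j f g, S.cl f = c i → S.cl g = c j → S.A E f g := H.e
  have dD : ∀ i f g, S.cl f = c i → S.cl g = c i → ¬ S.A D f g := fun i f g => (H.gd i).d f g
  have hne : ∀ i j, i < j → c i ≠ c j := fun i j h => (H.mono h).ne
  have cr : ∀ f g, (S.cl f ≠ S.cl g ∨ S.res f = S.res g) → 3 ≤ cnt (fun v => S.A v f g) := S.cross
  refine ⟨c, E, D, up, H.mono, hED, dE, dD, fun i j f g h => H.d1 i j h f g,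
    fun i j f g h => H.d2 i j h f g, fun i v f g h1 h2 h3 h4 h5 => (H.gd i).t v h1 h2 f g h3 h4 h5,
    ?_, ?_, ?_, ?_, ?_, ?_, ?_⟩
  · intro i f g hf hg hr
    have h1 := cr f g (Or.inr hr)
    rw [sp, if_pos (dE i i f g hf hg), if_neg (dD i f g hf hg)] at h1
    omega
  · intro i f g hf hg hr
    have := (H.gd i).c f g hf hg hr
    rw [cnt_eq99]
    exact this
  · intro i f g hf hg hr
    have h1 := (H.gd i).c f g hf hg hr
    have h1 : cnt (fun v => v ≠ E ∧ v ≠ D ∧ S.A v f g) = 2 := by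
      rw [cnt_eq99]
      exact h1
    have h2 := sp (fun v => S.A v f g)
    have h3 := sp (fun v => ¬ S.A v f g)
    have h4 : cnt (fun v => S.A v f g) + cnt (fun v => ¬ S.A v f g) = 5 := by
      rw [cnt_eq99, cnt_eq99]
      have := Finset.card_filter_add_card_filter_not (s := (Finset.univ : Finset (Fin 5)))
        (fun v => S.A v f g)
      rw [this]; rfl
    have h5 : cnt (fun v => v ≠ E ∧ v ≠ D ∧ ¬ S.A v f g) =
        cnt (fun v => v ≠ E ∧ v ≠ D ∧ S.A v g f) := by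
      congr 1
      funext v
      have hr' : S.res f ≠ S.res g := by
        rw [hr]; generalize S.res f = a; revert a; decide
      have := (H.gd i).t v
      apply propext
      constructor
      · rintro ⟨q1, q2, q3⟩
        refine ⟨q1, q2, ?_⟩
        by_contra hc
        exact q3 ((this q1 q2 f g hf hg hr').2 hc)
      · rintro ⟨q1, q2, q3⟩
        exact ⟨q1, q2, fun h => (this q1 q2 f g hf hg hr').1 h q3⟩
    rw [if_pos (dE i i f g hf hg), if_neg (dD i f g hf hg)] at h2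
    rw [if_neg (not_not.2 (dE i i f g hf hg)), if_pos (dD i f g hf hg)] at h3
    omega
  · intro hup i j f g h hf hg
    have h1 := cr f g (Or.inl (by rw [hf, hg]; exact hne i j h))
    rw [sp, if_pos (dE i j f g hf hg), if_pos ((H.d1 i j h f g hf hg).2 hup)] at h1
    omega
  · intro hup i j f g h hf hg
    have h1 := cr g f (Or.inl (by rw [hf, hg]; exact (hne i j h).symm))
    rw [sp, if_pos (dE j i g f hg hf),
      if_neg (fun h2 => (H.d2 i j h f g hf hg).1 h2 hup)] at h1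
    omega
  · intro hup i j f g h hf hg
    have h1 := cr g f (Or.inl (by rw [hf, hg]; exact (hne i j h).symm))
    rw [sp, if_pos (dE j i g f hg hf), if_pos ((H.d2 i j h f g hf hg).2 hup)] at h1
    omega
  · intro hup i j f g h hf hg
    have h1 := cr f g (Or.inl (by rw [hf, hg]; exact hne i j h))
    rw [sp, if_pos (dE i j f g hf hg),
      if_neg (fun h2 => hup ((H.d1 i j h f g hf hg).1 h2))] at h1
    omega

end MCG
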