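import Pool.Agent.MCG.Tourn17

/-!
# Row R1b (helper17): the predictability of `T(N)` is `2 / 3`
-/

set_option autoImplicit false
set_option linter.unusedVariables false

namespace MCG

/-- double counting along translations -/
theorem count17 {G H : Type} [AddGroup G] [Fintype G] [Fintype H] (h : H → G) (P : G → Prop)
    (k : ℕ) (hk : ∀ φ, k ≤ Nat.card {s : H // P (φ + h s)}) :
    k * Nat.card G ≤ Nat.card H * Nat.card {φ : G // P φ} := by
  classical
  have e1 : ∀ φ, Nat.card {s : H // P (φ + h s)} = ∑ s : H, if P (φ + h s) then 1 else 0 := by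
    intro φ
    rw [Nat.card_eq_fintype_card, Fintype.card_subtype, Finset.card_filter]
  have e2 : Nat.card {φ : G // P φ} = ∑ φ : G, if P φ then 1 else 0 := by
    rw [Nat.card_eq_fintype_card, Fintype.card_subtype, Finset.card_filter]
  have e3 : ∀ s : H, (∑ φ : G, if P (φ + h s) then 1 else 0) = ∑ φ : G, if P φ then 1 else 0 := by
    intro s
    exact Fintype.sum_equiv (Equiv.addRight (h s)) _ _ fun φ => rfl
  calc k * Nat.card G = ∑ φ : G, k := by
        rw [Finset.sum_const, Finset.card_univ, Nat.card_eq_fintype_card, smul_eq_mul, mul_comm]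
    _ ≤ ∑ φ : G, ∑ s : H, (if P (φ + h s) then 1 else 0) :=
        Finset.sum_le_sum fun φ _ => (hk φ).trans (e1 φ).le
    _ = ∑ s : H, ∑ φ : G, (if P (φ + h s) then 1 else 0) := Finset.sum_comm
    _ = ∑ s : H, Nat.card {φ : G // P φ} := by
        refine Finset.sum_congr rfl fun s _ => ?_
        rw [e3 s, e2]
    _ = Nat.card H * Nat.card {φ : G // P φ} := by
        rw [Finset.sum_const, Finset.card_univ, Nat.card_eq_fintype_card (α := H), smul_eq_mul]

/-- the block of a vertex in the voter `φ` -/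
def blk17 {N : ℕ} (φ : Fin N → ZMod 3) (u : FV N) : ℕ := (u.1.2.2 + φ u.1.1).val

/-- the order of the voter `φ`: block, then level, then arc -/
def ord17 {N : ℕ} (φ : Fin N → ZMod 3) (u w : FV N) : Prop :=
  blk17 φ u < blk17 φ w ∨ (blk17 φ u = blk17 φ w ∧ (lev (emb N u) < lev (emb N w) ∨
    (lev (emb N u) = lev (emb N w) ∧ arcN N u w)))

theorem blk_inj17 {N : ℕ} (φ : Fin N → ZMod 3) {u w : FV N} (h : blk17 φ u = blk17 φ w)
    (hc : u.1.1 = w.1.1) : u.1.2.2 = w.1.2.2 := by
  unfold blk17 at h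
  rw [hc] at h
  exact add_right_cancel (ZMod.val_injective 3 h)

theorem same17 {N : ℕ} (φ : Fin N → ZMod 3) {u w : FV N} (h : blk17 φ u = blk17 φ w)
    (hc : u.1.1 = w.1.1) (hl : lev (emb N u) = lev (emb N w)) : u = w := by
  apply emb_inj17 N
  apply lev_inj17 hl
  · simp [emb, hc]
  · exact blk_inj17 φ h hc

theorem no_three17 {N : ℕ} (φ : Fin N → ZMod 3) {u w x : FV N} (h1 : blk17 φ u = blk17 φ w)
    (h2 : blk17 φ w = blk17 φ x) (l1 : lev (emb N u) = lev (emb N w))
    (l2 : lev (emb N w) = lev (emb N x)) (a1 : arcN N u w) (a2 : arcN N w x) : False := by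
  have T := arcN_tourn N
  have c1 : u.1.1 ≠ w.1.1 := fun hc => by
    have := same17 φ h1 hc l1
    rw [this] at a1
    exact T.irr _ a1
  have c2 : w.1.1 ≠ x.1.1 := fun hc => by
    have := same17 φ h2 hc l2
    rw [this] at a2
    exact T.irr _ a2
  have hux : u.1.1 = x.1.1 := by
    have e1 := lev_eq17 l1
    have e2 := lev_eq17 l2
    have c1' : (u.1.1 : ℕ) ≠ (w.1.1 : ℕ) := fun h => c1 (Fin.ext h)
    have c2' : (w.1.1 : ℕ) ≠ (x.1.1 : ℕ) := fun h => c2 (Fin.ext h)
    simp only [emb] at e1 e2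
    apply Fin.ext
    omega
  have := same17 φ (h1.trans h2) hux (l1.trans l2)
  rw [this] at a1
  exact T.asymm _ _ a1 a2

theorem ord_trans17 {N : ℕ} (φ : Fin N → ZMod 3) (u w x : FV N) (h1 : ord17 φ u w)
    (h2 : ord17 φ w x) : ord17 φ u x := by
  rcases h1 with h1 | ⟨h1, h1'⟩
  · rcases h2 with h2 | ⟨h2, -⟩
    · exact Or.inl (h1.trans h2)
    · exact Or.inl (h2 ▸ h1)
  · rcases h2 with h2 | ⟨h2, h2'⟩
    · exact Or.inl (h1 ▸ h2)
    · refine Or.inr ⟨h1.trans h2, ?_⟩
      rcases h1' with l1 | ⟨l1, a1⟩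
      · rcases h2' with l2 | ⟨l2, -⟩
        · exact Or.inl (l1.trans l2)
        · exact Or.inl (l2 ▸ l1)
      · rcases h2' with l2 | ⟨l2, a2⟩
        · exact Or.inl (l1 ▸ l2)
        · exact (no_three17 φ h1 h2 l1 l2 a1 a2).elim

theorem ord_total17 {N : ℕ} (φ : Fin N → ZMod 3) (u w : FV N) (h : u ≠ w) :
    ord17 φ u w ∨ ord17 φ w u := by
  rcases lt_trichotomy (blk17 φ u) (blk17 φ w) with h1 | h1 | h1
  · exact Or.inl (Or.inl h1)
  · rcases lt_trichotomy (lev (emb N u)) (lev (emb N w)) with h2 | h2 | h2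
    · exact Or.inl (Or.inr ⟨h1, Or.inl h2⟩)
    · rcases (arcN_tourn N).tot u w h with h3 | h3
      · exact Or.inl (Or.inr ⟨h1, Or.inr ⟨h2, h3⟩⟩)
      · exact Or.inr (Or.inr ⟨h1.symm, Or.inr ⟨h2.symm, h3⟩⟩)
    · exact Or.inr (Or.inr ⟨h1.symm, Or.inl h2⟩)
  · exact Or.inr (Or.inl h1)

/-- the voter `φ` -/
def vot17 {N : ℕ} (φ : Fin N → ZMod 3) : Voter (FV N) :=
  Voter.mk17 (ord17 φ)
    (fun u h => by
      rcases h with h | ⟨-, h | ⟨-, h⟩⟩
      · exact lt_irrefl _ h
      · exact lt_irrefl _ h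
      · exact (arcN_tourn N).irr _ h)
    (ord_trans17 φ) (ord_total17 φ)

theorem dec1_17 : ∀ x : ZMod 3,
    2 ≤ (Finset.univ.filter fun s : ZMod 3 => (x + s).val < (x + 1 + s).val).card := by decide

theorem dec2_17 : ∀ x y : ZMod 3,
    6 ≤ (Finset.univ.filter fun s : ZMod 3 × ZMod 3 => (x + s.1).val ≤ (y + s.2).val).card := by
  decide

theorem card_vot17 {N : ℕ} {u w : FV N} (h : arcN N u w) :
    2 * Nat.card (Fin N → ZMod 3) ≤ 3 * Nat.card {φ : Fin N → ZMod 3 // (vot17 φ).1 u w} := by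
  classical
  by_cases hc : u.1.1 = w.1.1
  · by_cases hr : u.1.2.2 = w.1.2.2
    · have h0 := h
      have hl : lev (emb N u) < lev (emb N w) := by
        rcases h with ⟨-, h⟩ | ⟨-, h | ⟨h, -⟩⟩
        · exact ((z3b17 _ _ h).2 hr).elim
        · exact h
        · exfalso
          have : u = w := by
            apply emb_inj17 N
            apply lev_inj17 h
            · simp [emb, hc]
            · exact hr
          subst this
          exact (arcN_tourn N).irr _ h0
      have hall : ∀ φ : Fin N → ZMod 3, (vot17 φ).1 u w := by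
        intro φ
        refine Or.inr ⟨?_, Or.inl hl⟩
        unfold blk17
        rw [hc, hr]
      have e : Nat.card {φ : Fin N → ZMod 3 // (vot17 φ).1 u w} = Nat.card (Fin N → ZMod 3) :=
        Nat.card_congr (Equiv.subtypeUnivEquiv hall)
      rw [e]
      omega
    · have hr' : w.1.2.2 = u.1.2.2 + 1 := by
        rcases h with ⟨-, h⟩ | ⟨h, -⟩
        · exact h
        · exact (h ⟨by simp [emb, hc], hr⟩).elim
      have := count17 (G := Fin N → ZMod 3) (H := ZMod 3) (fun s => Pi.single u.1.1 s)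
        (fun φ => (vot17 φ).1 u w) 2 (by
          intro φ
          rw [Nat.card_eq_fintype_card, Fintype.card_subtype]
          refine (dec1_17 (u.1.2.2 + φ u.1.1)).trans (Finset.card_le_card ?_)
          intro s hs
          rw [Finset.mem_filter] at hs ⊢
          refine ⟨Finset.mem_univ _, Or.inl ?_⟩
          unfold blk17
          rw [← hc, hr']
          have e1 : u.1.2.2 + (φ + (Pi.single u.1.1 s : Fin N → ZMod 3)) u.1.1 =
              u.1.2.2 + φ u.1.1 + s := by
            simp [add_assoc]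
          have e2 : u.1.2.2 + 1 + (φ + (Pi.single u.1.1 s : Fin N → ZMod 3)) u.1.1 =
              u.1.2.2 + φ u.1.1 + 1 + s := by
            simp only [Pi.add_apply, Pi.single_eq_same]
            ring
          rw [e1, e2]
          exact hs.2)
      simpa using this
  · have hl : lev (emb N u) < lev (emb N w) ∨ (lev (emb N u) = lev (emb N w) ∧ arcN N u w) := by
      rcases h with ⟨h', -⟩ | ⟨h', h'' | ⟨h'', h3⟩⟩
      · exact (hc (Fin.ext h')).elim
      · exact Or.inl h''
      · exact Or.inr ⟨h'', Or.inr ⟨h', Or.inr ⟨h'', h3⟩⟩⟩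
    have hc' : w.1.1 ≠ u.1.1 := fun h => hc h.symm
    have := count17 (G := Fin N → ZMod 3) (H := ZMod 3 × ZMod 3)
      (fun s => Pi.single u.1.1 s.1 + Pi.single w.1.1 s.2)
      (fun φ => (vot17 φ).1 u w) 6 (by
        intro φ
        rw [Nat.card_eq_fintype_card, Fintype.card_subtype]
        refine (dec2_17 (u.1.2.2 + φ u.1.1) (w.1.2.2 + φ w.1.1)).trans (Finset.card_le_card ?_)
        intro s hs
        rw [Finset.mem_filter] at hs ⊢
        refine ⟨Finset.mem_univ _, ?_⟩
        have e1 : blk17 (φ + (Pi.single u.1.1 s.1 + Pi.single w.1.1 s.2)) u =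
            (u.1.2.2 + φ u.1.1 + s.1).val := by
          unfold blk17
          congr 1
          simp [add_assoc, Pi.single_eq_of_ne hc]
        have e2 : blk17 (φ + (Pi.single u.1.1 s.1 + Pi.single w.1.1 s.2)) w =
            (w.1.2.2 + φ w.1.1 + s.2).val := by
          unfold blk17
          congr 1
          simp [add_assoc, Pi.single_eq_of_ne hc']
        have h6 := hs.2
        rw [← e1, ← e2] at h6
        rcases h6.lt_or_eq with h7 | h7
        · exact Or.inl h7
        · exact Or.inr ⟨h7, hl⟩)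
    have h9 : Nat.card (ZMod 3 × ZMod 3) = 9 := by
      rw [Nat.card_prod]
      simp
    rw [h9] at this
    omega

theorem arcN_list17 (N : ℕ) : ∃ m : ℕ, 1 ≤ m ∧ ∃ τ : Fin m → Voter (FV N),
    InducesAt (arcN N) (2 / 3) τ := by
  refine exists_list17 (fun φ : Fin N → ZMod 3 => vot17 φ) (arcN N) (2 / 3) ?_
  intro u w h
  have e := card_vot17 h
  have e' : ((2 * Nat.card (Fin N → ZMod 3) : ℕ) : ℝ) ≤
      ((3 * Nat.card {φ : Fin N → ZMod 3 // (vot17 φ).1 u w} : ℕ) : ℝ) := by exact_mod_cast e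
  push_cast at e'
  linarith

theorem arcN_pred (N : ℕ) (hN : 1 ≤ N) : IsPred (arcN N) (2 / 3) := by
  have z : Fin N := ⟨0, hN⟩
  refine isPred17 (x := ((z, z, 0), z)) (y := ((z, z, 1), z)) (z := ((z, z, 2), z))
    ?_ ?_ ?_ (arcN_list17 N)
  · exact Or.inl ⟨rfl, show (1 : ZMod 3) = 0 + 1 by decide⟩
  · exact Or.inl ⟨rfl, show (2 : ZMod 3) = 1 + 1 by decide⟩
  · exact Or.inl ⟨rfl, show (0 : ZMod 3) = 2 + 1 by decide⟩

end MCG
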