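import Pool.Agent.MCG.Asm19
import Pool.Agent.MCG.Compact91
import Pool.Agent.MCG.Out99
import Pool.Agent.MCG.Pred17

/-!
MP_3d3f53_co: the final theorem, all rows put together.
-/

set_option autoImplicit false

namespace MCG

/-- There is a finite tournament with predictability `2/3` and McGarvey number larger than 5. -/
theorem main19 : ∃ (V : Type) (_ : Fintype V) (E : V → V → Prop),
    IsTourn E ∧ IsPred E (2 / 3) ∧ 5 < mcgarvey E :=
  asm19 compact (fun S => exists_out S) arcN_pred

end MCG
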