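import Pool.Agent.MCG.Defs
import Pool.Agent.MCG.Ram98
import Pool.Agent.MCG.Five53

/-!
# Row R4: step (B) `mix` and step (A) `tieRam` (helper53)
-/

set_option autoImplicit false

namespace MCG

theorem cnt_eq53 (q : Fin 5 → Prop) (inst : DecidablePred q) :
    cnt q = (@Finset.filter (Fin 5) q inst Finset.univ).card := by
  unfold cnt
  rw [Subsingleton.elim inst (fun a => Classical.propDecidable (q a))]

open Classical in
theorem cnt_eq_sum53 (p : Fin 5 → Prop) : ∑ v, (decide (p v)).toNat = cnt p := by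
  unfold cnt
  rw [Finset.card_filter]
  refine Finset.sum_congr rfl fun v _ => ?_
  by_cases h : p v <;> simp [h]

open Classical in
theorem cnt_erase53 (p : Fin 5 → Prop) (E D : Fin 5) :
    cnt (fun v => v ≠ E ∧ v ≠ D ∧ p v) =
      ∑ v ∈ (Finset.univ.erase E).erase D, (decide (p v)).toNat := by
  rw [cnt_eq53 _ (fun v => inferInstance)]
  have h1 : (Finset.univ.filter (fun v => v ≠ E ∧ v ≠ D ∧ p v)) =
      ((Finset.univ.erase E).erase D).filter p := by
    ext v
    simp only [Finset.mem_filter, Finset.mem_univ, true_and, Finset.mem_erase, and_true]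
    tauto
  have h2 : (((Finset.univ.erase E).erase D).filter p).card =
      ∑ v ∈ (Finset.univ.erase E).erase D, (decide (p v)).toNat := by
    rw [Finset.card_filter]
    refine Finset.sum_congr rfl fun v _ => ?_
    by_cases h : p v <;> simp [h]
  rw [← h2, ← h1]

/-- Two properties with at least three voters each have a common voter. -/
theorem cnt_inter53 (p q : Fin 5 → Prop) (hp : 3 ≤ cnt p) (hq : 3 ≤ cnt q) : ∃ v, p v ∧ q v := by
  classical
  by_contra hc
  push Not at hc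
  have h1 : Disjoint (Finset.univ.filter p) (Finset.univ.filter q) :=
    Finset.disjoint_left.2 fun v h1 h2 => hc v (by simpa using h1) (by simpa using h2)
  have h2 := Finset.card_union_of_disjoint h1
  have h3 := Finset.card_le_univ (Finset.univ.filter p ∪ Finset.univ.filter q)
  have h4 := cnt_eq53 p (fun v => inferInstance)
  have h5 := cnt_eq53 q (fun v => inferInstance)
  simp only [Fintype.card_fin] at h3
  omega

/-- **Step (B)**: three types of one class with residues `a, a + 1, a + 2`, every two of them tied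
upwards by some voter. -/
theorem mix53 {T : Type} (S : Sys T) (f0 f1 f2 : T) (c01 : S.cl f0 = S.cl f1)
    (c12 : S.cl f1 = S.cl f2) (r1 : S.res f1 = S.res f0 + 1) (r2 : S.res f2 = S.res f1 + 1)
    (t01 : ∃ v, S.A v f0 f1 ∧ S.A v f1 f0) (t12 : ∃ v, S.A v f1 f2 ∧ S.A v f2 f1)
    (t20 : ∃ v, S.A v f2 f0 ∧ S.A v f0 f2) :
    ∃ E D : Fin 5, E ≠ D ∧
      (S.A E f0 f1 ∧ S.A E f1 f2 ∧ S.A E f2 f0 ∧ S.A E f1 f0 ∧ S.A E f2 f1 ∧ S.A E f0 f2) ∧
      (¬ S.A D f0 f1 ∧ ¬ S.A D f1 f2 ∧ ¬ S.A D f2 f0 ∧ ¬ S.A D f1 f0 ∧ ¬ S.A D f2 f1 ∧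
        ¬ S.A D f0 f2) ∧
      (∀ v, v ≠ E → v ≠ D → (S.A v f1 f0 ↔ ¬ S.A v f0 f1) ∧ (S.A v f2 f1 ↔ ¬ S.A v f1 f2) ∧
        (S.A v f0 f2 ↔ ¬ S.A v f2 f0)) ∧
      cnt (fun v => v ≠ E ∧ v ≠ D ∧ S.A v f0 f1) = 2 ∧
      cnt (fun v => v ≠ E ∧ v ≠ D ∧ S.A v f1 f2) = 2 ∧
      cnt (fun v => v ≠ E ∧ v ≠ D ∧ S.A v f2 f0) = 2 := by
  classical
  have c20 : S.cl f2 = S.cl f0 := by rw [c01, c12]
  have r0 : S.res f0 = S.res f2 + 1 := by
    rw [r2, r1]
    have h : (1 : ZMod 3) + 1 + 1 = 0 := by decide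
    have h' : S.res f0 + 1 + 1 + 1 = S.res f0 + (1 + 1 + 1) := by ring
    rw [h', h, add_zero]
  have hdec : ∀ p q : Prop, decide p = decide q ↔ (p ↔ q) := fun p q => by simp
  have hb : ∀ v f g h, (decide (S.A v f g) = decide (S.A v g h) → decide (S.A v f h) = decide (S.A v f g)) := by
    intro v f g h e
    rw [hdec] at e ⊢
    by_cases x : S.A v f g
    · exact iff_of_true (S.tr v f g h x (e.1 x)) x
    · exact iff_of_false (S.ntr v f g h x fun y => x (e.2 y)) x
  obtain ⟨E, D, hED, hE, hD, hT, s1, s2, s3⟩ := five53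
    (fun v => decide (S.A v f0 f1)) (fun v => decide (S.A v f1 f2)) (fun v => decide (S.A v f2 f0))
    (fun v => decide (S.A v f1 f0)) (fun v => decide (S.A v f2 f1)) (fun v => decide (S.A v f0 f2))
    (fun v => ⟨hb v f0 f1 f2, hb v f1 f2 f0, hb v f2 f0 f1, hb v f1 f0 f2, hb v f0 f2 f1,
      fun e => by rw [hb v f2 f1 f0 e, e]⟩)
    (by rw [cnt_eq_sum53]; exact S.arc1 f0 f1 c01 r1)
    (by rw [cnt_eq_sum53]; exact S.arc1 f1 f2 c12 r2)
    (by rw [cnt_eq_sum53]; exact S.arc1 f2 f0 c20 r0)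
    (by
      have := S.arc2 f0 f1 c01 r1
      rw [← cnt_eq_sum53] at this
      simpa using this)
    (by
      have := S.arc2 f1 f2 c12 r2
      rw [← cnt_eq_sum53] at this
      simpa using this)
    (by
      have := S.arc2 f2 f0 c20 r0
      rw [← cnt_eq_sum53] at this
      simpa using this)
    (by simpa using t01) (by simpa using t12) (by simpa using t20)
  simp only [decide_eq_true_eq, decide_eq_false_iff_not] at hE hD
  have hnot : ∀ p q : Prop, decide p = !decide q → (p ↔ ¬ q) := by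
    intro p q h
    by_cases hq : q
    · rw [decide_eq_true hq] at h
      exact iff_of_false (by simpa using h) fun k => k hq
    · rw [decide_eq_false hq] at h
      exact iff_of_true (by simpa using h) hq
  refine ⟨E, D, hED, hE, hD, fun v hvE hvD => ?_, ?_, ?_, ?_⟩
  · obtain ⟨x, y, z⟩ := hT v hvE hvD
    refine ⟨?_, ?_, ?_⟩
    · exact hnot _ _ x
    · exact hnot _ _ y
    · exact hnot _ _ z
  · rw [cnt_erase53]; exact s1
  · rw [cnt_erase53]; exact s2
  · rw [cnt_erase53]; exact s3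

/-- **Step (A)**: `P v` symmetric and transitive relations, `Sv` a set of voters; if for all `i < j`
of an infinite set `I` of indices some voter of `Sv` relates `F i` to `G j`, then some `i ∈ I`
and some voter of `Sv` relate `F i` to `G i`. -/
theorem tieRam53 {T : Type} (P : Fin 5 → T → T → Prop) (hs : ∀ v f g, P v f g → P v g f)
    (ht : ∀ v f g h, P v f g → P v g h → P v f h) (Sv : Fin 5 → Prop) (I : Set ℕ)
    (hI : I.Infinite) (F G : ℕ → T)
    (h : ∀ i ∈ I, ∀ j ∈ I, i < j → ∃ v, Sv v ∧ P v (F i) (G j)) :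
    ∃ i ∈ I, ∃ v, Sv v ∧ P v (F i) (G i) := by
  classical
  set e : ℕ → ℕ := fun n => (Nat.nth (· ∈ I) n) with he
  have heI : ∀ n, e n ∈ I := fun n => Nat.nth_mem_of_infinite hI n
  have hem : StrictMono e := Nat.nth_strictMono hI
  have h' : ∀ i j, i < j → ∃ v, Sv v ∧ P v (F (e i)) (G (e j)) := fun i j hij =>
    h _ (heI i) _ (heI j) (hem hij)
  set χ : ℕ → ℕ → Fin 5 := fun i j => if hij : i < j then (h' i j hij).choose else 0 with hχ
  obtain ⟨f, hf, γ, hγ⟩ := Pool.Agent.MCG.ramsey_inf2 χ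
  have key : ∀ i j, i < j → Sv γ ∧ P γ (F (e (f i))) (G (e (f j))) := by
    intro i j hij
    have h1 := hγ i j hij
    have h2 : χ (f i) (f j) = (h' (f i) (f j) (hf hij)).choose := by
      simp only [hχ, dif_pos (hf hij)]
    rw [h1] at h2
    rw [h2]
    exact (h' (f i) (f j) (hf hij)).choose_spec
  have a01 := key 0 1 (by norm_num)
  have a02 := key 0 2 (by norm_num)
  have a12 := key 1 2 (by norm_num)
  exact ⟨e (f 1), heI _, γ, a01.1,
    ht _ _ _ _ a12.2 (ht _ _ _ _ (hs _ _ _ a02.2) a01.2)⟩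

end MCG
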