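import Pool.Agent.MCG.Defs
import Pool.Agent.MCG.Ram98

/-!
Row R8: from the five voters to the homogeneous structure of the three tight voters on six classes.
-/

set_option autoImplicit false

namespace MCG

/-- The three voters other than `E` and `D`. -/
theorem tight19 : ∀ E D : Fin 5, E ≠ D → ∃ e : Fin 3 → Fin 5,
    e 0 ≠ e 1 ∧ e 0 ≠ e 2 ∧ e 1 ≠ e 2 ∧ ∀ v, (v ≠ E ∧ v ≠ D) ↔ (v = e 0 ∨ v = e 1 ∨ v = e 2) := by
  decide

theorem cnt19 (E D : Fin 5) (e : Fin 3 → Fin 5) (h01 : e 0 ≠ e 1) (h02 : e 0 ≠ e 2)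
    (h12 : e 1 ≠ e 2) (he : ∀ v, (v ≠ E ∧ v ≠ D) ↔ (v = e 0 ∨ v = e 1 ∨ v = e 2))
    (p : Fin 5 → Prop) :
    (2 ≤ cnt (fun v => v ≠ E ∧ v ≠ D ∧ p v) → two (fun k => p (e k))) ∧
    (1 ≤ cnt (fun v => v ≠ E ∧ v ≠ D ∧ p v) → one (fun k => p (e k))) := by
  classical
  have hs : cnt (fun v => v ≠ E ∧ v ≠ D ∧ p v)
      = (({e 0, e 1, e 2} : Finset (Fin 5)).filter p).card := by
    unfold cnt
    congr 1
    ext v
    have := he v
    simp only [Finset.mem_filter, Finset.mem_univ, true_and, Finset.mem_insert,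
      Finset.mem_singleton]
    tauto
  rw [hs]
  by_cases h0 : p (e 0) <;> by_cases h1 : p (e 1) <;> by_cases h2 : p (e 2) <;>
    simp [Finset.filter_insert, Finset.filter_singleton, h0, h1, h2, two, one, h01, h02, h12]

/-- The relabelled relation of the three tight voters: classes through `K`, residues shifted. -/
def rel19 (S : Sys Ty) (e : Fin 3 → Fin 5) (K : Fin 6 → ℕ) (t : ZMod 3) :
    Fin 3 → Fin 6 × Fin 6 × ZMod 3 → Fin 6 × Fin 6 × ZMod 3 → Prop :=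
  fun v f g => S.A (e v) (K f.1, K f.2.1, f.2.2 + t) (K g.1, K g.2.1, g.2.2 + t)

theorem hs19 (S : Sys Ty) (hcl : ∀ f, S.cl f = f.1) (hres : ∀ f, S.res f = f.2.2)
    (c : ℕ → ℕ) (E D : Fin 5) (up : Prop) (H : Out S c E D up)
    (e : Fin 3 → Fin 5) (h01 : e 0 ≠ e 1) (h02 : e 0 ≠ e 2)
    (h12 : e 1 ≠ e 2) (he : ∀ v, (v ≠ E ∧ v ≠ D) ↔ (v = e 0 ∨ v = e 1 ∨ v = e 2))
    (κ : Fin 6 → ℕ) (hκ : (up ∧ StrictMono κ) ∨ (¬ up ∧ StrictAnti κ)) (t : ZMod 3)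
    (hom : ∀ x y : Fin 4 → Fin 6, (∀ s t, x s < x t ↔ y s < y t) → ∀ v a b,
      (S.A (e v) (c (κ (x 0)), c (κ (x 1)), a) (c (κ (x 2)), c (κ (x 3)), b) ↔
       S.A (e v) (c (κ (y 0)), c (κ (y 1)), a) (c (κ (y 2)), c (κ (y 3)), b))) :
    HS 6 (rel19 S e (fun i => c (κ i)) t) := by
  have hcnt := cnt19 E D e h01 h02 h12 he
  have hv : ∀ v, e v ≠ E ∧ e v ≠ D := by
    intro v
    rw [he]
    fin_cases v <;> simp
  constructor
  · intro v f g h; exact S.tr _ _ _ _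
  · intro v f g h; exact S.ntr _ _ _ _
  · intro x y hxy v a b
    exact hom x y hxy v (a + t) (b + t)
  · intro v f g hfg hr
    refine H.sep (κ f.1) (e v) _ _ (hv v).1 (hv v).2 (hcl _) ?_ ?_
    · rw [hcl, hfg]
    · rw [hres, hres]
      simpa using hr
  · intro f g hfg hr
    refine (hcnt (fun v => S.A v (c (κ f.1), c (κ f.2.1), f.2.2 + t)
      (c (κ g.1), c (κ g.2.1), g.2.2 + t))).1 ?_
    refine H.same (κ f.1) _ _ (hcl _) ?_ ?_
    · rw [hcl, hfg]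
    · rw [hres, hres, hr]
  · intro f g hfg hr
    refine (hcnt (fun v => S.A v (c (κ f.1), c (κ f.2.1), f.2.2 + t)
      (c (κ g.1), c (κ g.2.1), g.2.2 + t))).1 ?_
    refine (H.arcf (κ f.1) _ _ (hcl _) ?_ ?_).ge
    · rw [hcl, hfg]
    · rw [hres, hres, hr]
      ring
  · intro f g hfg hr
    refine (hcnt (fun v => S.A v (c (κ g.1), c (κ g.2.1), g.2.2 + t)
      (c (κ f.1), c (κ f.2.1), f.2.2 + t))).2 ?_
    refine (H.arcb (κ f.1) (c (κ f.1), c (κ f.2.1), f.2.2 + t) (c (κ g.1), c (κ g.2.1), g.2.2 + t)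
      (hcl _) ?_ ?_).ge
    · rw [hcl, hfg]
    · rw [hres, hres, hr]
      ring
  · intro f g hfg
    refine (hcnt (fun v => S.A v (c (κ f.1), c (κ f.2.1), f.2.2 + t)
      (c (κ g.1), c (κ g.2.1), g.2.2 + t))).2 ?_
    rcases hκ with ⟨hu, hm⟩ | ⟨hu, hm⟩
    · exact H.c3u1 hu _ _ _ _ (hm hfg) (hcl _) (hcl _)
    · exact H.c3d1 hu _ _ _ _ (hm hfg) (hcl _) (hcl _)
  · intro f g hfg
    refine (hcnt (fun v => S.A v (c (κ g.1), c (κ g.2.1), g.2.2 + t)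
      (c (κ f.1), c (κ f.2.1), f.2.2 + t))).1 ?_
    rcases hκ with ⟨hu, hm⟩ | ⟨hu, hm⟩
    · exact H.c3u2 hu _ _ _ _ (hm hfg) (hcl _) (hcl _)
    · exact H.c3d2 hu _ _ _ _ (hm hfg) (hcl _) (hcl _)

/-- The conclusion of `broken` for the ordered pair of classes `i`, `j`, with its case and residue. -/
def Good19 (S : Sys Ty) (E D : Fin 5) (i j : ℕ) (k : Bool × ZMod 3) : Prop :=
  (k.1 = true ∧
    2 ≤ cnt (fun v => v ≠ E ∧ v ≠ D ∧ ¬ L (S.A v) (j, i, k.2 + 1) (i, j, k.2))) ∨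
  (k.1 = false ∧ ∀ v, v ≠ E → v ≠ D → ¬ L (S.A v) (i, j, k.2 + 1) (j, i, k.2))

theorem to_HS19
    (hom_inf : ∀ (Γ : Type) [Finite Γ] [Nonempty Γ] (χ : ℕ → ℕ → ℕ → ℕ → Γ),
      ∃ f : ℕ → ℕ, StrictMono f ∧ ∀ x y : Fin 4 → ℕ, (∀ s t, x s < x t ↔ y s < y t) →
        χ (f (x 0)) (f (x 1)) (f (x 2)) (f (x 3)) = χ (f (y 0)) (f (y 1)) (f (y 2)) (f (y 3)))
    (broken : ∀ (S : Sys Ty) (Q : Fin 5 → Ty → Ty → Prop)
      (_ : ∀ v f, ¬ Q v f f) (_ : ∀ v f g h, Q v f g → Q v g h → Q v f h)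
      (_ : ∀ v f g, L (S.A v) f g → Q v f g)
      (_ : ∀ (i j : ℕ) (a : ZMod 3), i ≠ j → 3 ≤ cnt (fun v => Q v (i, j, a) (j, i, a + 1)))
      (E D : Fin 5) (_ : E ≠ D) (i j : ℕ) (_ : i ≠ j)
      (_ : ∀ a b : ZMod 3, L (S.A D) (i, j, a) (j, i, b)),
      (∃ a : ZMod 3, 2 ≤ cnt (fun v => v ≠ E ∧ v ≠ D ∧ ¬ L (S.A v) (j, i, a + 1) (i, j, a))) ∨
      (∃ a : ZMod 3, ∀ v, v ≠ E → v ≠ D → ¬ L (S.A v) (i, j, a + 1) (j, i, a)))
    (S : Sys Ty) (hcl : ∀ f, S.cl f = f.1) (hres : ∀ f, S.res f = f.2.2)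
    (Q : Fin 5 → Ty → Ty → Prop)
    (q1 : ∀ v f, ¬ Q v f f) (q2 : ∀ v f g h, Q v f g → Q v g h → Q v f h)
    (q3 : ∀ v f g, L (S.A v) f g → Q v f g)
    (q4 : ∀ (i j : ℕ) (a : ZMod 3), i ≠ j → 3 ≤ cnt (fun v => Q v (i, j, a) (j, i, a + 1)))
    (c : ℕ → ℕ) (E D : Fin 5) (up : Prop) (H : Out S c E D up) :
    ∃ A : Fin 3 → Fin 6 × Fin 6 × ZMod 3 → Fin 6 × Fin 6 × ZMod 3 → Prop, HS 6 A ∧
      ((∀ i j : Fin 6, i < j → two (fun v => ¬ L (A v) (j, i, 1) (i, j, 0))) ∨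
       (∀ i j : Fin 6, i < j → ∀ v, ¬ L (A v) (i, j, 0) (j, i, 2))) := by
  classical
  obtain ⟨e, h01, h02, h12, he⟩ := tight19 E D H.ED
  have hcnt := cnt19 E D e h01 h02 h12 he
  have hv : ∀ v, e v ≠ E ∧ e v ≠ D := by
    intro v
    rw [he]
    fin_cases v <;> simp
  -- colour of a pair of indices
  have key : ∀ p q : ℕ, p < q → ∃ k : Bool × ZMod 3,
      (up → Good19 S E D (c p) (c q) k) ∧ (¬ up → Good19 S E D (c q) (c p) k) := by
    intro p q hpq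
    have hne : c p ≠ c q := (H.mono hpq).ne
    by_cases hu : up
    · have hD : ∀ a b : ZMod 3, L (S.A D) (c p, c q, a) (c q, c p, b) := fun a b =>
        ⟨(H.hDu p q _ _ hpq (hcl _) (hcl _)).2 hu,
          fun h => (H.hDd p q (c p, c q, a) (c q, c p, b) hpq (hcl _) (hcl _)).1 h hu⟩
      rcases broken S Q q1 q2 q3 q4 E D H.ED (c p) (c q) hne hD with ⟨a, ha⟩ | ⟨a, ha⟩
      · exact ⟨(true, a), fun _ => Or.inl ⟨rfl, ha⟩, fun h => absurd hu h⟩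
      · exact ⟨(false, a), fun _ => Or.inr ⟨rfl, ha⟩, fun h => absurd hu h⟩
    · have hD : ∀ a b : ZMod 3, L (S.A D) (c q, c p, a) (c p, c q, b) := fun a b =>
        ⟨(H.hDd p q (c p, c q, b) (c q, c p, a) hpq (hcl _) (hcl _)).2 hu,
          fun h => hu ((H.hDu p q (c p, c q, b) (c q, c p, a) hpq (hcl _) (hcl _)).1 h)⟩
      rcases broken S Q q1 q2 q3 q4 E D H.ED (c q) (c p) hne.symm hD with ⟨a, ha⟩ | ⟨a, ha⟩
      · exact ⟨(true, a), fun h => absurd h hu, fun _ => Or.inl ⟨rfl, ha⟩⟩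
      · exact ⟨(false, a), fun h => absurd h hu, fun _ => Or.inr ⟨rfl, ha⟩⟩
  obtain ⟨g, hg, k, hk⟩ := Pool.Agent.MCG.ramsey_inf2 (Γ := Bool × ZMod 3)
    (fun p q => if h : p < q then (key p q h).choose else (true, 0))
  have hk' : ∀ p q : ℕ, p < q →
      (up → Good19 S E D (c (g p)) (c (g q)) k) ∧
      (¬ up → Good19 S E D (c (g q)) (c (g p)) k) := by
    intro p q hpq
    have h1 := hk p q hpq
    have h2 : g p < g q := hg hpq
    simp only [h2, dite_true] at h1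
    rw [← h1]
    exact (key (g p) (g q) h2).choose_spec
  obtain ⟨f, hf, hom⟩ := hom_inf (Fin 3 → ZMod 3 → ZMod 3 → Prop)
    (fun p q r s v a b => S.A (e v) (c (g p), c (g q), a) (c (g r), c (g s), b))
  -- the order of the six classes
  obtain ⟨ι, hι⟩ : ∃ ι : Fin 6 → ℕ, (up ∧ StrictMono ι) ∨ (¬ up ∧ StrictAnti ι) := by
    by_cases hu : up
    · exact ⟨fun i => i.val, Or.inl ⟨hu, fun i j hij => hij⟩⟩
    · refine ⟨fun i => 5 - i.val, Or.inr ⟨hu, fun i j hij => ?_⟩⟩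
      have := i.isLt
      have := j.isLt
      have : i.val < j.val := hij
      simp only
      omega
  have hκ : (up ∧ StrictMono (fun i => g (f (ι i)))) ∨
      (¬ up ∧ StrictAnti (fun i => g (f (ι i)))) := by
    rcases hι with ⟨hu, hm⟩ | ⟨hu, hm⟩
    · exact Or.inl ⟨hu, fun i j hij => hg (hf (hm hij))⟩
    · exact Or.inr ⟨hu, fun i j hij => hg (hf (hm hij))⟩
  have hom' : ∀ x y : Fin 4 → Fin 6, (∀ s t, x s < x t ↔ y s < y t) → ∀ v a b,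
      (S.A (e v) (c (g (f (ι (x 0)))), c (g (f (ι (x 1)))), a)
        (c (g (f (ι (x 2)))), c (g (f (ι (x 3)))), b) ↔
       S.A (e v) (c (g (f (ι (y 0)))), c (g (f (ι (y 1)))), a)
        (c (g (f (ι (y 2)))), c (g (f (ι (y 3)))), b)) := by
    intro x y hxy v a b
    have h := hom (fun s => ι (x s)) (fun s => ι (y s)) (by
      intro s t
      rcases hι with ⟨_, hm⟩ | ⟨_, hm⟩
      · rw [hm.lt_iff_lt, hm.lt_iff_lt]; exact hxy s t
      · rw [hm.lt_iff_gt, hm.lt_iff_gt]; exact hxy t s)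
    exact iff_of_eq (congrFun (congrFun (congrFun h v) a) b)
  have hgood : ∀ i j : Fin 6, i < j →
      Good19 S E D (c (g (f (ι i)))) (c (g (f (ι j)))) k := by
    intro i j hij
    rcases hι with ⟨hu, hm⟩ | ⟨hu, hm⟩
    · exact (hk' _ _ (hf (hm hij))).1 hu
    · exact (hk' _ _ (hf (hm hij))).2 hu
  rcases hk0 : k with ⟨b, a⟩
  cases b with
  | true =>
    refine ⟨_, hs19 S hcl hres c E D up H e h01 h02 h12 he _ hκ a hom', Or.inl ?_⟩
    intro i j hij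
    rcases hgood i j hij with ⟨_, h⟩ | ⟨h, _⟩
    · rw [hk0] at h
      have h3 := (hcnt (fun v => ¬ L (S.A v) (c (g (f (ι j))), c (g (f (ι i))), a + 1)
        (c (g (f (ι i))), c (g (f (ι j))), a))).1 h
      simpa [rel19, L, add_comm] using h3
    · rw [hk0] at h
      simp at h
  | false =>
    refine ⟨_, hs19 S hcl hres c E D up H e h01 h02 h12 he _ hκ (a + 1) hom', Or.inr ?_⟩
    intro i j hij v
    rcases hgood i j hij with ⟨h, _⟩ | ⟨_, h⟩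
    · rw [hk0] at h
      simp at h
    · rw [hk0] at h
      have h3 := h (e v) (hv v).1 (hv v).2
      have h4 : (2 : ZMod 3) + (a + 1) = a := by
        have : (3 : ZMod 3) = 0 := by decide
        calc (2 : ZMod 3) + (a + 1) = a + 3 := by ring
          _ = a := by rw [this, add_zero]
      simpa [rel19, L, h4] using h3

end MCG
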